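import Pool.Agent.LibSchP.I2

/-! The scalar kernel lemma of Theorem A3 (Schatten norm compression, `2 < q < 4`). -/

open MeasureTheory Set

namespace Pool.Agent.LibSchA

open Pool.Agent.LibSchP (dd cst int_dd int_dd_neg cst_pos dd_comm)

/-- the density of `v ↦ v ^ (-a) * dd (2 a) r v` -/
noncomputable def nn (a r t : ℝ) : ℝ :=
  (t ^ a / cst a + r ^ (2 * a) * (t ^ (-a) / cst (1 - a))) / (t + r)

/-- `v ^ (-a) * dd (2 a) r v` -/
noncomputable def dA (a r v : ℝ) : ℝ := dd a r v - r ^ (2 * a) * dd (-a) r v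

theorem nn_nonneg (a r t : ℝ) (h0 : 0 < a) (h1 : a < 1) (hr : 0 < r) (ht : 0 < t) :
    0 ≤ nn a r t := by
  have hc1 := cst_pos a h0 h1
  have hc2 := cst_pos (1 - a) (by linarith) (by linarith)
  unfold nn
  positivity

theorem nn_int (a r v : ℝ) (h0 : 0 < a) (h1 : a < 1) (hr : 0 < r) (hv : 0 < v) :
    IntegrableOn (fun t => nn a r t / (t + v)) (Ioi 0) ∧
      ∫ t in Ioi (0 : ℝ), nn a r t / (t + v) = dA a r v := by
  obtain ⟨i1, e1⟩ := int_dd a r v h0 h1 hr hv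
  obtain ⟨i2, e2⟩ := int_dd_neg (1 - a) r v (by linarith) (by linarith) hr hv
  have hc1 := cst_pos a h0 h1
  have hc2 := cst_pos (1 - a) (by linarith) (by linarith)
  have hs : (1 - a - 1) = -a := by ring
  rw [hs] at i2 e2
  have hf : EqOn (fun t => (cst a)⁻¹ * (t ^ a / ((r + t) * (v + t)))
      + r ^ (2 * a) * (cst (1 - a))⁻¹ * (t ^ (-a) / ((r + t) * (v + t))))
      (fun t => nn a r t / (t + v)) (Ioi 0) := by
    intro t ht
    have ht' : (0 : ℝ) < t := ht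
    have e3 : t + r ≠ 0 := by positivity
    have e4 : t + v ≠ 0 := by positivity
    have e5 : r + t ≠ 0 := by positivity
    have e6 : v + t ≠ 0 := by positivity
    simp only [nn]
    rw [add_comm r t, add_comm v t]
    field_simp
  have hi : IntegrableOn (fun t => (cst a)⁻¹ * (t ^ a / ((r + t) * (v + t)))
      + r ^ (2 * a) * (cst (1 - a))⁻¹ * (t ^ (-a) / ((r + t) * (v + t)))) (Ioi 0) :=
    (i1.const_mul _).add (i2.const_mul _)
  refine ⟨hi.congr_fun hf measurableSet_Ioi, ?_⟩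
  rw [← setIntegral_congr_fun measurableSet_Ioi hf, integral_add (i1.const_mul _) (i2.const_mul _),
    integral_const_mul, integral_const_mul, e1, e2]
  unfold dA
  field_simp
  ring

theorem nn_meas (a r : ℝ) : Measurable (fun t => nn a r t) := by
  unfold nn
  fun_prop

/-- weights -/
theorem nn_w (a r : ℝ) (h0 : 0 < a) (h1 : a < 1) (hr : 0 < r) (w : ℝ → ℝ) (hw : Measurable w)
    (C : ℝ) (hb : ∀ t, 0 < t → |w t| ≤ C / (t + 1)) :
    IntegrableOn (fun t => nn a r t * w t) (Ioi 0) := by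
  have h := (nn_int a r 1 h0 h1 hr one_pos).1.const_mul C
  refine Integrable.mono' h ((nn_meas a r).mul hw).aestronglyMeasurable ?_
  refine (ae_restrict_iff' measurableSet_Ioi).mpr (Filter.Eventually.of_forall fun t ht => ?_)
  have ht' : (0 : ℝ) < t := ht
  rw [Real.norm_eq_abs, abs_mul, abs_of_nonneg (nn_nonneg a r t h0 h1 hr ht')]
  calc nn a r t * |w t| ≤ nn a r t * (C / (t + 1)) :=
        mul_le_mul_of_nonneg_left (hb t ht') (nn_nonneg a r t h0 h1 hr ht')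
    _ = C * (nn a r t / (t + 1)) := by ring

/-- identity for the divided difference -/
theorem dd_id (a e f v : ℝ) (he : 0 < e) (hf : 0 < f) (hv : 0 < v) :
    v ^ (1 - a) * dd (2 * a) e (f * v) = v * (f ^ (2 * a - 1) * dA a (e / f) v) := by
  have hr : 0 < e / f := div_pos he hf
  obtain ⟨r, hrd⟩ : ∃ r, r = e / f := ⟨_, rfl⟩
  rw [← hrd] at hr ⊢
  have her : e = f * r := by rw [hrd]; field_simp
  rw [her]
  have hfr : 0 < f * r := mul_pos hf hr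
  have hV : 0 < v ^ a := Real.rpow_pos_of_pos hv _
  have hR : 0 < r ^ a := Real.rpow_pos_of_pos hr _
  have hF : 0 < f ^ (2 * a) := Real.rpow_pos_of_pos hf _
  have e1 : v ^ (1 - a) = v / v ^ a := by rw [Real.rpow_sub hv, Real.rpow_one]
  have e2 : r ^ (2 * a) = r ^ a * r ^ a := by rw [two_mul, Real.rpow_add hr]
  have e2' : v ^ (2 * a) = v ^ a * v ^ a := by rw [two_mul, Real.rpow_add hv]
  have e3 : r ^ (-a) = (r ^ a)⁻¹ := Real.rpow_neg hr.le _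
  have e3' : v ^ (-a) = (v ^ a)⁻¹ := Real.rpow_neg hv.le _
  have e4 : f ^ (2 * a - 1) = f ^ (2 * a) / f := Real.rpow_sub_one hf.ne' _
  by_cases h : r = v
  · subst h
    unfold dA dd
    rw [if_pos rfl, if_pos rfl, if_pos rfl]
    have e5 : (f * r) ^ (2 * a - 1) = f ^ (2 * a) * (r ^ a * r ^ a) / (f * r) := by
      rw [Real.rpow_sub_one hfr.ne', Real.mul_rpow hf.le hr.le, e2]
    have e6 : r ^ (a - 1) = r ^ a / r := Real.rpow_sub_one hr.ne' _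
    have e7 : r ^ (-a - 1) = (r ^ a)⁻¹ / r := by rw [Real.rpow_sub_one hr.ne', e3]
    rw [e5, e6, e7, e1, e2, e4]
    field_simp
    ring
  · unfold dA dd
    have h' : f * r ≠ f * v := fun h2 => h (mul_left_cancel₀ hf.ne' h2)
    rw [if_neg h', if_neg h, if_neg h]
    have e5 : (f * r) ^ (2 * a) = f ^ (2 * a) * (r ^ a * r ^ a) := by
      rw [Real.mul_rpow hf.le hr.le, e2]
    have e6 : (f * v) ^ (2 * a) = f ^ (2 * a) * (v ^ a * v ^ a) := by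
      rw [Real.mul_rpow hf.le hv.le, e2']
    rw [e5, e6, e1, e2, e3, e3', e4]
    have h1 : r - v ≠ 0 := sub_ne_zero.mpr h
    have h2 : f * r - f * v ≠ 0 := sub_ne_zero.mpr h'
    have h3 : f * r - f * v = f * (r - v) := by ring
    rw [h3]
    field_simp
    ring

/-- third order pole -/
theorem int_pole (s : ℝ) (h0 : -1 < s) (h1 : s < 1)
    (hi : IntegrableOn (fun t : ℝ => t ^ s / ((1 + t) * (1 + t))) (Ioi 0)) :
    IntegrableOn (fun t : ℝ => t ^ s / (1 + t) ^ 3) (Ioi 0) ∧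
      ∫ t in Ioi (0 : ℝ), t ^ s / (1 + t) ^ 3
        = (1 - s) / 2 * ∫ t in Ioi (0 : ℝ), t ^ s / ((1 + t) * (1 + t)) := by
  have hi3 : IntegrableOn (fun t : ℝ => t ^ s / (1 + t) ^ 3) (Ioi 0) := by
    refine Integrable.mono' hi ?_ ?_
    · apply Measurable.aestronglyMeasurable
      fun_prop
    · refine (ae_restrict_iff' measurableSet_Ioi).mpr (Filter.Eventually.of_forall fun t ht => ?_)
      have ht' : (0 : ℝ) < t := ht
      have hp : 0 < t ^ s := Real.rpow_pos_of_pos ht' _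
      rw [Real.norm_eq_abs, abs_of_nonneg (by positivity)]
      apply div_le_div_of_nonneg_left hp.le (by positivity)
      nlinarith [sq_nonneg t, mul_pos ht' ht', mul_pos (mul_pos ht' ht') ht']
  refine ⟨hi3, ?_⟩
  have hder : ∀ t ∈ Ioi (0 : ℝ), HasDerivAt (fun t : ℝ => t ^ (s + 1) / (1 + t) ^ 2)
      (2 * (t ^ s / (1 + t) ^ 3) - (1 - s) * (t ^ s / ((1 + t) * (1 + t)))) t := by
    intro t ht
    have ht' : (0 : ℝ) < t := ht
    have h2 : HasDerivAt (fun t : ℝ => t ^ (s + 1)) ((s + 1) * t ^ (s + 1 - 1)) t :=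
      Real.hasDerivAt_rpow_const (Or.inl ht'.ne')
    have h3 : HasDerivAt (fun t : ℝ => (1 + t) ^ 2) (2 * (1 + t)) t := by
      have := ((hasDerivAt_id' t).const_add 1).fun_pow 2
      simpa using this
    have h4 := h2.div h3 (by positivity)
    refine h4.congr_deriv ?_
    have e1 : t ^ (s + 1 - 1) = t ^ s := by congr 1; ring
    have e2 : t ^ (s + 1) = t ^ s * t := Real.rpow_add_one ht'.ne' _
    rw [e1, e2]
    field_simp
    ring
  have hint : IntegrableOn (fun t : ℝ => 2 * (t ^ s / (1 + t) ^ 3)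
      - (1 - s) * (t ^ s / ((1 + t) * (1 + t)))) (Ioi 0) :=
    (hi3.const_mul _).sub (hi.const_mul _)
  have hcont : ContinuousWithinAt (fun t : ℝ => t ^ (s + 1) / (1 + t) ^ 2) (Ici 0) 0 := by
    apply ContinuousAt.continuousWithinAt
    apply ContinuousAt.div
    · exact Real.continuousAt_rpow_const _ _ (Or.inr (by linarith))
    · fun_prop
    · norm_num
  have hlim : Filter.Tendsto (fun t : ℝ => t ^ (s + 1) / (1 + t) ^ 2) Filter.atTop (nhds 0) := by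
    have h5 : Filter.Tendsto (fun t : ℝ => t ^ (-(1 - s))) Filter.atTop (nhds 0) :=
      tendsto_rpow_neg_atTop (by linarith)
    refine squeeze_zero' ?_ ?_ h5
    · filter_upwards [Filter.eventually_gt_atTop 0] with t ht
      positivity
    · filter_upwards [Filter.eventually_gt_atTop 0] with t ht
      have hp : 0 < t ^ (s + 1) := Real.rpow_pos_of_pos ht _
      have e1 : t ^ (-(1 - s)) = t ^ (s + 1) / t ^ 2 := by
        rw [← Real.rpow_natCast t 2, ← Real.rpow_sub ht]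
        congr 1
        push_cast
        ring
      rw [e1]
      apply div_le_div_of_nonneg_left hp.le (by positivity)
      nlinarith
  have h6 := integral_Ioi_of_hasDerivAt_of_tendsto hcont hder hint hlim
  rw [integral_sub (hi3.const_mul _) (hi.const_mul _), integral_const_mul, integral_const_mul,
    Real.zero_rpow (by linarith), zero_div, sub_zero] at h6
  linarith

theorem dA_one (a r : ℝ) (hr : 0 < r) (hr1 : r ≠ 1) : dA a r 1 = (r ^ (2 * a) - 1) / (r - 1) := by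
  have hR : 0 < r ^ a := Real.rpow_pos_of_pos hr _
  have e2 : r ^ (2 * a) = r ^ a * r ^ a := by rw [two_mul, Real.rpow_add hr]
  have e3 : r ^ (-a) = (r ^ a)⁻¹ := Real.rpow_neg hr.le _
  have h1 : r - 1 ≠ 0 := sub_ne_zero.mpr hr1
  unfold dA dd
  rw [if_neg hr1, if_neg hr1, e2, e3, Real.one_rpow, Real.one_rpow]
  field_simp
  ring

theorem base_a (a : ℝ) (h0 : 0 < a) (h1 : a < 1) :
    IntegrableOn (fun t : ℝ => t ^ a / ((1 + t) * (1 + t))) (Ioi 0) ∧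
      ∫ t in Ioi (0 : ℝ), t ^ a / ((1 + t) * (1 + t)) = cst a * a := by
  obtain ⟨i1, e1⟩ := int_dd a 1 1 h0 h1 one_pos one_pos
  refine ⟨i1, ?_⟩
  rw [e1, dd, if_pos rfl, Real.one_rpow, mul_one]

theorem base_b (a : ℝ) (h0 : 0 < a) (h1 : a < 1) :
    IntegrableOn (fun t : ℝ => t ^ (-a) / ((1 + t) * (1 + t))) (Ioi 0) ∧
      ∫ t in Ioi (0 : ℝ), t ^ (-a) / ((1 + t) * (1 + t)) = cst (1 - a) * a := by
  obtain ⟨i2, e2⟩ := int_dd_neg (1 - a) 1 1 (by linarith) (by linarith) one_pos one_pos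
  have hs : (1 - a - 1) = -a := by ring
  rw [hs] at i2 e2
  refine ⟨i2, ?_⟩
  rw [e2, dd, if_pos rfl, Real.one_rpow, mul_one]
  ring

/-- closed form, `r = 1` -/
theorem LM_one (a : ℝ) (h0 : 0 < a) (h1 : a < 1) :
    ∫ t in Ioi (0 : ℝ), nn a 1 t * (1 / (t + 1) ^ 2) = a := by
  obtain ⟨ia, ea⟩ := base_a a h0 h1
  obtain ⟨ib, eb⟩ := base_b a h0 h1
  obtain ⟨ja, fa⟩ := int_pole a (by linarith) h1 ia
  obtain ⟨jb, fb⟩ := int_pole (-a) (by linarith) (by linarith) ib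
  have hc1 := cst_pos a h0 h1
  have hc2 := cst_pos (1 - a) (by linarith) (by linarith)
  have hf : EqOn (fun t => nn a 1 t * (1 / (t + 1) ^ 2))
      (fun t => (cst a)⁻¹ * (t ^ a / (1 + t) ^ 3)
        + (cst (1 - a))⁻¹ * (t ^ (-a) / (1 + t) ^ 3)) (Ioi 0) := by
    intro t ht
    have ht' : (0 : ℝ) < t := ht
    have e3 : t + 1 ≠ 0 := by positivity
    simp only [nn, Real.one_rpow, one_mul]
    rw [add_comm 1 t]
    field_simp
  rw [setIntegral_congr_fun measurableSet_Ioi hf, integral_add (ja.const_mul _) (jb.const_mul _),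
    integral_const_mul, integral_const_mul, fa, fb, ea, eb]
  field_simp
  ring

/-- closed form, `r ≠ 1` -/
theorem LM_ne (a r : ℝ) (h0 : 0 < a) (h1 : a < 1) (hr : 0 < r) (hr1 : r ≠ 1) :
    ∫ t in Ioi (0 : ℝ), nn a r t * (1 / (t + 1) ^ 2)
      = (a * (1 + r ^ (2 * a)) - (r ^ (2 * a) - 1) / (r - 1)) / (r - 1) := by
  obtain ⟨ia, ea⟩ := base_a a h0 h1
  obtain ⟨ib, eb⟩ := base_b a h0 h1
  obtain ⟨ic, ec⟩ := nn_int a r 1 h0 h1 hr one_pos
  have hc1 := cst_pos a h0 h1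
  have hc2 := cst_pos (1 - a) (by linarith) (by linarith)
  have hr2 : r - 1 ≠ 0 := sub_ne_zero.mpr hr1
  have hf : EqOn (fun t => nn a r t * (1 / (t + 1) ^ 2))
      (fun t => (r - 1)⁻¹ * ((cst a)⁻¹ * (t ^ a / ((1 + t) * (1 + t)))
        + r ^ (2 * a) * (cst (1 - a))⁻¹ * (t ^ (-a) / ((1 + t) * (1 + t))) - nn a r t / (t + 1)))
      (Ioi 0) := by
    intro t ht
    have ht' : (0 : ℝ) < t := ht
    have e3 : t + 1 ≠ 0 := by positivity
    have e4 : t + r ≠ 0 := by positivity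
    simp only [nn]
    rw [add_comm 1 t]
    field_simp
    ring
  have i12 : IntegrableOn (fun t => (cst a)⁻¹ * (t ^ a / ((1 + t) * (1 + t)))
      + r ^ (2 * a) * (cst (1 - a))⁻¹ * (t ^ (-a) / ((1 + t) * (1 + t)))) (Ioi 0) :=
    (ia.const_mul _).add (ib.const_mul _)
  rw [setIntegral_congr_fun measurableSet_Ioi hf, integral_const_mul, integral_sub i12 ic,
    integral_add (ia.const_mul _) (ib.const_mul _),
    integral_const_mul, integral_const_mul, ea, eb, ec, dA_one a r hr hr1]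
  field_simp

/-- trapezoidal rule for `x ^ (2 a - 1)` -/
theorem GG_nonneg (a z : ℝ) (h0 : 0 < a) (h1 : 2 * a < 1) (hz : 1 ≤ z) :
    0 ≤ a * (z - 1 + z ^ (2 * a) - z ^ (2 * a - 1)) - z ^ (2 * a) + 1 := by
  have hmono : MonotoneOn (fun z : ℝ => a * (z - 1 + z ^ (2 * a) - z ^ (2 * a - 1))
      - z ^ (2 * a) + 1) (Ici 1) := by
    have hder : ∀ x : ℝ, 0 < x → HasDerivAt (fun z : ℝ => a * (z - 1 + z ^ (2 * a)
        - z ^ (2 * a - 1)) - z ^ (2 * a) + 1)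
        (a * (1 + 2 * a * x ^ (2 * a - 1) - (2 * a - 1) * x ^ (2 * a - 1 - 1))
          - 2 * a * x ^ (2 * a - 1)) x := by
      intro x hx
      have d1 : HasDerivAt (fun z : ℝ => z ^ (2 * a)) (2 * a * x ^ (2 * a - 1)) x :=
        Real.hasDerivAt_rpow_const (Or.inl hx.ne')
      have d2 : HasDerivAt (fun z : ℝ => z ^ (2 * a - 1)) ((2 * a - 1) * x ^ (2 * a - 1 - 1)) x :=
        Real.hasDerivAt_rpow_const (Or.inl hx.ne')
      exact (((((hasDerivAt_id' x).sub_const 1).add d1).sub d2).const_mul a).sub d1 |>.add_const 1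
    apply monotoneOn_of_deriv_nonneg (convex_Ici 1)
    · intro x hx
      exact (hder x (lt_of_lt_of_le one_pos hx)).continuousAt.continuousWithinAt
    · intro x hx
      rw [interior_Ici] at hx
      exact (hder x (lt_trans one_pos hx)).differentiableAt.differentiableWithinAt
    · intro x hx
      rw [interior_Ici] at hx
      have hx0 : 0 < x := lt_trans one_pos hx
      rw [(hder x hx0).deriv]
      have hw : 0 < x ^ (2 * a - 1) := Real.rpow_pos_of_pos hx0 _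
      have hB := one_add_mul_self_le_rpow_one_add (s := x ^ (2 * a - 1) - 1) (by linarith)
        (p := (2 - 2 * a) / (1 - 2 * a)) (by
          rw [le_div_iff₀ (by linarith)]
          linarith)
      have e1 : (1 + (x ^ (2 * a - 1) - 1)) ^ ((2 - 2 * a) / (1 - 2 * a))
          = x ^ (2 * a - 1 - 1) := by
        rw [add_sub_cancel, ← Real.rpow_mul hx0.le]
        congr 1
        have : 1 - 2 * a ≠ 0 := by linarith
        field_simp
        ring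
      rw [e1] at hB
      have h2 : (1 - 2 * a) * (1 + (2 - 2 * a) / (1 - 2 * a) * (x ^ (2 * a - 1) - 1))
          = (1 - 2 * a) + (2 - 2 * a) * (x ^ (2 * a - 1) - 1) := by
        have : 1 - 2 * a ≠ 0 := by linarith
        field_simp
      have h3 := mul_le_mul_of_nonneg_left hB (by linarith : (0 : ℝ) ≤ 1 - 2 * a)
      rw [h2] at h3
      nlinarith
  have h := hmono (mem_Ici.mpr (le_refl 1)) (mem_Ici.mpr hz) hz
  simp only [Real.one_rpow] at h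
  linarith

theorem sign_change (k w J : ℝ → ℝ) (A B C γ : ℝ) (hA : 0 ≤ A) (hB : 0 ≤ B) (hC : 0 ≤ C)
    (hγ : 0 < γ) (hAB : 0 < B → 0 < A)
    (hJ : ∀ t, 0 < t → J t = k t * (A * t - B + C * t ^ γ)) (hk : ∀ t, 0 < t → 0 ≤ k t)
    (hw : ∀ s t, 0 < s → s ≤ t → w s ≤ w t) (hw0 : ∀ t, 0 < t → 0 ≤ w t)
    (h1 : IntegrableOn J (Ioi 0)) (h2 : IntegrableOn (fun t => J t * w t) (Ioi 0))
    (h3 : 0 ≤ ∫ t in Ioi (0 : ℝ), J t) : 0 ≤ ∫ t in Ioi (0 : ℝ), J t * w t := by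
  rcases hB.eq_or_lt with hB0 | hB0
  · apply setIntegral_nonneg measurableSet_Ioi
    intro t ht
    have ht' : (0 : ℝ) < t := ht
    rw [hJ t ht', ← hB0]
    have := hk t ht'
    have := hw0 t ht'
    have : 0 < t ^ γ := Real.rpow_pos_of_pos ht' _
    have h5 : 0 ≤ A * t - 0 + C * t ^ γ := by
      rw [sub_zero]
      positivity
    positivity
  · have hA0 := hAB hB0
    have hcont : Continuous fun t : ℝ => A * t - B + C * t ^ γ := by
      have : Continuous fun t : ℝ => t ^ γ := Real.continuous_rpow_const hγ.le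
      fun_prop
    have hBA : 0 ≤ B / A := by positivity
    have hivt := intermediate_value_Icc hBA hcont.continuousOn
    have h0 : (0 : ℝ) ∈ Icc (A * 0 - B + C * (0 : ℝ) ^ γ) (A * (B / A) - B + C * (B / A) ^ γ) := by
      constructor
      · rw [Real.zero_rpow hγ.ne']
        linarith
      · have : 0 ≤ C * (B / A) ^ γ := mul_nonneg hC (Real.rpow_nonneg hBA _)
        have e : A * (B / A) = B := by field_simp
        rw [e]
        linarith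
    obtain ⟨t₀, ht₀, hN⟩ := hivt h0
    simp only at hN
    have ht0 : 0 < t₀ := by
      rcases ht₀.1.eq_or_lt with h | h
      · rw [← h, Real.zero_rpow hγ.ne'] at hN
        linarith
      · exact h
    have hmono : ∀ s t : ℝ, 0 < s → s ≤ t →
        A * s - B + C * s ^ γ ≤ A * t - B + C * t ^ γ := by
      intro s t hs hst
      have h5 := Real.rpow_le_rpow hs.le hst hγ.le
      have h6 := mul_le_mul_of_nonneg_left h5 hC
      have h7 := mul_le_mul_of_nonneg_left hst hA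
      linarith
    have h4 : 0 ≤ ∫ t in Ioi (0 : ℝ), (J t * w t - w t₀ * J t) := by
      apply setIntegral_nonneg measurableSet_Ioi
      intro t ht
      have ht' : (0 : ℝ) < t := ht
      have e : J t * w t - w t₀ * J t = k t * ((A * t - B + C * t ^ γ) * (w t - w t₀)) := by
        rw [hJ t ht']
        ring
      rw [e]
      apply mul_nonneg (hk t ht')
      rcases le_total t t₀ with h5 | h5
      · have h6 := hmono t t₀ ht' h5
        have h7 := hw t t₀ ht' h5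
        rw [hN] at h6
        nlinarith
      · have h6 := hmono t₀ t ht0 h5
        have h7 := hw t₀ t ht0 h5
        rw [hN] at h6
        exact mul_nonneg h6 (by linarith)
    rw [integral_sub h2 (h1.const_mul _), integral_const_mul] at h4
    have := mul_nonneg (hw0 t₀ ht0) h3
    linarith

/-- The weights. -/
structure Wt (w : ℝ → ℝ) : Prop where
  meas : Measurable w
  mono : ∀ s t, 0 < s → s ≤ t → w s ≤ w t
  nonneg : ∀ t, 0 < t → 0 ≤ w t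
  bound : ∃ C, ∀ t, 0 < t → w t ≤ C * (t + 1)

theorem Wt.int {w : ℝ → ℝ} (hw : Wt w) (a r : ℝ) (h0 : 0 < a) (h1 : a < 1) (hr : 0 < r) :
    IntegrableOn (fun t => nn a r t * (w t / (t + 1) ^ 2)) (Ioi 0) := by
  obtain ⟨C, hC⟩ := hw.bound
  apply nn_w a r h0 h1 hr _ _ C
  · intro t ht
    have h2 := hC t ht
    have h3 := hw.nonneg t ht
    have h4 : 0 < t + 1 := by linarith
    rw [abs_of_nonneg (by positivity), div_le_div_iff₀ (by positivity) h4]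
    have : C * (t + 1) ^ 2 = C * (t + 1) * (t + 1) := by ring
    rw [this]
    exact mul_le_mul_of_nonneg_right h2 h4.le
  · have := hw.meas
    fun_prop

theorem Wt.one : Wt fun _ => 1 :=
  ⟨measurable_const, fun _ _ _ _ => le_refl _, fun _ _ => zero_le_one, 1, fun t ht => by linarith⟩

theorem Wt.id : Wt fun t => t :=
  ⟨measurable_id, fun _ _ _ h => h, fun _ h => h.le, 1, fun t ht => by linarith⟩

theorem Wt.frac (v : ℝ) (hv : 0 < v) : Wt fun t => t / (t + v) := by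
  refine ⟨by fun_prop, ?_, ?_, 1, ?_⟩
  · intro s t hs hst
    rw [div_le_div_iff₀ (by linarith) (by linarith)]
    nlinarith
  · intro t ht
    positivity
  · intro t ht
    rw [div_le_iff₀ (by linarith)]
    nlinarith

/-- `nn a z` is at least `z ^ (2 a - 1) * nn a 1`, in the mean -/
theorem JA (a z : ℝ) (h0 : 0 < a) (h1 : 2 * a < 1) (hz : 1 ≤ z) {w : ℝ → ℝ} (hw : Wt w) :
    z ^ (2 * a - 1) * ∫ t in Ioi (0 : ℝ), nn a 1 t * (w t / (t + 1) ^ 2)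
      ≤ ∫ t in Ioi (0 : ℝ), nn a z t * (w t / (t + 1) ^ 2) := by
  have ha1 : a < 1 := by linarith
  have hz0 : 0 < z := lt_of_lt_of_le one_pos hz
  rcases hz.eq_or_lt with he | hlt
  · rw [← he, Real.one_rpow, one_mul]
  have hc1 := cst_pos a h0 ha1
  have hc2 := cst_pos (1 - a) (by linarith) (by linarith)
  have hzb : 1 < z ^ (2 * a) := Real.one_lt_rpow hlt (by linarith)
  have hzb1 : z ^ (2 * a - 1) < 1 := Real.rpow_lt_one_of_one_lt_of_neg hlt (by linarith)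
  have hzb2 : 0 < z ^ (2 * a - 1) := Real.rpow_pos_of_pos hz0 _
  have hzb3 : z ^ (2 * a) = z ^ (2 * a - 1) * z := by
    rw [← Real.rpow_add_one hz0.ne']
    congr 1
    ring
  have i1 := Wt.one.int a 1 h0 ha1 one_pos
  have i2 := Wt.one.int a z h0 ha1 hz0
  have j1 := hw.int a 1 h0 ha1 one_pos
  have j2 := hw.int a z h0 ha1 hz0
  have key := sign_change (fun t => t ^ a / ((t + z) * (t + 1)) * (1 / (t + 1) ^ 2)) w
    (fun t => nn a z t * (1 / (t + 1) ^ 2) - z ^ (2 * a - 1) * (nn a 1 t * (1 / (t + 1) ^ 2)))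
    ((1 - z ^ (2 * a - 1)) / cst a) ((z ^ (2 * a) - 1) / cst a)
    (z ^ (2 * a - 1) * (z - 1) / cst (1 - a)) (1 - 2 * a)
    (div_nonneg (by linarith) hc1.le) (div_nonneg (by linarith) hc1.le)
    (div_nonneg (mul_nonneg hzb2.le (by linarith)) hc2.le) (by linarith)
    (fun _ => div_pos (by linarith) hc1)
    (by
      intro t ht
      have hT : 0 < t ^ a := Real.rpow_pos_of_pos ht _
      have e1 : t ^ (1 - 2 * a) = t / (t ^ a * t ^ a) := by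
        rw [Real.rpow_sub ht, Real.rpow_one, two_mul, Real.rpow_add ht]
      have e2 : t ^ (-a) = (t ^ a)⁻¹ := Real.rpow_neg ht.le _
      have e3 : t + 1 ≠ 0 := by positivity
      have e4 : t + z ≠ 0 := by positivity
      simp only [nn, Real.one_rpow]
      rw [e1, e2, hzb3]
      field_simp
      ring)
    (by
      intro t ht
      positivity)
    hw.mono hw.nonneg (i2.sub (i1.const_mul _))
    (by
      refine (j2.sub (j1.const_mul (z ^ (2 * a - 1)))).congr_fun ?_ measurableSet_Ioi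
      intro t _
      simp only [Pi.sub_apply]
      ring)
    (by
      rw [integral_sub i2 (i1.const_mul _), integral_const_mul, LM_one a h0 ha1,
        LM_ne a z h0 ha1 hz0 hlt.ne']
      have hG := GG_nonneg a z h0 h1 hz
      have hz1 : 0 < z - 1 := by linarith
      have e : (a * (1 + z ^ (2 * a)) - (z ^ (2 * a) - 1) / (z - 1)) / (z - 1)
          - z ^ (2 * a - 1) * a
          = (a * (z - 1 + z ^ (2 * a) - z ^ (2 * a - 1)) - z ^ (2 * a) + 1) / (z - 1) ^ 2 := by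
        rw [hzb3]
        field_simp
        ring
      rw [e]
      positivity)
  have e5 : EqOn (fun t => (nn a z t * (1 / (t + 1) ^ 2)
      - z ^ (2 * a - 1) * (nn a 1 t * (1 / (t + 1) ^ 2))) * w t)
      (fun t => nn a z t * (w t / (t + 1) ^ 2)
        - z ^ (2 * a - 1) * (nn a 1 t * (w t / (t + 1) ^ 2))) (Ioi 0) := by
    intro t _
    ring
  rw [setIntegral_congr_fun measurableSet_Ioi e5, integral_sub j2 (j1.const_mul _),
    integral_const_mul] at key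
  linarith

theorem JB (a z : ℝ) (h0 : 0 < a) (h1 : 2 * a < 1) (hz : 1 ≤ z) {w : ℝ → ℝ} (hw : Wt w) :
    z ^ (2 * a - 1) * ∫ t in Ioi (0 : ℝ), nn a z⁻¹ t * (w t / (t + 1) ^ 2)
      ≤ ∫ t in Ioi (0 : ℝ), nn a 1 t * (w t / (t + 1) ^ 2) := by
  have ha1 : a < 1 := by linarith
  have hz0 : 0 < z := lt_of_lt_of_le one_pos hz
  have hzi : 0 < z⁻¹ := inv_pos.mpr hz0
  rcases hz.eq_or_lt with he | hlt
  · rw [← he, Real.one_rpow, one_mul, inv_one]
  have hc1 := cst_pos a h0 ha1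
  have hc2 := cst_pos (1 - a) (by linarith) (by linarith)
  have hzb : 1 < z ^ (2 * a) := Real.one_lt_rpow hlt (by linarith)
  have hzb2 : 0 < z ^ (2 * a - 1) := Real.rpow_pos_of_pos hz0 _
  have hzb3 : z ^ (2 * a) = z ^ (2 * a - 1) * z := by
    rw [← Real.rpow_add_one hz0.ne']
    congr 1
    ring
  have hzb1 : z ^ (2 * a - 1) < 1 := Real.rpow_lt_one_of_one_lt_of_neg hlt (by linarith)
  have hzb4 : (z⁻¹) ^ (2 * a) = (z ^ (2 * a - 1) * z)⁻¹ := by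
    rw [Real.inv_rpow hz0.le, hzb3]
  have i1 := Wt.one.int a 1 h0 ha1 one_pos
  have i2 := Wt.one.int a z⁻¹ h0 ha1 hzi
  have j1 := hw.int a 1 h0 ha1 one_pos
  have j2 := hw.int a z⁻¹ h0 ha1 hzi
  have key := sign_change (fun t => t ^ a / ((z * t + 1) * (t + 1)) * (1 / (t + 1) ^ 2)) w
    (fun t => nn a 1 t * (1 / (t + 1) ^ 2) - z ^ (2 * a - 1) * (nn a z⁻¹ t * (1 / (t + 1) ^ 2)))
    ((z - z ^ (2 * a)) / cst a) ((z ^ (2 * a) - 1) / cst a)
    ((z - 1) / cst (1 - a)) (1 - 2 * a)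
    (div_nonneg (by rw [hzb3]; nlinarith) hc1.le) (div_nonneg (by linarith) hc1.le)
    (div_nonneg (by linarith) hc2.le) (by linarith)
    (fun _ => div_pos (by rw [hzb3]; nlinarith) hc1)
    (by
      intro t ht
      have hT : 0 < t ^ a := Real.rpow_pos_of_pos ht _
      have e1 : t ^ (1 - 2 * a) = t / (t ^ a * t ^ a) := by
        rw [Real.rpow_sub ht, Real.rpow_one, two_mul, Real.rpow_add ht]
      have e2 : t ^ (-a) = (t ^ a)⁻¹ := Real.rpow_neg ht.le _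
      have e3 : t + 1 ≠ 0 := by positivity
      have e4 : z * t + 1 ≠ 0 := by positivity
      have e5 : t + z⁻¹ = (z * t + 1) / z := by field_simp
      simp only [nn, Real.one_rpow]
      rw [e1, e2, hzb4, hzb3, e5]
      field_simp
      ring)
    (by
      intro t ht
      positivity)
    hw.mono hw.nonneg (i1.sub (i2.const_mul _))
    (by
      refine (j1.sub (j2.const_mul (z ^ (2 * a - 1)))).congr_fun ?_ measurableSet_Ioi
      intro t _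
      simp only [Pi.sub_apply]
      ring)
    (by
      have hne : z⁻¹ ≠ 1 := by
        intro h
        exact hlt.ne' (inv_eq_one.mp h)
      rw [integral_sub i1 (i2.const_mul _), integral_const_mul, LM_one a h0 ha1,
        LM_ne a z⁻¹ h0 ha1 hzi hne]
      have hG := GG_nonneg a z h0 h1 hz
      have hz1 : 0 < z - 1 := by linarith
      have hz2 : z⁻¹ - 1 = -(z - 1) / z := by
        field_simp
        ring
      have e : a - z ^ (2 * a - 1) * ((a * (1 + (z⁻¹) ^ (2 * a))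
          - ((z⁻¹) ^ (2 * a) - 1) / (z⁻¹ - 1)) / (z⁻¹ - 1))
          = z * (a * (z - 1 + z ^ (2 * a) - z ^ (2 * a - 1)) - z ^ (2 * a) + 1) / (z - 1) ^ 2 := by
        rw [hzb4, hz2, hzb3]
        field_simp
        ring
      rw [e]
      positivity)
  have e5 : EqOn (fun t => (nn a 1 t * (1 / (t + 1) ^ 2)
      - z ^ (2 * a - 1) * (nn a z⁻¹ t * (1 / (t + 1) ^ 2))) * w t)
      (fun t => nn a 1 t * (w t / (t + 1) ^ 2)
        - z ^ (2 * a - 1) * (nn a z⁻¹ t * (w t / (t + 1) ^ 2))) (Ioi 0) := by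
    intro t _
    ring
  rw [setIntegral_congr_fun measurableSet_Ioi e5, integral_sub j1 (j2.const_mul _),
    integral_const_mul] at key
  linarith

theorem dA_split (a r v : ℝ) (h0 : 0 < a) (h1 : a < 1) (hr : 0 < r) (hv : 0 < v) :
    dA a r v = (∫ t in Ioi (0 : ℝ), nn a r t * (t / (t + 1) ^ 2))
      + v⁻¹ * (∫ t in Ioi (0 : ℝ), nn a r t * (1 / (t + 1) ^ 2))
      - (v - 1) ^ 2 * v⁻¹ * ∫ t in Ioi (0 : ℝ), nn a r t * (t / (t + v) / (t + 1) ^ 2) := by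
  obtain ⟨_, e⟩ := nn_int a r v h0 h1 hr hv
  have i1 := Wt.id.int a r h0 h1 hr
  have i2 := Wt.one.int a r h0 h1 hr
  have i3 := (Wt.frac v hv).int a r h0 h1 hr
  have hf : EqOn (fun t => nn a r t / (t + v))
      (fun t => nn a r t * (t / (t + 1) ^ 2) + v⁻¹ * (nn a r t * (1 / (t + 1) ^ 2))
        - (v - 1) ^ 2 * v⁻¹ * (nn a r t * (t / (t + v) / (t + 1) ^ 2))) (Ioi 0) := by
    intro t ht
    have ht' : (0 : ℝ) < t := ht
    have e3 : t + 1 ≠ 0 := by positivity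
    have e4 : t + v ≠ 0 := by positivity
    simp only
    field_simp
    ring
  have i12 : IntegrableOn (fun t => nn a r t * (t / (t + 1) ^ 2)
      + v⁻¹ * (nn a r t * (1 / (t + 1) ^ 2))) (Ioi 0) := i1.add (i2.const_mul _)
  rw [← e, setIntegral_congr_fun measurableSet_Ioi hf, integral_sub i12 (i3.const_mul _),
    integral_add i1 (i2.const_mul _), integral_const_mul, integral_const_mul]

theorem dd_smul (s c x y : ℝ) (hc : 0 < c) (hx : 0 < x) (hy : 0 < y) :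
    dd s (c * x) (c * y) = c ^ (s - 1) * dd s x y := by
  unfold dd
  by_cases h : x = y
  · rw [if_pos h, if_pos (by rw [h]), Real.mul_rpow hc.le hx.le]
    ring
  · have h' : c * x ≠ c * y := fun h2 => h (mul_left_cancel₀ hc.ne' h2)
    rw [if_neg h, if_neg h', Real.mul_rpow hc.le hx.le, Real.mul_rpow hc.le hy.le,
      Real.rpow_sub_one hc.ne']
    have h1 : x - y ≠ 0 := sub_ne_zero.mpr h
    have h3 : c * x - c * y = c * (x - y) := by ring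
    rw [h3]
    field_simp

theorem dd_anti (s x y y' : ℝ) (h0 : 0 < s) (h1 : s < 1) (hx : 0 < x) (hy : 0 < y)
    (hyy : y ≤ y') : dd s x y' ≤ dd s x y := by
  have hy' : 0 < y' := lt_of_lt_of_le hy hyy
  obtain ⟨i1, e1⟩ := int_dd s x y h0 h1 hx hy
  obtain ⟨i2, e2⟩ := int_dd s x y' h0 h1 hx hy'
  have hc := cst_pos s h0 h1
  have h : cst s * dd s x y' ≤ cst s * dd s x y := by
    rw [← e1, ← e2]
    apply setIntegral_mono_on i2 i1 measurableSet_Ioi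
    intro r hr
    have hr' : (0 : ℝ) < r := hr
    have : 0 < r ^ s := Real.rpow_pos_of_pos hr' _
    apply div_le_div_of_nonneg_left this.le (by positivity)
    have : 0 < x + r := by positivity
    nlinarith
  exact le_of_mul_le_mul_left h hc

/-- The cross kernel of one column. -/
noncomputable def ker (a e₁ e₂ p₁ p₂ q₁ q₂ x y : ℝ) : ℝ :=
  (x * y) ^ (1 - a) * (p₁ * q₁ * dd (2 * a) (e₁ * x) (e₁ * y)
    + p₁ * q₂ * dd (2 * a) (e₁ * x) (e₂ * y) + p₂ * q₁ * dd (2 * a) (e₂ * x) (e₁ * y)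
    + p₂ * q₂ * dd (2 * a) (e₂ * x) (e₂ * y))

/-- mean of the density -/
noncomputable def CC (a e₁ e₂ p₁ p₂ q₁ q₂ : ℝ) (w : ℝ → ℝ) : ℝ :=
  (p₁ * q₁ * e₁ ^ (2 * a - 1) + p₂ * q₂ * e₂ ^ (2 * a - 1))
      * (∫ t in Ioi (0 : ℝ), nn a 1 t * (w t / (t + 1) ^ 2))
    + p₁ * q₂ * e₂ ^ (2 * a - 1) * (∫ t in Ioi (0 : ℝ), nn a (e₁ / e₂) t * (w t / (t + 1) ^ 2))
    + p₂ * q₁ * e₁ ^ (2 * a - 1) * (∫ t in Ioi (0 : ℝ), nn a (e₂ / e₁) t * (w t / (t + 1) ^ 2))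

theorem ker_eq (a e₁ e₂ p₁ p₂ q₁ q₂ x y : ℝ) (h0 : 0 < a) (h1 : a < 1) (he₁ : 0 < e₁)
    (he₂ : 0 < e₂) (hx : 0 < x) (hy : 0 < y) :
    ker a e₁ e₂ p₁ p₂ q₁ q₂ x y = CC a e₁ e₂ p₁ p₂ q₁ q₂ (fun _ => 1) * x
      + CC a e₁ e₂ p₁ p₂ q₁ q₂ (fun t => t) * y
      - x * (y / x - 1) ^ 2 * CC a e₁ e₂ p₁ p₂ q₁ q₂ (fun t => t / (t + y / x)) := by
  obtain ⟨v, hv⟩ : ∃ v, v = y / x := ⟨_, rfl⟩
  have hv0 : 0 < v := by rw [hv]; positivity
  have hyv : y = x * v := by rw [hv]; field_simp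
  have hd : ∀ e f : ℝ, 0 < e → 0 < f → (x * y) ^ (1 - a) * dd (2 * a) (e * x) (f * y)
      = x * (v * (f ^ (2 * a - 1) * dA a (e / f) v)) := by
    intro e f he hf
    rw [← dd_id a e f v he hf hv0, hyv]
    have e1 : e * x = x * e := mul_comm _ _
    have e2 : f * (x * v) = x * (f * v) := by ring
    rw [e1, e2, dd_smul (2 * a) x e (f * v) hx he (mul_pos hf hv0)]
    have e3 : (x * (x * v)) ^ (1 - a) = x ^ (1 - a) * x ^ (1 - a) * v ^ (1 - a) := by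
      rw [← mul_assoc, Real.mul_rpow (mul_pos hx hx).le hv0.le, Real.mul_rpow hx.le hx.le]
    have e4 : x ^ (1 - a) * x ^ (1 - a) * x ^ (2 * a - 1) = x := by
      rw [← Real.rpow_add hx, ← Real.rpow_add hx]
      have : (1 - a + (1 - a) + (2 * a - 1)) = 1 := by ring
      rw [this, Real.rpow_one]
    rw [e3]
    calc x ^ (1 - a) * x ^ (1 - a) * v ^ (1 - a) * (x ^ (2 * a - 1) * dd (2 * a) e (f * v))
        = (x ^ (1 - a) * x ^ (1 - a) * x ^ (2 * a - 1))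
            * (v ^ (1 - a) * dd (2 * a) e (f * v)) := by ring
      _ = _ := by rw [e4]
  have h11 := hd e₁ e₁ he₁ he₁
  have h12 := hd e₁ e₂ he₁ he₂
  have h21 := hd e₂ e₁ he₂ he₁
  have h22 := hd e₂ e₂ he₂ he₂
  rw [div_self he₁.ne'] at h11
  rw [div_self he₂.ne'] at h22
  have s1 := dA_split a 1 v h0 h1 one_pos hv0
  have s2 := dA_split a (e₁ / e₂) v h0 h1 (by positivity) hv0
  have s3 := dA_split a (e₂ / e₁) v h0 h1 (by positivity) hv0
  have hk : ker a e₁ e₂ p₁ p₂ q₁ q₂ x y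
      = p₁ * q₁ * ((x * y) ^ (1 - a) * dd (2 * a) (e₁ * x) (e₁ * y))
        + p₁ * q₂ * ((x * y) ^ (1 - a) * dd (2 * a) (e₁ * x) (e₂ * y))
        + p₂ * q₁ * ((x * y) ^ (1 - a) * dd (2 * a) (e₂ * x) (e₁ * y))
        + p₂ * q₂ * ((x * y) ^ (1 - a) * dd (2 * a) (e₂ * x) (e₂ * y)) := by
    unfold ker
    ring
  rw [hk, h11, h12, h21, h22, s1, s2, s3, ← hv]
  unfold CC
  rw [hyv]
  field_simp
  ring

theorem CC_nonneg (a e₁ e₂ p₁ p₂ q₁ q₂ : ℝ) (h0 : 0 < a) (h1 : 2 * a < 1) (he₂ : 0 < e₂)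
    (he : e₂ ≤ e₁) (h12 : 0 ≤ p₁ * q₂) (h21 : p₂ * q₁ ≤ 0) (hq : 0 ≤ q₁ + q₂)
    (hp : 0 ≤ e₁ ^ (2 * a - 1) * p₁ + e₂ ^ (2 * a - 1) * p₂) {w : ℝ → ℝ} (hw : Wt w) :
    0 ≤ CC a e₁ e₂ p₁ p₂ q₁ q₂ w := by
  have he₁ : 0 < e₁ := lt_of_lt_of_le he₂ he
  have hz : 1 ≤ e₁ / e₂ := by rwa [one_le_div he₂]
  have hA := JA a (e₁ / e₂) h0 h1 hz hw
  have hB := JB a (e₁ / e₂) h0 h1 hz hw
  rw [inv_div] at hB
  have hE : (e₁ / e₂) ^ (2 * a - 1) = e₁ ^ (2 * a - 1) / e₂ ^ (2 * a - 1) :=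
    Real.div_rpow he₁.le he₂.le _
  have hE1 : 0 < e₁ ^ (2 * a - 1) := Real.rpow_pos_of_pos he₁ _
  have hE2 : 0 < e₂ ^ (2 * a - 1) := Real.rpow_pos_of_pos he₂ _
  rw [hE] at hA hB
  set L1 := ∫ t in Ioi (0 : ℝ), nn a 1 t * (w t / (t + 1) ^ 2) with hL1
  set L2 := ∫ t in Ioi (0 : ℝ), nn a (e₁ / e₂) t * (w t / (t + 1) ^ 2) with hL2
  set L3 := ∫ t in Ioi (0 : ℝ), nn a (e₂ / e₁) t * (w t / (t + 1) ^ 2) with hL3
  have hL : 0 ≤ L1 := by
    apply setIntegral_nonneg measurableSet_Ioi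
    intro t ht
    have ht' : (0 : ℝ) < t := ht
    have := nn_nonneg a 1 t h0 (by linarith) one_pos ht'
    have := hw.nonneg t ht'
    positivity
  have hA' : e₁ ^ (2 * a - 1) * L1 ≤ e₂ ^ (2 * a - 1) * L2 := by
    have := mul_le_mul_of_nonneg_left hA hE2.le
    have e : e₂ ^ (2 * a - 1) * (e₁ ^ (2 * a - 1) / e₂ ^ (2 * a - 1) * L1)
        = e₁ ^ (2 * a - 1) * L1 := by field_simp
    rwa [e] at this
  have hB' : e₁ ^ (2 * a - 1) * L3 ≤ e₂ ^ (2 * a - 1) * L1 := by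
    have := mul_le_mul_of_nonneg_left hB hE2.le
    have e : e₂ ^ (2 * a - 1) * (e₁ ^ (2 * a - 1) / e₂ ^ (2 * a - 1) * L3)
        = e₁ ^ (2 * a - 1) * L3 := by field_simp
    rwa [e] at this
  unfold CC
  rw [← hL1, ← hL2, ← hL3]
  have h3 := mul_le_mul_of_nonneg_left hA' h12
  have h4 := mul_le_mul_of_nonpos_left hB' h21
  have h5 : 0 ≤ (q₁ + q₂) * (e₁ ^ (2 * a - 1) * p₁ + e₂ ^ (2 * a - 1) * p₂) * L1 :=
    mul_nonneg (mul_nonneg hq hp) hL
  nlinarith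

theorem ker_nonneg (a e₁ e₂ p₁ p₂ q₁ q₂ x y : ℝ) (h0 : 0 < a) (h1 : 2 * a < 1) (he₂ : 0 < e₂)
    (he : e₂ ≤ e₁) (h12 : 0 ≤ p₁ * q₂) (h21 : p₂ * q₁ ≤ 0) (hq : 0 ≤ q₁ + q₂)
    (hp : 0 ≤ e₁ ^ (2 * a - 1) * p₁ + e₂ ^ (2 * a - 1) * p₂) (hx : 0 < x) (hy : 0 < y) :
    0 ≤ ker a e₁ e₂ p₁ p₂ q₁ q₂ x y := by
  have he₁ : 0 < e₁ := lt_of_lt_of_le he₂ he
  have d1 : dd (2 * a) (e₁ * x) (e₁ * y) ≤ dd (2 * a) (e₁ * x) (e₂ * y) :=
    dd_anti _ _ _ _ (by linarith) h1 (by positivity) (by positivity)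
      (mul_le_mul_of_nonneg_right he hy.le)
  have d2 : dd (2 * a) (e₂ * x) (e₁ * y) ≤ dd (2 * a) (e₂ * x) (e₂ * y) :=
    dd_anti _ _ _ _ (by linarith) h1 (by positivity) (by positivity)
      (mul_le_mul_of_nonneg_right he hy.le)
  have s1 := dd_smul (2 * a) e₁ x y he₁ hx hy
  have s2 := dd_smul (2 * a) e₂ x y he₂ hx hy
  have hdd : 0 ≤ dd (2 * a) x y :=
    Pool.Agent.LibSchP.dd_nonneg _ _ _ (by linarith) h1 hx hy
  unfold ker
  apply mul_nonneg (by positivity)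
  have h3 := mul_le_mul_of_nonneg_left d1 h12
  have h4 := mul_le_mul_of_nonpos_left d2 h21
  rw [s1] at h3 ⊢
  rw [s2] at h4 ⊢
  have h5 : 0 ≤ (q₁ + q₂) * (e₁ ^ (2 * a - 1) * p₁ + e₂ ^ (2 * a - 1) * p₂) * dd (2 * a) x y :=
    mul_nonneg (mul_nonneg hq hp) hdd
  nlinarith

/-- **Kernel lemma.**  Typical use: `p₁ + p₂`, `q₁ + q₂` are the two entries of a column. -/
theorem kernel (a e₁ e₂ p₁ p₂ q₁ q₂ : ℝ) (h0 : 0 < a) (h1 : 2 * a < 1) (he₂ : 0 < e₂)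
    (he : e₂ ≤ e₁) (h12 : 0 ≤ p₁ * q₂) (h21 : p₂ * q₁ ≤ 0) (hq : 0 ≤ q₁ + q₂)
    (hp : 0 ≤ e₁ ^ (2 * a - 1) * p₁ + e₂ ^ (2 * a - 1) * p₂) :
    ∃ M P : ℝ, 0 ≤ M ∧ 0 ≤ P ∧ M + P = ker a e₁ e₂ p₁ p₂ q₁ q₂ 1 1 ∧
      ∀ x y : ℝ, 0 < x → 0 < y → 0 ≤ ker a e₁ e₂ p₁ p₂ q₁ q₂ x y ∧
        ker a e₁ e₂ p₁ p₂ q₁ q₂ x y ≤ M * x + P * y := by
  have he₁ : 0 < e₁ := lt_of_lt_of_le he₂ he
  have ha1 : a < 1 := by linarith
  refine ⟨CC a e₁ e₂ p₁ p₂ q₁ q₂ (fun _ => 1), CC a e₁ e₂ p₁ p₂ q₁ q₂ (fun t => t),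
    CC_nonneg a e₁ e₂ p₁ p₂ q₁ q₂ h0 h1 he₂ he h12 h21 hq hp Wt.one,
    CC_nonneg a e₁ e₂ p₁ p₂ q₁ q₂ h0 h1 he₂ he h12 h21 hq hp Wt.id, ?_, ?_⟩
  · rw [ker_eq a e₁ e₂ p₁ p₂ q₁ q₂ 1 1 h0 ha1 he₁ he₂ one_pos one_pos]
    norm_num
  · intro x y hx hy
    refine ⟨ker_nonneg a e₁ e₂ p₁ p₂ q₁ q₂ x y h0 h1 he₂ he h12 h21 hq hp hx hy, ?_⟩
    rw [ker_eq a e₁ e₂ p₁ p₂ q₁ q₂ x y h0 ha1 he₁ he₂ hx hy]
    have hv : 0 < y / x := by positivity
    have := CC_nonneg a e₁ e₂ p₁ p₂ q₁ q₂ h0 h1 he₂ he h12 h21 hq hp (Wt.frac (y / x) hv)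
    have : 0 ≤ x * (y / x - 1) ^ 2 * CC a e₁ e₂ p₁ p₂ q₁ q₂ (fun t => t / (t + y / x)) := by
      positivity
    linarith

theorem ker_swap (a e₁ e₂ p₁ p₂ q₁ q₂ x y : ℝ) :
    ker a e₁ e₂ p₁ p₂ q₁ q₂ x y = ker a e₁ e₂ q₁ q₂ p₁ p₂ y x := by
  unfold ker
  rw [dd_comm (2 * a) (e₁ * x) (e₁ * y), dd_comm (2 * a) (e₁ * x) (e₂ * y),
    dd_comm (2 * a) (e₂ * x) (e₁ * y), dd_comm (2 * a) (e₂ * x) (e₂ * y), mul_comm x y]
  ring

/-- the transposed version -/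
theorem kernel' (a e₁ e₂ p₁ p₂ q₁ q₂ : ℝ) (h0 : 0 < a) (h1 : 2 * a < 1) (he₂ : 0 < e₂)
    (he : e₂ ≤ e₁) (h12 : p₁ * q₂ ≤ 0) (h21 : 0 ≤ p₂ * q₁) (hp : 0 ≤ p₁ + p₂)
    (hq : 0 ≤ e₁ ^ (2 * a - 1) * q₁ + e₂ ^ (2 * a - 1) * q₂) :
    ∃ M P : ℝ, 0 ≤ M ∧ 0 ≤ P ∧ M + P = ker a e₁ e₂ p₁ p₂ q₁ q₂ 1 1 ∧
      ∀ x y : ℝ, 0 < x → 0 < y → 0 ≤ ker a e₁ e₂ p₁ p₂ q₁ q₂ x y ∧
        ker a e₁ e₂ p₁ p₂ q₁ q₂ x y ≤ M * x + P * y := by
  obtain ⟨M, P, hM, hP, hs, h⟩ := kernel a e₁ e₂ q₁ q₂ p₁ p₂ h0 h1 he₂ he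
    (by rw [mul_comm]; exact h21) (by rw [mul_comm]; exact h12) hp hq
  refine ⟨P, M, hP, hM, ?_, ?_⟩
  · rw [ker_swap, add_comm]
    exact hs
  · intro x y hx hy
    rw [ker_swap]
    obtain ⟨h2, h3⟩ := h y x hy hx
    exact ⟨h2, by linarith⟩

/-! ### The version with negative exponents (`4/3 < p < 2`) -/

theorem dd_neg_eq (s x y : ℝ) (hx : 0 < x) (hy : 0 < y) :
    dd (-s) x y = -((x * y) ^ (-s) * dd s x y) := by
  have hX : 0 < x ^ s := Real.rpow_pos_of_pos hx _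
  have hY : 0 < y ^ s := Real.rpow_pos_of_pos hy _
  unfold dd
  by_cases h : x = y
  · subst h
    rw [if_pos rfl, if_pos rfl, Real.mul_rpow hx.le hx.le, Real.rpow_sub_one hx.ne',
      Real.rpow_sub_one hx.ne', Real.rpow_neg hx.le]
    field_simp
  · rw [if_neg h, if_neg h, Real.mul_rpow hx.le hy.le, Real.rpow_neg hx.le, Real.rpow_neg hy.le]
    have h1 : x - y ≠ 0 := sub_ne_zero.mpr h
    field_simp
    ring

/-- The cross kernel of one column, `4/3 < p < 2`; `-dd (-2a) x y` is (up to the constant)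
`∫ λ^(-2a) / ((λ+x)(λ+y)) dλ`. -/
noncomputable def kerP (a e₁ e₂ p₁ p₂ q₁ q₂ x y : ℝ) : ℝ :=
  (x * y) ^ (1 + a) * (p₁ * q₁ * -dd (-(2 * a)) (e₁ * x) (e₁ * y)
    + p₁ * q₂ * -dd (-(2 * a)) (e₁ * x) (e₂ * y) + p₂ * q₁ * -dd (-(2 * a)) (e₂ * x) (e₁ * y)
    + p₂ * q₂ * -dd (-(2 * a)) (e₂ * x) (e₂ * y))

theorem kerP_eq (a e₁ e₂ p₁ p₂ q₁ q₂ x y : ℝ) (he₁ : 0 < e₁) (he₂ : 0 < e₂) (hx : 0 < x)
    (hy : 0 < y) :
    kerP a e₁ e₂ p₁ p₂ q₁ q₂ x y
      = ker a e₁ e₂ (e₁ ^ (-(2 * a)) * p₁) (e₂ ^ (-(2 * a)) * p₂) (e₁ ^ (-(2 * a)) * q₁)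
        (e₂ ^ (-(2 * a)) * q₂) x y := by
  have hd : ∀ e f : ℝ, 0 < e → 0 < f → (x * y) ^ (1 + a) * -dd (-(2 * a)) (e * x) (f * y)
      = (x * y) ^ (1 - a) * (e ^ (-(2 * a)) * f ^ (-(2 * a)) * dd (2 * a) (e * x) (f * y)) := by
    intro e f he hf
    have hxy : 0 < x * y := mul_pos hx hy
    have e1 : (e * x) * (f * y) = (e * f) * (x * y) := by ring
    have e2 : (x * y) ^ (1 + a) * (x * y) ^ (-(2 * a)) = (x * y) ^ (1 - a) := by
      rw [← Real.rpow_add hxy]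
      congr 1
      ring
    rw [dd_neg_eq _ _ _ (mul_pos he hx) (mul_pos hf hy), neg_neg, e1,
      Real.mul_rpow (mul_pos he hf).le hxy.le, Real.mul_rpow he.le hf.le, ← e2]
    ring
  unfold kerP ker
  have h11 := hd e₁ e₁ he₁ he₁
  have h12 := hd e₁ e₂ he₁ he₂
  have h21 := hd e₂ e₁ he₂ he₁
  have h22 := hd e₂ e₂ he₂ he₂
  linear_combination p₁ * q₁ * h11 + p₁ * q₂ * h12 + p₂ * q₁ * h21 + p₂ * q₂ * h22

theorem kernelP (a e₁ e₂ p₁ p₂ q₁ q₂ : ℝ) (h0 : 0 < a) (h1 : 2 * a < 1) (he₂ : 0 < e₂)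
    (he : e₂ ≤ e₁) (h12 : 0 ≤ p₁ * q₂) (h21 : p₂ * q₁ ≤ 0)
    (hq : 0 ≤ e₁ ^ (-(2 * a)) * q₁ + e₂ ^ (-(2 * a)) * q₂)
    (hp : 0 ≤ e₁⁻¹ * p₁ + e₂⁻¹ * p₂) :
    ∃ M P : ℝ, 0 ≤ M ∧ 0 ≤ P ∧ M + P = kerP a e₁ e₂ p₁ p₂ q₁ q₂ 1 1 ∧
      ∀ x y : ℝ, 0 < x → 0 < y → 0 ≤ kerP a e₁ e₂ p₁ p₂ q₁ q₂ x y ∧
        kerP a e₁ e₂ p₁ p₂ q₁ q₂ x y ≤ M * x + P * y := by
  have he₁ : 0 < e₁ := lt_of_lt_of_le he₂ he
  have hE1 : 0 < e₁ ^ (-(2 * a)) := Real.rpow_pos_of_pos he₁ _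
  have hE2 : 0 < e₂ ^ (-(2 * a)) := Real.rpow_pos_of_pos he₂ _
  have hm1 : e₁ ^ (2 * a - 1) * (e₁ ^ (-(2 * a)) * p₁) = e₁⁻¹ * p₁ := by
    rw [← mul_assoc, ← Real.rpow_add he₁, ← Real.rpow_neg_one]
    congr 2
    ring
  have hm2 : e₂ ^ (2 * a - 1) * (e₂ ^ (-(2 * a)) * p₂) = e₂⁻¹ * p₂ := by
    rw [← mul_assoc, ← Real.rpow_add he₂, ← Real.rpow_neg_one]
    congr 2
    ring
  obtain ⟨M, P, hM, hP, hs, h⟩ := kernel a e₁ e₂ (e₁ ^ (-(2 * a)) * p₁) (e₂ ^ (-(2 * a)) * p₂)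
    (e₁ ^ (-(2 * a)) * q₁) (e₂ ^ (-(2 * a)) * q₂) h0 h1 he₂ he
    (by
      have : e₁ ^ (-(2 * a)) * p₁ * (e₂ ^ (-(2 * a)) * q₂)
          = e₁ ^ (-(2 * a)) * e₂ ^ (-(2 * a)) * (p₁ * q₂) := by ring
      rw [this]
      positivity)
    (by
      have : e₂ ^ (-(2 * a)) * p₂ * (e₁ ^ (-(2 * a)) * q₁)
          = e₁ ^ (-(2 * a)) * e₂ ^ (-(2 * a)) * (p₂ * q₁) := by ring
      rw [this]
      exact mul_nonpos_of_nonneg_of_nonpos (by positivity) h21)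
    hq (by rw [hm1, hm2]; exact hp)
  refine ⟨M, P, hM, hP, ?_, ?_⟩
  · rw [kerP_eq a e₁ e₂ p₁ p₂ q₁ q₂ 1 1 he₁ he₂ one_pos one_pos]
    exact hs
  · intro x y hx hy
    rw [kerP_eq a e₁ e₂ p₁ p₂ q₁ q₂ x y he₁ he₂ hx hy]
    exact h x y hx hy

theorem kerP_swap (a e₁ e₂ p₁ p₂ q₁ q₂ x y : ℝ) :
    kerP a e₁ e₂ p₁ p₂ q₁ q₂ x y = kerP a e₁ e₂ q₁ q₂ p₁ p₂ y x := by
  unfold kerP
  rw [dd_comm (-(2 * a)) (e₁ * x) (e₁ * y), dd_comm (-(2 * a)) (e₁ * x) (e₂ * y),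
    dd_comm (-(2 * a)) (e₂ * x) (e₁ * y), dd_comm (-(2 * a)) (e₂ * x) (e₂ * y), mul_comm x y]
  ring

theorem kernelP' (a e₁ e₂ p₁ p₂ q₁ q₂ : ℝ) (h0 : 0 < a) (h1 : 2 * a < 1) (he₂ : 0 < e₂)
    (he : e₂ ≤ e₁) (h12 : p₁ * q₂ ≤ 0) (h21 : 0 ≤ p₂ * q₁)
    (hp : 0 ≤ e₁ ^ (-(2 * a)) * p₁ + e₂ ^ (-(2 * a)) * p₂)
    (hq : 0 ≤ e₁⁻¹ * q₁ + e₂⁻¹ * q₂) :
    ∃ M P : ℝ, 0 ≤ M ∧ 0 ≤ P ∧ M + P = kerP a e₁ e₂ p₁ p₂ q₁ q₂ 1 1 ∧
      ∀ x y : ℝ, 0 < x → 0 < y → 0 ≤ kerP a e₁ e₂ p₁ p₂ q₁ q₂ x y ∧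
        kerP a e₁ e₂ p₁ p₂ q₁ q₂ x y ≤ M * x + P * y := by
  obtain ⟨M, P, hM, hP, hs, h⟩ := kernelP a e₁ e₂ q₁ q₂ p₁ p₂ h0 h1 he₂ he
    (by rw [mul_comm]; exact h21) (by rw [mul_comm]; exact h12) hp hq
  refine ⟨P, M, hP, hM, ?_, ?_⟩
  · rw [kerP_swap, add_comm]
    exact hs
  · intro x y hx hy
    rw [kerP_swap]
    obtain ⟨h2, h3⟩ := h y x hy hx
    exact ⟨h2, by linarith⟩

end Pool.Agent.LibSchA
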