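import Pool.Agent.LibSchP.A3
import Pool.Agent.LibSchP.A1
import Pool.Agent.LibSchA.Kernel

/-! **A0.**  Definitions for Theorem A3 (`MP_9d9785_an`), exponents `2 < q < 4`, `a = 1 - 2/q`. -/

open MeasureTheory Set Matrix
open scoped ComplexOrder

namespace Pool.Agent.LibSchA

open Pool.Agent.LibSchP

/-- `f` is integrable on `(0, ∞)` and its integral is `v` -/
def Itg (f : ℝ → ℝ) (v : ℝ) : Prop := IntegrableOn f (Ioi 0) ∧ ∫ r in Ioi (0 : ℝ), f r = v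

/-- the trial function: `x^(1-a) g(r/x)`, `g(ν) = p₁ ν/(ν+e₁) + p₂ ν/(ν+e₂)` -/
noncomputable def gam (a e₁ e₂ p₁ p₂ x r : ℝ) : ℝ :=
  x ^ (1 - a) * (p₁ * (r / (r + e₁ * x)) + p₂ * (r / (r + e₂ * x)))

/-- the constant of the term `|T - G|²` -/
noncomputable def res (a e₁ e₂ p₁ p₂ : ℝ) : ℝ :=
  -(p₁ ^ 2 * e₁ ^ 2 * dd (2 * a - 1) e₁ e₁ + 2 * (p₁ * p₂) * (e₁ * e₂) * dd (2 * a - 1) e₁ e₂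
    + p₂ ^ 2 * e₂ ^ 2 * dd (2 * a - 1) e₂ e₂)

/-- The scalar data: `ε = R diag(d₁ e₁, d₂ e₂) Rᵀ` with the rotation `R = !![c, -s; s, c]`, and
the columns `Y_k = (c X_k - s Z_k, s X_k + c Z_k)` with `Y Yᵀ = ε^(2-2a)`. -/
structure SDat {N : ℕ} (a e₁ e₂ c s d₁ d₂ : ℝ) (X Z : Fin N → ℝ) : Prop where
  ha : 0 < a
  ha' : 2 * a < 1
  he₂ : 0 < e₂
  he : e₂ ≤ e₁
  hc : 0 ≤ c
  hs : 0 ≤ s
  hcs : c ^ 2 + s ^ 2 = 1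
  hd₁ : d₁ = 0 ∨ d₁ = 1
  hd₂ : d₂ = 0 ∨ d₂ = 1
  hd : d₂ ≤ d₁
  hX : ∑ k, X k ^ 2 = d₁ * e₁ ^ (2 - 2 * a)
  hZ : ∑ k, Z k ^ 2 = d₂ * e₂ ^ (2 - 2 * a)
  hXZ : ∑ k, X k * Z k = 0
  h₁ : ∀ k, 0 ≤ c * X k - s * Z k
  h₂ : ∀ k, 0 ≤ s * X k + c * Z k
  g₁ : ∀ k, 0 ≤ e₁ ^ (2 * a - 1) * (c * X k) - e₂ ^ (2 * a - 1) * (s * Z k)
  g₂ : ∀ k, 0 ≤ e₁ ^ (2 * a - 1) * (s * X k) + e₂ ^ (2 * a - 1) * (c * Z k)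

/-- The data of one block `T = U diag(y θ^(1-a)) Vᴴ` with `∑ θ² ≤ 1`. -/
structure BlkD {m n κ : Type} [Fintype m] [Fintype n] [Fintype κ] [DecidableEq κ] (a y : ℝ)
    (T : Matrix m n ℂ) (U : Matrix m κ ℂ) (V : Matrix n κ ℂ) (θ : κ → ℝ) : Prop where
  hU : Uᴴ * U = 1
  hV : Vᴴ * V = 1
  hθ : ∀ j, 0 < θ j
  hT : T = U * (dg fun j => y * θ j ^ (1 - a)) * Vᴴ
  hsum : ∑ j, θ j ^ 2 ≤ 1

end Pool.Agent.LibSchA
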