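import Pool.Agent.LibSchA.A0

/-! **A1.**  API of `Itg`. -/

open MeasureTheory Set

namespace Pool.Agent.LibSchA

theorem Itg.congr {f g : ℝ → ℝ} {v : ℝ} (hf : Itg f v) (h : ∀ r, 0 < r → f r = g r) : Itg g v :=
  ⟨hf.1.congr_fun (fun r hr => h r hr) measurableSet_Ioi,
    by rw [← hf.2]; exact (setIntegral_congr_fun measurableSet_Ioi fun r hr => h r hr).symm⟩

theorem Itg.add {f g : ℝ → ℝ} {v w : ℝ} (hf : Itg f v) (hg : Itg g w) :
    Itg (fun r => f r + g r) (v + w) :=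
  ⟨hf.1.add hg.1, by rw [← hf.2, ← hg.2]; exact integral_add hf.1 hg.1⟩

theorem Itg.const_mul {f : ℝ → ℝ} {v : ℝ} (hf : Itg f v) (c : ℝ) :
    Itg (fun r => c * f r) (c * v) :=
  ⟨hf.1.const_mul c, by rw [← hf.2]; exact integral_const_mul c _⟩

theorem Itg.zero : Itg (fun _ => 0) 0 := ⟨integrableOn_zero, by simp⟩

theorem Itg.sum {ι : Type} (s : Finset ι) {f : ι → ℝ → ℝ} {v : ι → ℝ}
    (h : ∀ i ∈ s, Itg (f i) (v i)) : Itg (fun r => ∑ i ∈ s, f i r) (∑ i ∈ s, v i) := by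
  classical
  induction s using Finset.induction_on with
  | empty => simpa using Itg.zero
  | insert i s hi ih =>
    have h1 := (h i (Finset.mem_insert_self i s)).add
      (ih fun j hj => h j (Finset.mem_insert_of_mem hj))
    rw [Finset.sum_insert hi]
    refine h1.congr fun r _ => ?_
    rw [Finset.sum_insert hi]

theorem Itg.mono {f g : ℝ → ℝ} {v w : ℝ} (hf : Itg f v) (hg : Itg g w)
    (h : ∀ r, 0 < r → f r ≤ g r) : v ≤ w := by
  rw [← hf.2, ← hg.2]
  exact setIntegral_mono_on hf.1 hg.1 measurableSet_Ioi fun r hr => h r hr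

theorem Itg.nonneg {f : ℝ → ℝ} {v : ℝ} (hf : Itg f v) (h : ∀ r, 0 < r → 0 ≤ f r) : 0 ≤ v :=
  Itg.zero.mono hf h

end Pool.Agent.LibSchA
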