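import Pool.Agent.LibSchA.A1

/-! **A2b.**  The scalar integrals (`|T - G|²`). -/

open MeasureTheory Set

namespace Pool.Agent.LibSchA

open Pool.Agent.LibSchP

theorem a2b_int (a A B : ℝ) (h0 : 0 < a) (h1 : 2 * a < 1) (hA : 0 < A) (hB : 0 < B) :
    Itg (fun r => r ^ (2 * a - 1) / ((A + r) * (B + r))) (-(cst (2 * a) * dd (2 * a - 1) A B)) :=
  int_dd_neg (2 * a) A B (by linarith) h1 hA hB

theorem a2b_pow (a x : ℝ) (hx : 0 < x) :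
    x ^ (1 - a) * x ^ (1 - a) * (x * x) * x ^ (2 * a - 1 - 1) = x ^ 2 := by
  have h2 : x * x = x ^ (2 : ℝ) := by
    rw [Real.rpow_two]; ring
  rw [h2, ← Real.rpow_add hx, ← Real.rpow_add hx, ← Real.rpow_add hx, ← Real.rpow_two]
  congr 1
  ring

/-- `x^(1-a)(p₁+p₂) - gam = x^(1-a) (p₁ e₁x/(r+e₁x) + p₂ e₂x/(r+e₂x))`, `int_dd_neg` with
`s = 2a`, `dd_smul` (`dd (2a-1) (e x) (f x) = x^(2a-2) dd (2a-1) e f`) -/
theorem itg_res (a e₁ e₂ p₁ p₂ x : ℝ) (h0 : 0 < a) (h1 : 2 * a < 1) (he₁ : 0 < e₁)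
    (he₂ : 0 < e₂) (hx : 0 < x) :
    Itg (fun r => r ^ (2 * a - 1) * (x ^ (1 - a) * (p₁ + p₂) - gam a e₁ e₂ p₁ p₂ x r) ^ 2)
      (cst (2 * a) * (x ^ 2 * res a e₁ e₂ p₁ p₂)) := by
  have hA : 0 < x * e₁ := mul_pos hx he₁
  have hB : 0 < x * e₂ := mul_pos hx he₂
  have i1 := (a2b_int a (x * e₁) (x * e₁) h0 h1 hA hA).const_mul
    (x ^ (1 - a) * x ^ (1 - a) * (p₁ ^ 2 * ((x * e₁) * (x * e₁))))
  have i2 := (a2b_int a (x * e₁) (x * e₂) h0 h1 hA hB).const_mul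
    (x ^ (1 - a) * x ^ (1 - a) * (2 * (p₁ * p₂) * ((x * e₁) * (x * e₂))))
  have i3 := (a2b_int a (x * e₂) (x * e₂) h0 h1 hB hB).const_mul
    (x ^ (1 - a) * x ^ (1 - a) * (p₂ ^ 2 * ((x * e₂) * (x * e₂))))
  have hI := (i1.add i2).add i3
  have hv : x ^ (1 - a) * x ^ (1 - a) * (p₁ ^ 2 * ((x * e₁) * (x * e₁))) *
        -(cst (2 * a) * dd (2 * a - 1) (x * e₁) (x * e₁)) +
      x ^ (1 - a) * x ^ (1 - a) * (2 * (p₁ * p₂) * ((x * e₁) * (x * e₂))) *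
        -(cst (2 * a) * dd (2 * a - 1) (x * e₁) (x * e₂)) +
      x ^ (1 - a) * x ^ (1 - a) * (p₂ ^ 2 * ((x * e₂) * (x * e₂))) *
        -(cst (2 * a) * dd (2 * a - 1) (x * e₂) (x * e₂)) =
      cst (2 * a) * (x ^ 2 * res a e₁ e₂ p₁ p₂) := by
    rw [dd_smul _ x e₁ e₁ hx he₁ he₁, dd_smul _ x e₁ e₂ hx he₁ he₂, dd_smul _ x e₂ e₂ hx he₂ he₂,
      ← a2b_pow a x hx]
    unfold res
    ring
  rw [hv] at hI
  refine hI.congr fun r hr => ?_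
  have n1 : x * e₁ + r ≠ 0 := by positivity
  have n2 : x * e₂ + r ≠ 0 := by positivity
  have n3 : r + e₁ * x ≠ 0 := by positivity
  have n4 : r + e₂ * x ≠ 0 := by positivity
  unfold gam
  have k1 : x ^ (1 - a) * (p₁ + p₂) -
      x ^ (1 - a) * (p₁ * (r / (r + e₁ * x)) + p₂ * (r / (r + e₂ * x))) =
      x ^ (1 - a) * (p₁ * ((x * e₁) / (x * e₁ + r)) + p₂ * ((x * e₂) / (x * e₂ + r))) := by
    have m1 : r / (r + e₁ * x) = 1 - (x * e₁) / (x * e₁ + r) := by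
      field_simp
      ring
    have m2 : r / (r + e₂ * x) = 1 - (x * e₂) / (x * e₂ + r) := by
      field_simp
      ring
    rw [m1, m2]
    ring
  rw [k1]
  field_simp
  ring

/-- from `itg_res` with `x = 1` -/
theorem res_nonneg (a e₁ e₂ p₁ p₂ : ℝ) (h0 : 0 < a) (h1 : 2 * a < 1) (he₁ : 0 < e₁)
    (he₂ : 0 < e₂) : 0 ≤ res a e₁ e₂ p₁ p₂ := by
  have h := (itg_res a e₁ e₂ p₁ p₂ 1 h0 h1 he₁ he₂ one_pos).nonneg fun r hr =>
    mul_nonneg (Real.rpow_nonneg hr.le _) (sq_nonneg _)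
  have hc := cst_pos (2 * a) (by linarith) h1
  rw [one_pow, one_mul] at h
  exact nonneg_of_mul_nonneg_right h hc

end Pool.Agent.LibSchA
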