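import Pool.Agent.LibSchA.A1

/-! **A2a.**  The scalar integrals (kernel). -/

open MeasureTheory Set

namespace Pool.Agent.LibSchA

open Pool.Agent.LibSchP

/-- `int_base` (`μ > 0`); `μ = 0`: both sides are `0` (`Real.zero_rpow`) -/
theorem itg_base (b μ : ℝ) (h0 : 0 < b) (h1 : b < 1) (hμ : 0 ≤ μ) :
    Itg (fun r => r ^ (b - 1) * (μ / (r + μ))) (cst b * μ ^ b) := by
  rcases hμ.eq_or_lt with h | h
  · subst h
    have hz : (0 : ℝ) ^ b = 0 := Real.zero_rpow h0.ne'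
    rw [hz, mul_zero]
    refine Itg.zero.congr fun r _ => ?_
    rw [zero_div, mul_zero]
  · have hI : Itg (fun r : ℝ => r ^ (b - 1) / (μ + r)) (cst b * μ ^ (b - 1)) :=
      int_base b μ h0 h1 h
    have hv : cst b * μ ^ b = μ * (cst b * μ ^ (b - 1)) := by
      rw [Real.rpow_sub_one h.ne']
      field_simp
    rw [hv]
    refine (hI.const_mul μ).congr fun r hr => ?_
    have e1 : μ + r ≠ 0 := by positivity
    have e2 : r + μ ≠ 0 := by positivity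
    rw [add_comm r μ]
    field_simp

/-- auxiliary: one term of the product -/
theorem a2a_term (a A B : ℝ) (h0 : 0 < a) (h1 : 2 * a < 1) (hA : 0 < A) (hB : 0 < B) :
    Itg (fun r => r ^ (2 * a - 2) * ((r / (r + A)) * (r / (r + B)))) (cst (2 * a) * dd (2 * a) A B) := by
  have hI : Itg (fun r : ℝ => r ^ (2 * a) / ((A + r) * (B + r))) (cst (2 * a) * dd (2 * a) A B) :=
    int_dd (2 * a) A B (by linarith) h1 hA hB
  refine hI.congr fun r hr => ?_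
  have e1 : A + r ≠ 0 := by positivity
  have e2 : B + r ≠ 0 := by positivity
  have e3 : r ^ (2 * a) = r ^ (2 * a - 2) * (r * r) := by
    have h2 : r * r = r ^ (2 : ℝ) := by
      rw [Real.rpow_two]
      ring
    rw [h2, ← Real.rpow_add hr]
    congr 1
    ring
  rw [e3, add_comm r A, add_comm r B]
  field_simp

/-- expand the product: `r^(2a-2) (r/(r+A)) (r/(r+B)) = r^(2a)/((A+r)(B+r))`, `int_dd` with
`s = 2a`, `x^(1-a) y^(1-a) = (xy)^(1-a)` -/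
theorem itg_ker (a e₁ e₂ p₁ p₂ q₁ q₂ x y : ℝ) (h0 : 0 < a) (h1 : 2 * a < 1) (he₁ : 0 < e₁)
    (he₂ : 0 < e₂) (hx : 0 < x) (hy : 0 < y) :
    Itg (fun r => r ^ (2 * a - 2) * (gam a e₁ e₂ p₁ p₂ x r * gam a e₁ e₂ q₁ q₂ y r))
      (cst (2 * a) * ker a e₁ e₂ p₁ p₂ q₁ q₂ x y) := by
  have t11 := (a2a_term a (e₁ * x) (e₁ * y) h0 h1 (mul_pos he₁ hx) (mul_pos he₁ hy)).const_mul
    ((x * y) ^ (1 - a) * (p₁ * q₁))
  have t12 := (a2a_term a (e₁ * x) (e₂ * y) h0 h1 (mul_pos he₁ hx) (mul_pos he₂ hy)).const_mul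
    ((x * y) ^ (1 - a) * (p₁ * q₂))
  have t21 := (a2a_term a (e₂ * x) (e₁ * y) h0 h1 (mul_pos he₂ hx) (mul_pos he₁ hy)).const_mul
    ((x * y) ^ (1 - a) * (p₂ * q₁))
  have t22 := (a2a_term a (e₂ * x) (e₂ * y) h0 h1 (mul_pos he₂ hx) (mul_pos he₂ hy)).const_mul
    ((x * y) ^ (1 - a) * (p₂ * q₂))
  have hs := ((t11.add t12).add t21).add t22
  have hv : cst (2 * a) * ker a e₁ e₂ p₁ p₂ q₁ q₂ x y
      = (x * y) ^ (1 - a) * (p₁ * q₁) * (cst (2 * a) * dd (2 * a) (e₁ * x) (e₁ * y))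
        + (x * y) ^ (1 - a) * (p₁ * q₂) * (cst (2 * a) * dd (2 * a) (e₁ * x) (e₂ * y))
        + (x * y) ^ (1 - a) * (p₂ * q₁) * (cst (2 * a) * dd (2 * a) (e₂ * x) (e₁ * y))
        + (x * y) ^ (1 - a) * (p₂ * q₂) * (cst (2 * a) * dd (2 * a) (e₂ * x) (e₂ * y)) := by
    unfold ker
    ring
  rw [hv]
  refine hs.congr fun r _ => ?_
  unfold gam
  rw [Real.mul_rpow hx.le hy.le]
  ring

/-- homogeneity, `dd_smul` -/
theorem a2a_diag (a e₁ e₂ p₁ p₂ q₁ q₂ x : ℝ) (he₁ : 0 < e₁) (he₂ : 0 < e₂) (hx : 0 < x) :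
    ker a e₁ e₂ p₁ p₂ q₁ q₂ x x = x * ker a e₁ e₂ p₁ p₂ q₁ q₂ 1 1 := by
  have hd : ∀ e f : ℝ, 0 < e → 0 < f →
      dd (2 * a) (e * x) (f * x) = x ^ (2 * a - 1) * dd (2 * a) (e * 1) (f * 1) := by
    intro e f he hf
    rw [mul_comm e x, mul_comm f x, mul_one, mul_one]
    exact dd_smul (2 * a) x e f hx he hf
  have hp : (x * x) ^ (1 - a) * x ^ (2 * a - 1) = x := by
    rw [Real.mul_rpow hx.le hx.le, ← Real.rpow_add hx, ← Real.rpow_add hx]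
    have : 1 - a + (1 - a) + (2 * a - 1) = 1 := by ring
    rw [this, Real.rpow_one]
  have h1 : ((1 : ℝ) * 1) ^ (1 - a) = 1 := by rw [mul_one, Real.one_rpow]
  unfold ker
  rw [hd e₁ e₁ he₁ he₁, hd e₁ e₂ he₁ he₂, hd e₂ e₁ he₂ he₁, hd e₂ e₂ he₂ he₂, h1, one_mul]
  calc _ = ((x * x) ^ (1 - a) * x ^ (2 * a - 1))
        * (p₁ * q₁ * dd (2 * a) (e₁ * 1) (e₁ * 1) + p₁ * q₂ * dd (2 * a) (e₁ * 1) (e₂ * 1)
          + p₂ * q₁ * dd (2 * a) (e₂ * 1) (e₁ * 1)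
          + p₂ * q₂ * dd (2 * a) (e₂ * 1) (e₂ * 1)) := by ring
    _ = _ := by rw [hp]

/-- from `itg_ker` with `x = y = 1` -/
theorem ker_diag_nonneg (a e₁ e₂ p₁ p₂ : ℝ) (h0 : 0 < a) (h1 : 2 * a < 1) (he₁ : 0 < e₁)
    (he₂ : 0 < e₂) : 0 ≤ ker a e₁ e₂ p₁ p₂ p₁ p₂ 1 1 := by
  have hI := itg_ker a e₁ e₂ p₁ p₂ p₁ p₂ 1 1 h0 h1 he₁ he₂ one_pos one_pos
  have h2 : 0 ≤ cst (2 * a) * ker a e₁ e₂ p₁ p₂ p₁ p₂ 1 1 := by
    refine hI.nonneg fun r hr => ?_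
    exact mul_nonneg (Real.rpow_nonneg hr.le _) (mul_self_nonneg _)
  have h3 := cst_pos (2 * a) (by linarith) h1
  exact nonneg_of_mul_nonneg_right h2 h3

/-- homogeneity, `dd_smul` -/
theorem ker_diag (a e₁ e₂ p₁ p₂ q₁ q₂ x : ℝ) (he₁ : 0 < e₁) (he₂ : 0 < e₂) (hx : 0 < x) :
    ker a e₁ e₂ p₁ p₂ q₁ q₂ x x = x * ker a e₁ e₂ p₁ p₂ q₁ q₂ 1 1 :=
  a2a_diag a e₁ e₂ p₁ p₂ q₁ q₂ x he₁ he₂ hx

end Pool.Agent.LibSchA
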