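import Pool.Agent.LibSchA.A0

/-! **A3.**  Scalar sums and the column kernels. -/

open Matrix

namespace Pool.Agent.LibSchA

open Pool.Agent.LibSchP

variable {N : ℕ} {a e₁ e₂ c s d₁ d₂ : ℝ} {X Z : Fin N → ℝ}

theorem A3_dd_self (t x : ℝ) : dd t x x = t * x ^ (t - 1) := by
  unfold dd
  rw [if_pos rfl]

theorem A3_ker_one (a e₁ e₂ p₁ p₂ q₁ q₂ : ℝ) :
    ker a e₁ e₂ p₁ p₂ q₁ q₂ 1 1 = p₁ * q₁ * (2 * a * e₁ ^ (2 * a - 1))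
      + (p₁ * q₂ + p₂ * q₁) * dd (2 * a) e₁ e₂ + p₂ * q₂ * (2 * a * e₂ ^ (2 * a - 1)) := by
  unfold ker
  simp only [mul_one]
  rw [Real.one_rpow, one_mul, A3_dd_self, A3_dd_self, dd_comm (2 * a) e₂ e₁]
  ring

theorem A3_pow (a e : ℝ) (he : 0 < e) : e ^ (2 - 2 * a) * e ^ (2 * a - 1) = e := by
  rw [← Real.rpow_add he]
  have h : 2 - 2 * a + (2 * a - 1) = 1 := by ring
  rw [h, Real.rpow_one]

theorem A3_pow2 (a e : ℝ) (he : 0 < e) : e ^ (2 - 2 * a) * e ^ (2 * a - 1 - 1) = 1 := by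
  rw [← Real.rpow_add he]
  have h : 2 - 2 * a + (2 * a - 1 - 1) = 0 := by ring
  rw [h, Real.rpow_zero]

/-- a combination of the three sums -/
theorem A3_sum (D : SDat a e₁ e₂ c s d₁ d₂ X Z) (f : Fin N → ℝ) (A B C : ℝ)
    (hf : ∀ k, f k = A * X k ^ 2 + B * (X k * Z k) + C * Z k ^ 2) :
    ∑ k, f k = A * (d₁ * e₁ ^ (2 - 2 * a)) + C * (d₂ * e₂ ^ (2 - 2 * a)) := by
  have h : ∑ k, f k = ∑ k, (A * X k ^ 2 + B * (X k * Z k) + C * Z k ^ 2) :=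
    Finset.sum_congr rfl fun k _ => hf k
  rw [h, Finset.sum_add_distrib, Finset.sum_add_distrib, ← Finset.mul_sum, ← Finset.mul_sum,
    ← Finset.mul_sum, D.hX, D.hZ, D.hXZ]
  ring

/-- `dd t x x = t x^(t-1)`; the coefficient of `X Z` is `-cs + sc = 0`;
`e² (1-2a) e^(2a-2) e^(2-2a) = (1-2a) e²` -/
theorem sum_res (D : SDat a e₁ e₂ c s d₁ d₂ X Z) :
    ∑ k, (res a e₁ e₂ (c * X k) (-(s * Z k)) + res a e₁ e₂ (s * X k) (c * Z k)) =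
      (1 - 2 * a) * (d₁ * e₁ ^ 2 + d₂ * e₂ ^ 2) := by
  have he₁ : 0 < e₁ := lt_of_lt_of_le D.he₂ D.he
  have p1 := A3_pow2 a e₁ he₁
  have p2 := A3_pow2 a e₂ D.he₂
  rw [A3_sum D _ (-(e₁ ^ 2 * ((2 * a - 1) * e₁ ^ (2 * a - 1 - 1)))) 0
    (-(e₂ ^ 2 * ((2 * a - 1) * e₂ ^ (2 * a - 1 - 1))))]
  · linear_combination ((1 - 2 * a) * d₁ * e₁ ^ 2) * p1 + ((1 - 2 * a) * d₂ * e₂ ^ 2) * p2
  · intro k
    unfold res
    rw [A3_dd_self, A3_dd_self]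
    linear_combination (-(X k ^ 2 * e₁ ^ 2 * ((2 * a - 1) * e₁ ^ (2 * a - 1 - 1)))
      - Z k ^ 2 * e₂ ^ 2 * ((2 * a - 1) * e₂ ^ (2 * a - 1 - 1))) * D.hcs

theorem sum_11 (D : SDat a e₁ e₂ c s d₁ d₂ X Z) :
    ∑ k, ker a e₁ e₂ (c * X k) (-(s * Z k)) (c * X k) (-(s * Z k)) 1 1 =
      2 * a * (d₁ * c ^ 2 * e₁ + d₂ * s ^ 2 * e₂) := by
  have he₁ : 0 < e₁ := lt_of_lt_of_le D.he₂ D.he
  have p1 := A3_pow a e₁ he₁
  have p2 := A3_pow a e₂ D.he₂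
  rw [A3_sum D _ (c ^ 2 * (2 * a * e₁ ^ (2 * a - 1))) (-(2 * (c * s)) * dd (2 * a) e₁ e₂)
    (s ^ 2 * (2 * a * e₂ ^ (2 * a - 1)))]
  · linear_combination (2 * a * d₁ * c ^ 2) * p1 + (2 * a * d₂ * s ^ 2) * p2
  · intro k
    rw [A3_ker_one]
    ring

theorem sum_22 (D : SDat a e₁ e₂ c s d₁ d₂ X Z) :
    ∑ k, ker a e₁ e₂ (s * X k) (c * Z k) (s * X k) (c * Z k) 1 1 =
      2 * a * (d₁ * s ^ 2 * e₁ + d₂ * c ^ 2 * e₂) := by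
  have he₁ : 0 < e₁ := lt_of_lt_of_le D.he₂ D.he
  have p1 := A3_pow a e₁ he₁
  have p2 := A3_pow a e₂ D.he₂
  rw [A3_sum D _ (s ^ 2 * (2 * a * e₁ ^ (2 * a - 1))) (2 * (c * s) * dd (2 * a) e₁ e₂)
    (c ^ 2 * (2 * a * e₂ ^ (2 * a - 1)))]
  · linear_combination (2 * a * d₁ * s ^ 2) * p1 + (2 * a * d₂ * c ^ 2) * p2
  · intro k
    rw [A3_ker_one]
    ring

/-- `dd_comm`, `hXZ` -/
theorem sum_12 (D : SDat a e₁ e₂ c s d₁ d₂ X Z) :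
    ∑ k, ker a e₁ e₂ (c * X k) (-(s * Z k)) (s * X k) (c * Z k) 1 1 =
      2 * a * (c * s * (d₁ * e₁ - d₂ * e₂)) := by
  have he₁ : 0 < e₁ := lt_of_lt_of_le D.he₂ D.he
  have p1 := A3_pow a e₁ he₁
  have p2 := A3_pow a e₂ D.he₂
  rw [A3_sum D _ (c * s * (2 * a * e₁ ^ (2 * a - 1))) ((c ^ 2 - s ^ 2) * dd (2 * a) e₁ e₂)
    (-(c * s) * (2 * a * e₂ ^ (2 * a - 1)))]
  · linear_combination (2 * a * d₁ * c * s) * p1 - (2 * a * d₂ * c * s) * p2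
  · intro k
    rw [A3_ker_one]
    ring

/-- `kernel` if `Z k ≥ 0`, `kernel'` if `Z k ≤ 0` (`X k ≥ 0` from `h₁`, `h₂`, `hcs`) -/
theorem kernel_col (D : SDat a e₁ e₂ c s d₁ d₂ X Z) (k : Fin N) :
    ∃ M P : ℝ, 0 ≤ M ∧ 0 ≤ P ∧
      M + P = ker a e₁ e₂ (c * X k) (-(s * Z k)) (s * X k) (c * Z k) 1 1 ∧
      ∀ x y : ℝ, 0 < x → 0 < y →
        |ker a e₁ e₂ (c * X k) (-(s * Z k)) (s * X k) (c * Z k) x y| ≤ M * x + P * y := by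
  have hX : 0 ≤ X k := by
    have h1 := mul_nonneg D.hc (D.h₁ k)
    have h2 := mul_nonneg D.hs (D.h₂ k)
    have h3 : X k = c * (c * X k - s * Z k) + s * (s * X k + c * Z k) := by
      linear_combination (-(X k)) * D.hcs
    rw [h3]
    exact add_nonneg h1 h2
  have hc := D.hc
  have hs := D.hs
  have hcX : 0 ≤ c * X k := mul_nonneg hc hX
  have hsX : 0 ≤ s * X k := mul_nonneg hs hX
  rcases le_total 0 (Z k) with hZ | hZ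
  · have hcZ : 0 ≤ c * Z k := mul_nonneg hc hZ
    have hsZ : 0 ≤ s * Z k := mul_nonneg hs hZ
    obtain ⟨M, P, hM, hP, hMP, h⟩ := kernel a e₁ e₂ (c * X k) (-(s * Z k)) (s * X k) (c * Z k)
      D.ha D.ha' D.he₂ D.he (mul_nonneg hcX hcZ)
      (mul_nonpos_of_nonpos_of_nonneg (neg_nonpos.mpr hsZ) hsX) (D.h₂ k)
      (by
        have := D.g₁ k
        linarith)
    refine ⟨M, P, hM, hP, hMP, fun x y hx hy => ?_⟩
    obtain ⟨h1, h2⟩ := h x y hx hy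
    rw [abs_of_nonneg h1]
    exact h2
  · have hcZ : c * Z k ≤ 0 := mul_nonpos_of_nonneg_of_nonpos hc hZ
    have hsZ : s * Z k ≤ 0 := mul_nonpos_of_nonneg_of_nonpos hs hZ
    obtain ⟨M, P, hM, hP, hMP, h⟩ := kernel' a e₁ e₂ (c * X k) (-(s * Z k)) (s * X k) (c * Z k)
      D.ha D.ha' D.he₂ D.he (mul_nonpos_of_nonneg_of_nonpos hcX hcZ)
      (mul_nonneg (neg_nonneg.mpr hsZ) hsX)
      (by
        have := D.h₁ k
        linarith)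
      (D.g₂ k)
    refine ⟨M, P, hM, hP, hMP, fun x y hx hy => ?_⟩
    obtain ⟨h1, h2⟩ := h x y hx hy
    rw [abs_of_nonneg h1]
    exact h2

end Pool.Agent.LibSchA
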