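import Pool.Agent.LibSchA.A4a

/-! **A4.**  The data of one block. -/

open Matrix
open scoped ComplexOrder

namespace Pool.Agent.LibSchA

open Pool.Agent.LibSchP

/-- `θ = (t/y)^(q/2)`, `1 - a = 2/q`; if `y = 0` then `κ` is empty. -/
theorem blkD_exists {m n : Type} [Fintype m] [Fintype n] [DecidableEq n] (a q y : ℝ)
    (ha : a < 1) (hq : q = 2 / (1 - a)) (hy : 0 ≤ y) (T : Matrix m n ℂ)
    (hT : LibSch.pw q T ≤ y ^ q) :
    ∃ (κ : Type) (_ : Fintype κ) (_ : DecidableEq κ) (U : Matrix m κ ℂ) (V : Matrix n κ ℂ)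
      (θ : κ → ℝ), BlkD a y T U V θ := by
  obtain ⟨κ, i1, i2, U, V, t, hU, hV, ht, hTt, hpw⟩ := svd_red T
  have h1a : 0 < 1 - a := by linarith
  have hq0 : 0 < q := by rw [hq]; positivity
  have hs : ∑ j, t j ^ q ≤ y ^ q := by rw [← hpw q hq0]; exact hT
  have hypos : ∀ j : κ, 0 < y := by
    intro j
    rcases hy.lt_or_eq with h | h
    · exact h
    · exfalso
      rw [← h, Real.zero_rpow hq0.ne'] at hs
      have h2 : t j ^ q ≤ ∑ j, t j ^ q :=
        Finset.single_le_sum (f := fun j => t j ^ q)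
          (fun i _ => Real.rpow_nonneg (ht i).le q) (Finset.mem_univ j)
      have h3 : 0 < t j ^ q := Real.rpow_pos_of_pos (ht j) q
      linarith
  refine ⟨κ, i1, i2, U, V, fun j => (t j / y) ^ (q / 2), hU, hV, ?_, ?_, ?_⟩
  · intro j
    exact Real.rpow_pos_of_pos (div_pos (ht j) (hypos j)) _
  · have h1 : (fun j => y * ((t j / y) ^ (q / 2)) ^ (1 - a)) = t := by
      funext j
      have hy' := (hypos j).ne'
      rw [← Real.rpow_mul (div_pos (ht j) (hypos j)).le]
      have h2 : q / 2 * (1 - a) = 1 := by rw [hq]; field_simp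
      rw [h2, Real.rpow_one]
      field_simp
    rw [h1]
    exact hTt
  · rcases isEmpty_or_nonempty κ with h | ⟨⟨j0⟩⟩
    · simp
    · have hy0 := hypos j0
      have hyq : 0 < y ^ q := Real.rpow_pos_of_pos hy0 q
      have h1 : ∀ j, ((t j / y) ^ (q / 2)) ^ 2 = t j ^ q / y ^ q := by
        intro j
        rw [← Real.rpow_natCast, ← Real.rpow_mul (div_pos (ht j) hy0).le]
        have h2 : q / 2 * ((2 : ℕ) : ℝ) = q := by push_cast; ring
        rw [h2, Real.div_rpow (ht j).le hy0.le]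
      simp only [h1]
      rw [← Finset.sum_div, div_le_one hyq]
      exact hs

end Pool.Agent.LibSchA
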