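import Pool.Agent.LibSchA.A0

/-! **A4a.**  Reduced singular value decomposition. -/

open Matrix
open scoped ComplexOrder

namespace Pool.Agent.LibSchA

open Pool.Agent.LibSchP

/-- `TᴴT = ud V x`; `κ = {k // x k ≠ 0}`, `t = √x`, `V' = ` the columns of `V` in `κ`,
`U = T V' diag(1/t)`; `T V e_k = 0` if `x k = 0`. `pw` from `pw_ud`. -/
theorem svd_red {m n : Type} [Fintype m] [Fintype n] [DecidableEq n] (T : Matrix m n ℂ) :
    ∃ (κ : Type) (_ : Fintype κ) (_ : DecidableEq κ) (U : Matrix m κ ℂ) (V : Matrix n κ ℂ)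
      (t : κ → ℝ), Uᴴ * U = 1 ∧ Vᴴ * V = 1 ∧ (∀ j, 0 < t j) ∧ T = U * dg t * Vᴴ ∧
        ∀ p : ℝ, 0 < p → LibSch.pw p T = ∑ j, t j ^ p := by
  classical
  obtain ⟨V, hV, x, hx, hT⟩ := ud_exists_nonneg (Tᴴ * T) (posSemidef_conjTranspose_mul_self T)
  set W : Matrix m n ℂ := T * V with hWdef
  have hVV : Vᴴ * V = 1 := a2_uu V hV
  have hVV' : V * Vᴴ = 1 := a2_uu' V hV
  have hW : Wᴴ * W = dg x := by
    rw [hWdef, conjTranspose_mul, Matrix.mul_assoc, ← Matrix.mul_assoc Tᴴ, hT]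
    unfold ud
    rw [Matrix.mul_assoc (V * dg x), hVV, Matrix.mul_one, ← Matrix.mul_assoc, hVV, Matrix.one_mul]
  have hW0 : ∀ k, x k = 0 → ∀ i, W i k = 0 := by
    intro k hk i
    have h1 := congrFun (congrFun hW k) k
    rw [dg_apply, if_pos rfl, hk, Matrix.mul_apply] at h1
    have h2 : ∑ i, ‖W i k‖ ^ 2 = 0 := by
      have h3 : ((∑ i, ‖W i k‖ ^ 2 : ℝ) : ℂ) = 0 := by
        rw [← Complex.ofReal_zero, ← h1]
        push_cast
        refine Finset.sum_congr rfl fun i _ => ?_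
        rw [conjTranspose_apply, Complex.star_def, mul_comm, Complex.mul_conj,
          Complex.normSq_eq_norm_sq]
        push_cast
        rfl
      exact_mod_cast h3
    have h4 := (Finset.sum_eq_zero_iff_of_nonneg (fun i _ => sq_nonneg ‖W i k‖)).1 h2 i
      (Finset.mem_univ i)
    exact norm_eq_zero.1 (pow_eq_zero_iff (two_ne_zero)|>.1 h4)
  have hT2 : T = W * Vᴴ := by
    rw [hWdef, Matrix.mul_assoc, hVV', Matrix.mul_one]
  let κ : Type := {k : n // x k ≠ 0}
  have hpos : ∀ j : κ, 0 < x j.1 := fun j => lt_of_le_of_ne (hx j.1) (Ne.symm j.2)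
  let t : κ → ℝ := fun j => √(x j.1)
  have ht : ∀ j, 0 < t j := fun j => Real.sqrt_pos.2 (hpos j)
  let V' : Matrix n κ ℂ := V.submatrix id Subtype.val
  let W' : Matrix m κ ℂ := W.submatrix id Subtype.val
  have hWW : W'ᴴ * W' = dg fun j : κ => x j.1 := by
    ext j l
    have h1 := congrFun (congrFun hW j.1) l.1
    rw [dg_apply] at h1
    rw [dg_apply, Matrix.mul_apply]
    rw [Matrix.mul_apply] at h1
    have h2 : ∑ i, W'ᴴ j i * W' i l = ∑ i, Wᴴ j.1 i * W i l.1 := rfl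
    rw [h2, h1]
    by_cases hjl : j = l
    · subst hjl; simp
    · rw [if_neg hjl, if_neg (fun h => hjl (Subtype.ext h))]
  have key : ∀ {R : Type} [AddCommMonoid R] (g : n → R), (∀ k, x k = 0 → g k = 0) →
      ∑ j : κ, g j.1 = ∑ k, g k := by
    intro R _ g hg
    have h1 : ∑ k ∈ Finset.univ.filter (fun k => x k ≠ 0), g k = ∑ j : κ, g j.1 :=
      Finset.sum_subtype _ (by simp) g
    have h2 : ∑ k ∈ Finset.univ.filter (fun k => x k ≠ 0), g k = ∑ k, g k := by
      refine Finset.sum_subset (Finset.filter_subset _ _) fun k _ hk => hg k ?_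
      simpa using hk
    exact (h1.symm.trans h2)
  have hdd : (dg fun j => (t j)⁻¹) * dg t = (1 : Matrix κ κ ℂ) := dg_inv_mul t ht
  refine ⟨κ, inferInstance, inferInstance, W' * (dg fun j => (t j)⁻¹), V', t, ?_, ?_, ht, ?_, ?_⟩
  · rw [conjTranspose_mul, dg_conjTranspose, Matrix.mul_assoc, ← Matrix.mul_assoc W'ᴴ, hWW,
      dg_mul, dg_mul, ← a2_dg_one]
    congr 1
    funext j
    have h1 : x j.1 = t j * t j := (Real.mul_self_sqrt (hx j.1)).symm
    have h2 := (ht j).ne'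
    rw [h1]
    field_simp
  · ext j l
    have h1 := congrFun (congrFun hVV j.1) l.1
    rw [Matrix.mul_apply, Matrix.one_apply] at h1
    rw [Matrix.mul_apply, Matrix.one_apply]
    have h2 : ∑ i, V'ᴴ j i * V' i l = ∑ i, Vᴴ j.1 i * V i l.1 := rfl
    rw [h2, h1]
    by_cases hjl : j = l
    · subst hjl; simp
    · rw [if_neg hjl, if_neg (fun h => hjl (Subtype.ext h))]
  · rw [Matrix.mul_assoc W', hdd, Matrix.mul_one, hT2]
    ext i k
    rw [Matrix.mul_apply, Matrix.mul_apply]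
    exact (key (fun j => W i j * Vᴴ j k) fun j hj => by rw [hW0 j hj, zero_mul]).symm
  · intro p hp
    rw [pw_ud p T V hV x hT, ← key (fun k => x k ^ (p / 2)) fun k hk => by
      rw [hk, Real.zero_rpow (by positivity)]]
    refine Finset.sum_congr rfl fun j _ => ?_
    have h1 : t j = x j.1 ^ ((1 : ℝ) / 2) := Real.sqrt_eq_rpow _
    rw [h1, ← Real.rpow_mul (hx j.1)]
    congr 1
    ring

end Pool.Agent.LibSchA
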