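import Pool.Agent.LibSchA.A0

/-! **A5.**  The resolvent inequality. -/

open Matrix
open scoped ComplexOrder

namespace Pool.Agent.LibSchA

open Pool.Agent.LibSchP

/-- `|τ|² μ/(r+μ) ≤ |τ - γ|² + r⁻¹ μ |γ|²` -/
theorem res_scalar (τ γ : ℂ) (μ r : ℝ) (hμ : 0 ≤ μ) (hr : 0 < r) :
    ‖τ‖ ^ 2 * (μ / (r + μ)) ≤ ‖τ - γ‖ ^ 2 + r⁻¹ * (μ * ‖γ‖ ^ 2) := by
  have h1 : ‖τ‖ ≤ ‖τ - γ‖ + ‖γ‖ := by
    calc ‖τ‖ = ‖(τ - γ) + γ‖ := by rw [sub_add_cancel]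
      _ ≤ _ := norm_add_le _ _
  have h0 : 0 < r + μ := by linarith
  have h2 : ‖τ‖ ^ 2 ≤ (‖τ - γ‖ + ‖γ‖) ^ 2 := by
    have := norm_nonneg τ
    gcongr
  have h3 : ‖τ‖ ^ 2 * (μ / (r + μ)) ≤ (‖τ - γ‖ + ‖γ‖) ^ 2 * (μ / (r + μ)) := by
    have : 0 ≤ μ / (r + μ) := div_nonneg hμ h0.le
    gcongr
  refine h3.trans ?_
  set u := ‖τ - γ‖
  set v := ‖γ‖
  have h4 : u ^ 2 + r⁻¹ * (μ * v ^ 2) - (u + v) ^ 2 * (μ / (r + μ))
      = (r * u - μ * v) ^ 2 / (r * (r + μ)) := by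
    field_simp
    ring
  have h5 : 0 ≤ (r * u - μ * v) ^ 2 / (r * (r + μ)) := by positivity
  linarith

/-- With `τ = Wᴴ T`, `γ = Wᴴ G`: `∑_l |τ_kl|² = x_k`, `fr (T - G) = fr (τ - γ)` and
`(trace (Gᴴ * ud W μ * G)).re = ∑_k μ_k ∑_l |γ_kl|²`. -/
theorem resolvent_le {m n : Type} [Fintype m] [DecidableEq m] [Fintype n] (W : Matrix m m ℂ)
    (hW : W ∈ unitaryGroup m ℂ) (x μ : m → ℝ) (hμ : ∀ k, 0 ≤ μ k) (T G : Matrix m n ℂ)
    (hT : T * Tᴴ = ud W x) (r : ℝ) (hr : 0 < r) :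
    ∑ k, x k * (μ k / (r + μ k)) ≤ fr (T - G) + r⁻¹ * (trace (Gᴴ * ud W μ * G)).re := by
  have hW' : Wᴴ * W = 1 := by
    have := mem_unitaryGroup_iff'.mp hW
    rwa [star_eq_conjTranspose] at this
  have hWc : Wᴴ ∈ unitaryGroup m ℂ := by
    have := Unitary.star_mem hW
    rwa [star_eq_conjTranspose] at this
  set τ := Wᴴ * T with hτ
  set γ := Wᴴ * G with hγ
  have e1 : τ * τᴴ = dg x := by
    rw [hτ, conjTranspose_mul, conjTranspose_conjTranspose, Matrix.mul_assoc,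
      ← Matrix.mul_assoc T, hT]
    unfold ud
    rw [Matrix.mul_assoc, Matrix.mul_assoc, hW', Matrix.mul_one, ← Matrix.mul_assoc, hW',
      Matrix.one_mul]
  have e2 : ∀ k, x k = ∑ l, ‖τ k l‖ ^ 2 := by
    intro k
    have h := congrFun (congrFun e1 k) k
    have h1 : ((x k : ℝ) : ℂ) = (τ * τᴴ) k k := by
      rw [h]
      simp [dg]
    have h2 : (τ * τᴴ) k k = ((∑ l, ‖τ k l‖ ^ 2 : ℝ) : ℂ) := by
      rw [mul_apply]
      push_cast
      refine Finset.sum_congr rfl fun l _ => ?_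
      rw [conjTranspose_apply, Complex.star_def, Complex.mul_conj, Complex.normSq_eq_norm_sq]
      push_cast
      rfl
    exact_mod_cast h1.trans h2
  have e3 : fr (T - G) = ∑ k, ∑ l, ‖τ k l - γ k l‖ ^ 2 := by
    have h1 : fr (T - G) = fr (τ - γ) := by
      rw [← nf_sq, ← nf_sq, hτ, hγ, ← Matrix.mul_sub, nf_unitary_mul _ hWc]
    rw [h1]
    rfl
  have e4 : (trace (Gᴴ * ud W μ * G)).re = ∑ k, ∑ l, μ k * ‖γ k l‖ ^ 2 := by
    have h1 : Gᴴ * ud W μ * G = γᴴ * (dg μ * γ) := by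
      rw [hγ, conjTranspose_mul, conjTranspose_conjTranspose]
      unfold ud
      simp only [Matrix.mul_assoc]
    rw [h1, a1_trace, Complex.re_sum]
    refine Finset.sum_congr rfl fun k _ => ?_
    rw [Complex.re_sum]
    refine Finset.sum_congr rfl fun l _ => ?_
    have h2 : (dg μ * γ) k l = (μ k : ℂ) * γ k l := by
      unfold dg
      rw [diagonal_mul]
    rw [h2, Complex.star_def]
    have h3 : (starRingEnd ℂ) (γ k l) * ((μ k : ℂ) * γ k l) = ((μ k * ‖γ k l‖ ^ 2 : ℝ) : ℂ) := by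
      have h4 : (starRingEnd ℂ) (γ k l) * ((μ k : ℂ) * γ k l)
          = (μ k : ℂ) * ((starRingEnd ℂ) (γ k l) * γ k l) := by ring
      rw [h4, ← Complex.normSq_eq_conj_mul_self, Complex.normSq_eq_norm_sq]
      push_cast
      rfl
    rw [h3, Complex.ofReal_re]
  rw [e3, e4, Finset.mul_sum, ← Finset.sum_add_distrib]
  refine Finset.sum_le_sum fun k _ => ?_
  rw [e2 k, Finset.sum_mul, Finset.mul_sum, ← Finset.sum_add_distrib]
  exact Finset.sum_le_sum fun l _ => res_scalar _ _ _ _ (hμ k) hr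

end Pool.Agent.LibSchA
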