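import Pool.Agent.LibSchA.A0

/-! **A6b.**  Expansions in singular vectors. -/

open Matrix
open scoped ComplexOrder

namespace Pool.Agent.LibSchA

open Pool.Agent.LibSchP

section usv

variable {m m' n κ κ' : Type} [Fintype m] [Fintype m'] [Fintype n] [Fintype κ] [Fintype κ']
  [DecidableEq κ] [DecidableEq κ']

theorem A6b_cross (U : Matrix m κ ℂ) (V : Matrix n κ ℂ) (U' : Matrix m' κ' ℂ)
    (V' : Matrix n κ' ℂ) (g : κ → ℝ) (g' : κ' → ℝ) (E : Matrix m m' ℂ) :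
    trace ((U * dg g * Vᴴ)ᴴ * E * (U' * dg g' * V'ᴴ)) =
      trace (dg g * (Uᴴ * E * U') * (dg g' * (V'ᴴ * V))) := by
  have h1 : (U * dg g * Vᴴ)ᴴ * E * (U' * dg g' * V'ᴴ) =
      V * (dg g * (Uᴴ * E * U') * (dg g' * V'ᴴ)) := by
    rw [conjTranspose_mul, conjTranspose_mul, conjTranspose_conjTranspose, dg_conjTranspose]
    simp only [Matrix.mul_assoc]
  rw [h1, trace_mul_comm]
  simp only [Matrix.mul_assoc]

/-- `fr X = (trace (Xᴴ X)).re` (`fr_eq_trace`) and cyclicity -/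
theorem fr_usv (U : Matrix m κ ℂ) (V : Matrix n κ ℂ) (hU : Uᴴ * U = 1) (hV : Vᴴ * V = 1)
    (t : κ → ℝ) : fr (U * dg t * Vᴴ) = ∑ j, t j ^ 2 := by
  classical
  have h := A6b_cross U V U V t t (1 : Matrix m m ℂ)
  rw [Matrix.mul_one, Matrix.mul_one, hU, hV, Matrix.mul_one, dg_mul] at h
  rw [fr_eq_trace, h]
  simp only [trace, diag_apply, dg_apply, if_true, Complex.re_sum, Complex.ofReal_re]
  exact Finset.sum_congr rfl fun j _ => (sq (t j)).symm

theorem trace_usv_diag (U : Matrix m κ ℂ) (V : Matrix n κ ℂ) (hV : Vᴴ * V = 1) (g : κ → ℝ)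
    (E : Matrix m m ℂ) : (trace ((U * dg g * Vᴴ)ᴴ * E * (U * dg g * Vᴴ))).re =
      ∑ j, g j ^ 2 * ((Uᴴ * E * U) j j).re := by
  rw [A6b_cross, hV, Matrix.mul_one]
  simp only [trace, diag_apply, dg, mul_diagonal, diagonal_mul, Complex.re_sum]
  refine Finset.sum_congr rfl fun j _ => ?_
  rw [Complex.re_mul_ofReal, Complex.re_ofReal_mul]
  ring

theorem trace_usv_cross (U : Matrix m κ ℂ) (V : Matrix n κ ℂ) (U' : Matrix m' κ' ℂ)
    (V' : Matrix n κ' ℂ) (g : κ → ℝ) (g' : κ' → ℝ) (E : Matrix m m' ℂ) :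
    (trace ((U * dg g * Vᴴ)ᴴ * E * (U' * dg g' * V'ᴴ))).re =
      ∑ j, ∑ l, g j * g' l * ((Uᴴ * E * U') j l * (V'ᴴ * V) l j).re := by
  rw [A6b_cross]
  simp only [trace, diag_apply, dg]
  rw [Complex.re_sum]
  refine Finset.sum_congr rfl fun j _ => ?_
  rw [mul_apply, Complex.re_sum]
  refine Finset.sum_congr rfl fun l _ => ?_
  rw [diagonal_mul, diagonal_mul]
  rw [← Complex.re_ofReal_mul]
  congr 1
  push_cast
  ring

end usv

end Pool.Agent.LibSchA
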