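import Pool.Agent.LibSchA.A0

/-! **A6a.**  Expansions in blocks. -/

open Matrix
open scoped ComplexOrder

namespace Pool.Agent.LibSchA

open Pool.Agent.LibSchP

section blocks

variable {N : ℕ} {m₁ m₂ : Type} {n : Fin N → Type} [Fintype m₁] [Fintype m₂]
  [∀ k, Fintype (n k)]

/-- one row of blocks -/
def A6a_row {m : Type} (A : ∀ k, Matrix m (n k) ℂ) : Matrix m (Σ k, n k) ℂ :=
  Matrix.of fun i c => A c.1 i c.2

omit [Fintype m₁] [Fintype m₂] [∀ k, Fintype (n k)] in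
theorem A6a_blk_eq (A : ∀ k, Matrix m₁ (n k) ℂ) (B : ∀ k, Matrix m₂ (n k) ℂ) :
    LibSch.blk A B = Matrix.fromRows (A6a_row A) (A6a_row B) := by
  ext i c
  rcases i with i | i <;> rfl

theorem A6a_trace_row {m m' : Type} [Fintype m] [Fintype m'] (A : ∀ k, Matrix m (n k) ℂ)
    (M : Matrix m m' ℂ) (B : ∀ k, Matrix m' (n k) ℂ) :
    trace ((A6a_row A)ᴴ * M * A6a_row B) = ∑ k, trace ((A k)ᴴ * M * B k) := by
  simp only [Matrix.trace, Matrix.diag_apply]
  rw [Fintype.sum_sigma]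
  refine Finset.sum_congr rfl fun k _ => Finset.sum_congr rfl fun c _ => ?_
  simp only [Matrix.mul_apply, Matrix.conjTranspose_apply, A6a_row, Matrix.of_apply]

/-- `Fintype.sum_sum_type`, `Fintype.sum_sigma` -/
theorem fr_blk (A A' : ∀ k, Matrix m₁ (n k) ℂ) (B B' : ∀ k, Matrix m₂ (n k) ℂ) :
    fr (LibSch.blk A B - LibSch.blk A' B') = ∑ k, (fr (A k - A' k) + fr (B k - B' k)) := by
  unfold fr
  rw [Fintype.sum_sum_type]
  simp only [Fintype.sum_sigma, Finset.sum_add_distrib]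
  rw [Finset.sum_comm (s := Finset.univ (α := m₁)), Finset.sum_comm (s := Finset.univ (α := m₂))]
  rfl

/-- the lower left block gives the conjugate of the upper right block -/
theorem trace_blk (A : ∀ k, Matrix m₁ (n k) ℂ) (B : ∀ k, Matrix m₂ (n k) ℂ)
    (E : Matrix (m₁ ⊕ m₂) (m₁ ⊕ m₂) ℂ) (hE : E.IsHermitian) :
    (trace ((LibSch.blk A B)ᴴ * E * LibSch.blk A B)).re =
      ∑ k, ((trace ((A k)ᴴ * E.toBlocks₁₁ * A k)).re + (trace ((B k)ᴴ * E.toBlocks₂₂ * B k)).re +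
        2 * (trace ((A k)ᴴ * E.toBlocks₁₂ * B k)).re) := by
  have hE21 : E.toBlocks₂₁ = (E.toBlocks₁₂)ᴴ := by
    ext i j
    have h := hE.apply (Sum.inr i) (Sum.inl j)
    simpa [Matrix.toBlocks₂₁, Matrix.toBlocks₁₂] using h.symm
  have h1 : (LibSch.blk A B)ᴴ * E * LibSch.blk A B =
      (A6a_row A)ᴴ * E.toBlocks₁₁ * A6a_row A + (A6a_row B)ᴴ * E.toBlocks₂₁ * A6a_row A +
        ((A6a_row A)ᴴ * E.toBlocks₁₂ * A6a_row B + (A6a_row B)ᴴ * E.toBlocks₂₂ * A6a_row B) := by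
    rw [A6a_blk_eq, Matrix.conjTranspose_fromRows_eq_fromCols_conjTranspose]
    conv_lhs => rw [← Matrix.fromBlocks_toBlocks E]
    rw [Matrix.fromCols_mul_fromBlocks, Matrix.fromCols_mul_fromRows, Matrix.add_mul,
      Matrix.add_mul]
  have h2 : ∀ k, trace ((B k)ᴴ * E.toBlocks₂₁ * A k) =
      star (trace ((A k)ᴴ * E.toBlocks₁₂ * B k)) := by
    intro k
    rw [← Matrix.trace_conjTranspose, Matrix.conjTranspose_mul, Matrix.conjTranspose_mul,
      Matrix.conjTranspose_conjTranspose, hE21, Matrix.mul_assoc]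
  rw [h1, Matrix.trace_add, Matrix.trace_add, Matrix.trace_add, A6a_trace_row, A6a_trace_row,
    A6a_trace_row, A6a_trace_row]
  simp only [Complex.add_re, Complex.re_sum]
  rw [← Finset.sum_add_distrib, ← Finset.sum_add_distrib, ← Finset.sum_add_distrib]
  refine Finset.sum_congr rfl fun k _ => ?_
  have h3 : (trace ((B k)ᴴ * E.toBlocks₂₁ * A k)).re =
      (trace ((A k)ᴴ * E.toBlocks₁₂ * B k)).re := by
    rw [h2 k]
    exact Complex.conj_re _
  rw [h3]
  ring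

/-- `fr E = ∑ blocks` -/
theorem fr_toBlocks (E : Matrix (m₁ ⊕ m₂) (m₁ ⊕ m₂) ℂ) (hE : E.IsHermitian) :
    fr E = fr E.toBlocks₁₁ + fr E.toBlocks₂₂ + 2 * fr E.toBlocks₁₂ := by
  have h21 : fr E.toBlocks₂₁ = fr E.toBlocks₁₂ := by
    unfold fr
    rw [Finset.sum_comm]
    refine Finset.sum_congr rfl fun i _ => Finset.sum_congr rfl fun j _ => ?_
    have h := hE.apply (Sum.inr j) (Sum.inl i)
    have h' : E (Sum.inr j) (Sum.inl i) = star (E (Sum.inl i) (Sum.inr j)) := h.symm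
    change ‖E (Sum.inr j) (Sum.inl i)‖ ^ 2 = ‖E (Sum.inl i) (Sum.inr j)‖ ^ 2
    rw [h', norm_star]
  have h0 : fr E = (fr E.toBlocks₁₁ + fr E.toBlocks₁₂) + (fr E.toBlocks₂₁ + fr E.toBlocks₂₂) := by
    unfold fr
    rw [Fintype.sum_sum_type]
    simp only [Fintype.sum_sum_type, Finset.sum_add_distrib]
    rfl
  rw [h0, h21]
  ring

end blocks

/-- `Fintype.sum_sum_type`, `Fintype.sum_sigma` -/
theorem trace_blk' {N : ℕ} {m₁ m₂ : Type} {n : Fin N → Type} [Fintype m₁] [Fintype m₂]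
    [∀ k, Fintype (n k)] (A A' : ∀ k, Matrix m₁ (n k) ℂ) (B B' : ∀ k, Matrix m₂ (n k) ℂ) :
    (trace ((LibSch.blk A B)ᴴ * LibSch.blk A' B')).re =
      ∑ k, ((trace ((A k)ᴴ * A' k)).re + (trace ((B k)ᴴ * B' k)).re) := by
  rw [A6a_blk_eq, A6a_blk_eq, Matrix.conjTranspose_fromRows_eq_fromCols_conjTranspose,
    Matrix.fromCols_mul_fromRows, Matrix.trace_add]
  have h : ∀ {m : Type} [Fintype m] (A A' : ∀ k, Matrix m (n k) ℂ),
      trace ((A6a_row A)ᴴ * A6a_row A') = ∑ k, trace ((A k)ᴴ * A' k) := by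
    intro m _ A A'
    simp only [Matrix.trace, Matrix.diag_apply]
    rw [Fintype.sum_sigma]
    refine Finset.sum_congr rfl fun k _ => Finset.sum_congr rfl fun c _ => ?_
    simp only [Matrix.mul_apply, Matrix.conjTranspose_apply, A6a_row, Matrix.of_apply]
  rw [h, h, Complex.add_re, Complex.re_sum, Complex.re_sum, ← Finset.sum_add_distrib]

end Pool.Agent.LibSchA
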