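import Pool.Agent.LibSchA.A0

/-! **A7a.**  Hilbert-Schmidt bounds. -/

open Matrix
open scoped ComplexOrder

namespace Pool.Agent.LibSchA

open Pool.Agent.LibSchP

variable {m m' n κ κ' : Type} [Fintype m] [Fintype m'] [Fintype n] [Fintype κ] [Fintype κ']
  [DecidableEq κ] [DecidableEq κ']

/-- an isometry: `∑_l |(UᴴX)_jl|² ≤ ...`;  e.g. `0 ≤ fr (X - U Uᴴ X) = fr X - fr (Uᴴ X)` -/
theorem nf_isom_le (U : Matrix m κ ℂ) (hU : Uᴴ * U = 1) (X : Matrix m n ℂ) :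
    nf (Uᴴ * X) ≤ nf X := by
  have h1 : fr (X - U * (Uᴴ * X)) = fr X - fr (Uᴴ * X) := by
    rw [fr_eq_trace, fr_eq_trace, fr_eq_trace, ← Complex.sub_re]
    congr 1
    have e1 : (X - U * (Uᴴ * X))ᴴ * (X - U * (Uᴴ * X)) = Xᴴ * X - (Uᴴ * X)ᴴ * (Uᴴ * X) := by
      rw [conjTranspose_sub, Matrix.sub_mul, Matrix.mul_sub, Matrix.mul_sub]
      have e2 : (U * (Uᴴ * X))ᴴ = (Uᴴ * X)ᴴ * Uᴴ := conjTranspose_mul _ _
      rw [e2]
      have e3 : (Uᴴ * X)ᴴ * Uᴴ * X = (Uᴴ * X)ᴴ * (Uᴴ * X) := Matrix.mul_assoc _ _ _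
      have e4 : (Uᴴ * X)ᴴ * Uᴴ * (U * (Uᴴ * X)) = (Uᴴ * X)ᴴ * (Uᴴ * X) := by
        rw [Matrix.mul_assoc, ← Matrix.mul_assoc Uᴴ U, hU, Matrix.one_mul]
      have e5 : Xᴴ * (U * (Uᴴ * X)) = (Uᴴ * X)ᴴ * (Uᴴ * X) := by
        rw [conjTranspose_mul, conjTranspose_conjTranspose, ← Matrix.mul_assoc]
      rw [e3, e4, e5]
      simp
    rw [e1, trace_sub]
  have h2 := fr_nonneg (X - U * (Uᴴ * X))
  unfold nf
  exact Real.sqrt_le_sqrt (by linarith)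

/-- twice `nf_isom_le` (`nf_conjTranspose`) -/
theorem nf_compress (U : Matrix m κ ℂ) (U' : Matrix m' κ' ℂ) (hU : Uᴴ * U = 1)
    (hU' : U'ᴴ * U' = 1) (E : Matrix m m' ℂ) : nf (Uᴴ * E * U') ≤ nf E := by
  have h1 : nf (Uᴴ * E * U') = nf (U'ᴴ * (Uᴴ * E)ᴴ) := by
    rw [← nf_conjTranspose, conjTranspose_mul]
  rw [h1]
  refine (nf_isom_le U' hU' _).trans ?_
  rw [nf_conjTranspose]
  exact nf_isom_le U hU E

/-- Cauchy-Schwarz (`re_trace_le` with `dg θ`, or `Real.sum_mul_le_sqrt_mul_sqrt`), `nf_compress` -/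
theorem diag_bound (U : Matrix m κ ℂ) (hU : Uᴴ * U = 1) (θ : κ → ℝ) (hs : ∑ j, θ j ^ 2 ≤ 1)
    (E : Matrix m m ℂ) : ∑ j, θ j * ((Uᴴ * E * U) j j).re ≤ nf E := by
  refine (Real.sum_mul_le_sqrt_mul_sqrt _ _ _).trans ?_
  have h1 : √(∑ j, θ j ^ 2) ≤ 1 := Real.sqrt_le_one.mpr hs
  have h2 : √(∑ j, ((Uᴴ * E * U) j j).re ^ 2) ≤ nf (Uᴴ * E * U) := by
    unfold nf
    refine Real.sqrt_le_sqrt ?_
    unfold fr
    refine Finset.sum_le_sum fun j _ => ?_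
    calc ((Uᴴ * E * U) j j).re ^ 2 ≤ ‖(Uᴴ * E * U) j j‖ ^ 2 := by
          rw [← sq_abs]
          exact pow_le_pow_left₀ (abs_nonneg _) (Complex.abs_re_le_norm _) 2
      _ ≤ _ := Finset.single_le_sum (f := fun l => ‖(Uᴴ * E * U) j l‖ ^ 2)
          (fun l _ => by positivity) (Finset.mem_univ j)
  calc √(∑ j, θ j ^ 2) * √(∑ j, ((Uᴴ * E * U) j j).re ^ 2) ≤ 1 * nf (Uᴴ * E * U) :=
        mul_le_mul h1 h2 (Real.sqrt_nonneg _) zero_le_one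
    _ = nf (Uᴴ * E * U) := one_mul _
    _ ≤ nf E := nf_compress U U hU hU E

/-- Bessel: the rows and columns of `V'ᴴV` have norm at most `1` -/
theorem row_le_one (V : Matrix n κ ℂ) (V' : Matrix n κ' ℂ) (hV : Vᴴ * V = 1)
    (hV' : V'ᴴ * V' = 1) (j : κ) : ∑ l, ‖(V'ᴴ * V) l j‖ ^ 2 ≤ 1 := by
  obtain ⟨X, hX⟩ : ∃ X : Matrix n Unit ℂ, X = fun i _ => V i j := ⟨_, rfl⟩
  have h1 := nf_isom_le V' hV' X
  have h2 : nf (V'ᴴ * X) ^ 2 ≤ nf X ^ 2 := pow_le_pow_left₀ (nf_nonneg _) h1 2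
  rw [nf_sq, nf_sq] at h2
  have h3 : fr (V'ᴴ * X) = ∑ l, ‖(V'ᴴ * V) l j‖ ^ 2 := by
    unfold fr
    refine Finset.sum_congr rfl fun l _ => ?_
    rw [Fintype.sum_unique]
    rw [hX]
    rfl
  have h4 : fr X = 1 := by
    have h5 : ((Vᴴ * V) j j).re = 1 := by rw [hV]; simp
    rw [← h5, mul_apply, Complex.re_sum]
    unfold fr
    refine Finset.sum_congr rfl fun i _ => ?_
    rw [Fintype.sum_unique, hX, conjTranspose_apply]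
    have : star (V i j) * V i j = ((‖V i j‖ ^ 2 : ℝ) : ℂ) := by
      rw [Complex.star_def, Complex.conj_mul']
      push_cast
      rfl
    rw [this, Complex.ofReal_re]
  rw [h3, h4] at h2
  exact h2

end Pool.Agent.LibSchA
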