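import Pool.Agent.LibSchA.A7a

/-! **A7b.**  Hilbert-Schmidt bounds. -/

open Matrix
open scoped ComplexOrder

namespace Pool.Agent.LibSchA

open Pool.Agent.LibSchP

variable {m m' n κ κ' : Type} [Fintype m] [Fintype m'] [Fintype n] [Fintype κ] [Fintype κ']
  [DecidableEq κ] [DecidableEq κ']

theorem a7b_col_le_one (V : Matrix n κ ℂ) (V' : Matrix n κ' ℂ) (hV : Vᴴ * V = 1)
    (hV' : V'ᴴ * V' = 1) (l : κ') : ∑ j, ‖(V'ᴴ * V) l j‖ ^ 2 ≤ 1 := by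
  refine le_trans (le_of_eq ?_) (row_le_one V' V hV' hV l)
  refine Finset.sum_congr rfl fun j _ => ?_
  have h : (Vᴴ * V') j l = star ((V'ᴴ * V) l j) := by
    rw [← conjTranspose_apply, conjTranspose_mul, conjTranspose_conjTranspose]
  rw [h, norm_star]

/-- `√(∑_jl F_jl² |W_lj|²) ≤ M √(∑ θ_j² |W_lj|²) + P √(∑ θ'_l² |W_lj|²) ≤ M + P`
(Minkowski, or expand the square and use Cauchy-Schwarz). -/
theorem kernel_nf (V : Matrix n κ ℂ) (V' : Matrix n κ' ℂ) (hV : Vᴴ * V = 1)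
    (hV' : V'ᴴ * V' = 1) (θ : κ → ℝ) (θ' : κ' → ℝ) (hθ : ∀ j, 0 ≤ θ j) (hθ' : ∀ l, 0 ≤ θ' l)
    (hs : ∑ j, θ j ^ 2 ≤ 1) (hs' : ∑ j, θ' j ^ 2 ≤ 1) (M P : ℝ) (hM : 0 ≤ M) (hP : 0 ≤ P) :
    ∑ j, ∑ l, (M * θ j + P * θ' l) ^ 2 * ‖(V'ᴴ * V) l j‖ ^ 2 ≤ (M + P) ^ 2 := by
  obtain ⟨W, hW⟩ : ∃ W : κ' → κ → ℝ, W = fun l j => ‖(V'ᴴ * V) l j‖ ^ 2 := ⟨_, rfl⟩
  have hW0 : ∀ l j, 0 ≤ W l j := fun l j => by rw [hW]; positivity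
  have hr : ∀ j, ∑ l, W l j ≤ 1 := fun j => by rw [hW]; exact row_le_one V V' hV hV' j
  have hc : ∀ l, ∑ j, W l j ≤ 1 := fun l => by rw [hW]; exact a7b_col_le_one V V' hV hV' l
  have h1 : ∑ j, ∑ l, θ j ^ 2 * W l j ≤ 1 := by
    calc ∑ j, ∑ l, θ j ^ 2 * W l j = ∑ j, θ j ^ 2 * ∑ l, W l j :=
          Finset.sum_congr rfl fun j _ => (Finset.mul_sum _ _ _).symm
      _ ≤ ∑ j, θ j ^ 2 * 1 := Finset.sum_le_sum fun j _ =>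
          mul_le_mul_of_nonneg_left (hr j) (sq_nonneg _)
      _ = ∑ j, θ j ^ 2 := by simp
      _ ≤ 1 := hs
  have h2 : ∑ j, ∑ l, θ' l ^ 2 * W l j ≤ 1 := by
    rw [Finset.sum_comm]
    calc ∑ l, ∑ j, θ' l ^ 2 * W l j = ∑ l, θ' l ^ 2 * ∑ j, W l j :=
          Finset.sum_congr rfl fun j _ => (Finset.mul_sum _ _ _).symm
      _ ≤ ∑ l, θ' l ^ 2 * 1 := Finset.sum_le_sum fun l _ =>
          mul_le_mul_of_nonneg_left (hc l) (sq_nonneg _)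
      _ = ∑ l, θ' l ^ 2 := by simp
      _ ≤ 1 := hs'
  have h3 : ∀ j l, (M * θ j + P * θ' l) ^ 2 * ‖(V'ᴴ * V) l j‖ ^ 2 ≤
      (M ^ 2 + M * P) * (θ j ^ 2 * W l j) + (P ^ 2 + M * P) * (θ' l ^ 2 * W l j) := by
    intro j l
    have e : ‖(V'ᴴ * V) l j‖ ^ 2 = W l j := by rw [hW]
    rw [e]
    have h4 : 0 ≤ M * P * (θ j - θ' l) ^ 2 * W l j :=
      mul_nonneg (mul_nonneg (mul_nonneg hM hP) (sq_nonneg _)) (hW0 l j)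
    nlinarith [h4]
  calc ∑ j, ∑ l, (M * θ j + P * θ' l) ^ 2 * ‖(V'ᴴ * V) l j‖ ^ 2
      ≤ ∑ j, ∑ l, ((M ^ 2 + M * P) * (θ j ^ 2 * W l j) + (P ^ 2 + M * P) * (θ' l ^ 2 * W l j)) :=
        Finset.sum_le_sum fun j _ => Finset.sum_le_sum fun l _ => h3 j l
    _ = (M ^ 2 + M * P) * ∑ j, ∑ l, θ j ^ 2 * W l j +
        (P ^ 2 + M * P) * ∑ j, ∑ l, θ' l ^ 2 * W l j := by
        simp only [Finset.sum_add_distrib, Finset.mul_sum]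
    _ ≤ (M ^ 2 + M * P) * 1 + (P ^ 2 + M * P) * 1 :=
        add_le_add (mul_le_mul_of_nonneg_left h1 (by positivity))
          (mul_le_mul_of_nonneg_left h2 (by positivity))
    _ = (M + P) ^ 2 := by ring

/-- Cauchy-Schwarz, `nf_compress`, `kernel_nf` -/
theorem cross_bound (U : Matrix m κ ℂ) (V : Matrix n κ ℂ) (U' : Matrix m' κ' ℂ)
    (V' : Matrix n κ' ℂ) (hU : Uᴴ * U = 1) (hV : Vᴴ * V = 1) (hU' : U'ᴴ * U' = 1)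
    (hV' : V'ᴴ * V' = 1) (θ : κ → ℝ) (θ' : κ' → ℝ) (hθ : ∀ j, 0 < θ j) (hθ' : ∀ l, 0 < θ' l)
    (hs : ∑ j, θ j ^ 2 ≤ 1) (hs' : ∑ j, θ' j ^ 2 ≤ 1) (F : ℝ → ℝ → ℝ) (M P : ℝ) (hM : 0 ≤ M)
    (hP : 0 ≤ P) (hF : ∀ x y, 0 < x → 0 < y → |F x y| ≤ M * x + P * y) (E : Matrix m m' ℂ) :
    ∑ j, ∑ l, F (θ j) (θ' l) * ((Uᴴ * E * U') j l * (V'ᴴ * V) l j).re ≤ (M + P) * nf E := by
  have h1 : ∑ j, ∑ l, F (θ j) (θ' l) * ((Uᴴ * E * U') j l * (V'ᴴ * V) l j).re ≤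
      ∑ p : κ × κ', ((M * θ p.1 + P * θ' p.2) * ‖(V'ᴴ * V) p.2 p.1‖) * ‖(Uᴴ * E * U') p.1 p.2‖ := by
    rw [Fintype.sum_prod_type]
    refine Finset.sum_le_sum fun j _ => Finset.sum_le_sum fun l _ => ?_
    refine (le_abs_self _).trans ?_
    rw [abs_mul]
    have h2 : |((Uᴴ * E * U') j l * (V'ᴴ * V) l j).re| ≤ ‖(V'ᴴ * V) l j‖ * ‖(Uᴴ * E * U') j l‖ := by
      refine (Complex.abs_re_le_norm _).trans (le_of_eq ?_)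
      rw [norm_mul, mul_comm]
    have h3 : 0 ≤ M * θ j + P * θ' l :=
      add_nonneg (mul_nonneg hM (hθ j).le) (mul_nonneg hP (hθ' l).le)
    calc |F (θ j) (θ' l)| * |((Uᴴ * E * U') j l * (V'ᴴ * V) l j).re|
        ≤ (M * θ j + P * θ' l) * (‖(V'ᴴ * V) l j‖ * ‖(Uᴴ * E * U') j l‖) :=
          mul_le_mul (hF _ _ (hθ j) (hθ' l)) h2 (abs_nonneg _) h3
      _ = _ := by ring
  refine h1.trans ((Real.sum_mul_le_sqrt_mul_sqrt _ _ _).trans ?_)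
  have h4 : ∑ p : κ × κ', ((M * θ p.1 + P * θ' p.2) * ‖(V'ᴴ * V) p.2 p.1‖) ^ 2 ≤ (M + P) ^ 2 := by
    rw [Fintype.sum_prod_type]
    refine le_trans (le_of_eq ?_) (kernel_nf V V' hV hV' θ θ' (fun j => (hθ j).le)
      (fun l => (hθ' l).le) hs hs' M P hM hP)
    refine Finset.sum_congr rfl fun j _ => Finset.sum_congr rfl fun l _ => ?_
    exact mul_pow _ _ 2
  have h5 : √(∑ p : κ × κ', ((M * θ p.1 + P * θ' p.2) * ‖(V'ᴴ * V) p.2 p.1‖) ^ 2) ≤ M + P := by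
    refine (Real.sqrt_le_sqrt h4).trans (le_of_eq ?_)
    exact Real.sqrt_sq (add_nonneg hM hP)
  have h6 : √(∑ p : κ × κ', ‖(Uᴴ * E * U') p.1 p.2‖ ^ 2) = nf (Uᴴ * E * U') := by
    unfold nf fr
    rw [Fintype.sum_prod_type]
  rw [h6]
  exact mul_le_mul h5 (nf_compress U U' hU hU' E) (nf_nonneg _) (add_nonneg hM hP)

end Pool.Agent.LibSchA
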