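import Pool.Agent.LibSchA.A2
import Pool.Agent.LibSchA.A3
import Pool.Agent.LibSchA.A5
import Pool.Agent.LibSchA.A6
import Pool.Agent.LibSchA.A7

/-! **A8.**  The operator inequality for one column, and its sum. -/

open MeasureTheory Set Matrix
open scoped ComplexOrder

namespace Pool.Agent.LibSchA

open Pool.Agent.LibSchP

section column

variable {m₁ m₂ n κ κ' : Type} [Fintype m₁] [Fintype m₂] [Fintype n] [Fintype κ] [Fintype κ']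
  [DecidableEq κ] [DecidableEq κ']

/-- the trial for the block in the upper row (`g = gam`) -/
noncomputable def tri {m : Type} [Fintype m] (a e₁ e₂ p₁ p₂ : ℝ) (U : Matrix m κ ℂ)
    (V : Matrix n κ ℂ) (θ : κ → ℝ) (r : ℝ) : Matrix m n ℂ :=
  U * (dg fun j => gam a e₁ e₂ p₁ p₂ (θ j) r) * Vᴴ

/-- the contribution of one column to the right-hand side of the resolvent inequality -/
noncomputable def colF (a e₁ e₂ p₁ p₂ q₁ q₂ : ℝ) (A : Matrix m₁ n ℂ) (B : Matrix m₂ n ℂ)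
    (U : Matrix m₁ κ ℂ) (V : Matrix n κ ℂ) (θ : κ → ℝ) (U' : Matrix m₂ κ' ℂ) (V' : Matrix n κ' ℂ)
    (θ' : κ' → ℝ) (E₁₁ : Matrix m₁ m₁ ℂ) (E₂₂ : Matrix m₂ m₂ ℂ) (E₁₂ : Matrix m₁ m₂ ℂ)
    (r : ℝ) : ℝ :=
  (fr (A - tri a e₁ e₂ p₁ p₂ U V θ r) + fr (B - tri a e₁ e₂ q₁ q₂ U' V' θ' r)) +
    r⁻¹ * ((trace ((tri a e₁ e₂ p₁ p₂ U V θ r)ᴴ * E₁₁ * tri a e₁ e₂ p₁ p₂ U V θ r)).re +
      (trace ((tri a e₁ e₂ q₁ q₂ U' V' θ' r)ᴴ * E₂₂ * tri a e₁ e₂ q₁ q₂ U' V' θ' r)).re +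
      2 * (trace ((tri a e₁ e₂ p₁ p₂ U V θ r)ᴴ * E₁₂ * tri a e₁ e₂ q₁ q₂ U' V' θ' r)).re)

/-- its integral divided by `cst (2a)` -/
noncomputable def colV (a e₁ e₂ p₁ p₂ q₁ q₂ : ℝ)
    (U : Matrix m₁ κ ℂ) (V : Matrix n κ ℂ) (θ : κ → ℝ) (U' : Matrix m₂ κ' ℂ) (V' : Matrix n κ' ℂ)
    (θ' : κ' → ℝ) (E₁₁ : Matrix m₁ m₁ ℂ) (E₂₂ : Matrix m₂ m₂ ℂ) (E₁₂ : Matrix m₁ m₂ ℂ) : ℝ :=
  (∑ j, θ j ^ 2 * res a e₁ e₂ p₁ p₂ + ∑ j, θ' j ^ 2 * res a e₁ e₂ q₁ q₂) +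
    ((∑ j, ((Uᴴ * E₁₁ * U) j j).re * ker a e₁ e₂ p₁ p₂ p₁ p₂ (θ j) (θ j)) +
      (∑ j, ((U'ᴴ * E₂₂ * U') j j).re * ker a e₁ e₂ q₁ q₂ q₁ q₂ (θ' j) (θ' j)) +
      2 * ∑ j, ∑ l, ((Uᴴ * E₁₂ * U') j l * (V'ᴴ * V) l j).re *
        ker a e₁ e₂ p₁ p₂ q₁ q₂ (θ j) (θ' l))

theorem fr_tri {m : Type} [Fintype m] {a e₁ e₂ p₁ p₂ y : ℝ} {T : Matrix m n ℂ}
    {U : Matrix m κ ℂ} {V : Matrix n κ ℂ} {θ : κ → ℝ} (h : BlkD a y T U V θ) (hy : y = p₁ + p₂)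
    (r : ℝ) : fr (T - tri a e₁ e₂ p₁ p₂ U V θ r) =
      ∑ j, (θ j ^ (1 - a) * (p₁ + p₂) - gam a e₁ e₂ p₁ p₂ (θ j) r) ^ 2 := by
  have e : T - tri a e₁ e₂ p₁ p₂ U V θ r = U *
      (dg fun j => θ j ^ (1 - a) * (p₁ + p₂) - gam a e₁ e₂ p₁ p₂ (θ j) r) * Vᴴ := by
    rw [h.hT, tri, ← Matrix.sub_mul, ← Matrix.mul_sub]
    congr 2
    ext i j
    rw [Matrix.sub_apply, dg_apply, dg_apply, dg_apply]
    split_ifs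
    · rw [hy]
      push_cast
      ring
    · simp
  rw [e, fr_usv U V h.hU h.hV]

theorem col_itg {a e₁ e₂ p₁ p₂ q₁ q₂ y y' : ℝ} (h0 : 0 < a) (h1 : 2 * a < 1) (he₁ : 0 < e₁)
    (he₂ : 0 < e₂) {A : Matrix m₁ n ℂ} {B : Matrix m₂ n ℂ} {U : Matrix m₁ κ ℂ}
    {V : Matrix n κ ℂ} {θ : κ → ℝ} {U' : Matrix m₂ κ' ℂ} {V' : Matrix n κ' ℂ}
    {θ' : κ' → ℝ} (hA : BlkD a y A U V θ) (hB : BlkD a y' B U' V' θ') (hy : y = p₁ + p₂)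
    (hy' : y' = q₁ + q₂) (E₁₁ : Matrix m₁ m₁ ℂ) (E₂₂ : Matrix m₂ m₂ ℂ) (E₁₂ : Matrix m₁ m₂ ℂ) :
    Itg (fun r => r ^ (2 * a - 1) * colF a e₁ e₂ p₁ p₂ q₁ q₂ A B U V θ U' V' θ' E₁₁ E₂₂ E₁₂ r)
      (cst (2 * a) * colV a e₁ e₂ p₁ p₂ q₁ q₂ U V θ U' V' θ' E₁₁ E₂₂ E₁₂) := by
  have i1 : Itg (fun r => ∑ j, r ^ (2 * a - 1) *
      (θ j ^ (1 - a) * (p₁ + p₂) - gam a e₁ e₂ p₁ p₂ (θ j) r) ^ 2)
      (∑ j, cst (2 * a) * (θ j ^ 2 * res a e₁ e₂ p₁ p₂)) :=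
    Itg.sum _ fun j _ => itg_res a e₁ e₂ p₁ p₂ (θ j) h0 h1 he₁ he₂ (hA.hθ j)
  have i2 : Itg (fun r => ∑ j, r ^ (2 * a - 1) *
      (θ' j ^ (1 - a) * (q₁ + q₂) - gam a e₁ e₂ q₁ q₂ (θ' j) r) ^ 2)
      (∑ j, cst (2 * a) * (θ' j ^ 2 * res a e₁ e₂ q₁ q₂)) :=
    Itg.sum _ fun j _ => itg_res a e₁ e₂ q₁ q₂ (θ' j) h0 h1 he₁ he₂ (hB.hθ j)
  have i3 : Itg (fun r => ∑ j, ((Uᴴ * E₁₁ * U) j j).re * (r ^ (2 * a - 2) *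
      (gam a e₁ e₂ p₁ p₂ (θ j) r * gam a e₁ e₂ p₁ p₂ (θ j) r)))
      (∑ j, ((Uᴴ * E₁₁ * U) j j).re *
        (cst (2 * a) * ker a e₁ e₂ p₁ p₂ p₁ p₂ (θ j) (θ j))) :=
    Itg.sum _ fun j _ =>
      (itg_ker a e₁ e₂ p₁ p₂ p₁ p₂ (θ j) (θ j) h0 h1 he₁ he₂ (hA.hθ j) (hA.hθ j)).const_mul _
  have i4 : Itg (fun r => ∑ j, ((U'ᴴ * E₂₂ * U') j j).re * (r ^ (2 * a - 2) *
      (gam a e₁ e₂ q₁ q₂ (θ' j) r * gam a e₁ e₂ q₁ q₂ (θ' j) r)))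
      (∑ j, ((U'ᴴ * E₂₂ * U') j j).re *
        (cst (2 * a) * ker a e₁ e₂ q₁ q₂ q₁ q₂ (θ' j) (θ' j))) :=
    Itg.sum _ fun j _ =>
      (itg_ker a e₁ e₂ q₁ q₂ q₁ q₂ (θ' j) (θ' j) h0 h1 he₁ he₂ (hB.hθ j) (hB.hθ j)).const_mul _
  have i5 : Itg (fun r => ∑ j, ∑ l, ((Uᴴ * E₁₂ * U') j l * (V'ᴴ * V) l j).re *
      (r ^ (2 * a - 2) * (gam a e₁ e₂ p₁ p₂ (θ j) r * gam a e₁ e₂ q₁ q₂ (θ' l) r)))
      (∑ j, ∑ l, ((Uᴴ * E₁₂ * U') j l * (V'ᴴ * V) l j).re *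
        (cst (2 * a) * ker a e₁ e₂ p₁ p₂ q₁ q₂ (θ j) (θ' l))) :=
    Itg.sum _ fun j _ => Itg.sum _ fun l _ =>
      (itg_ker a e₁ e₂ p₁ p₂ q₁ q₂ (θ j) (θ' l) h0 h1 he₁ he₂ (hA.hθ j) (hB.hθ l)).const_mul _
  have i6 := (i1.add i2).add ((i3.add i4).add (i5.const_mul 2))
  have hv : (∑ j, cst (2 * a) * (θ j ^ 2 * res a e₁ e₂ p₁ p₂) +
      ∑ j, cst (2 * a) * (θ' j ^ 2 * res a e₁ e₂ q₁ q₂)) +
      ((∑ j, ((Uᴴ * E₁₁ * U) j j).re *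
        (cst (2 * a) * ker a e₁ e₂ p₁ p₂ p₁ p₂ (θ j) (θ j)) +
      ∑ j, ((U'ᴴ * E₂₂ * U') j j).re *
        (cst (2 * a) * ker a e₁ e₂ q₁ q₂ q₁ q₂ (θ' j) (θ' j))) +
      2 * ∑ j, ∑ l, ((Uᴴ * E₁₂ * U') j l * (V'ᴴ * V) l j).re *
        (cst (2 * a) * ker a e₁ e₂ p₁ p₂ q₁ q₂ (θ j) (θ' l))) =
      cst (2 * a) * colV a e₁ e₂ p₁ p₂ q₁ q₂ U V θ U' V' θ' E₁₁ E₂₂ E₁₂ := by
    unfold colV
    simp only [mul_add, Finset.mul_sum]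
    refine congrArg₂ _ rfl (congrArg₂ _ (congrArg₂ _ ?_ ?_) ?_)
    · exact Finset.sum_congr rfl fun j _ => by ring
    · exact Finset.sum_congr rfl fun j _ => by ring
    · exact Finset.sum_congr rfl fun j _ => Finset.sum_congr rfl fun l _ => by ring
  rw [hv] at i6
  refine i6.congr fun r hr => ?_
  have hr1 : r ^ (2 * a - 1) * r⁻¹ = r ^ (2 * a - 2) := by
    have : (2 * a - 2) = (2 * a - 1) - 1 := by ring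
    rw [this, Real.rpow_sub_one hr.ne' (2 * a - 1), div_eq_mul_inv]
  unfold colF
  rw [fr_tri hA hy, fr_tri hB hy', tri, tri, trace_usv_diag U V hA.hV, trace_usv_diag U' V' hB.hV,
    trace_usv_cross, mul_add, ← mul_assoc, hr1]
  simp only [mul_add, Finset.mul_sum]
  refine congrArg₂ _ rfl (congrArg₂ _ (congrArg₂ _ ?_ ?_) ?_)
  · exact Finset.sum_congr rfl fun j _ => by ring
  · exact Finset.sum_congr rfl fun j _ => by ring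
  · exact Finset.sum_congr rfl fun j _ => Finset.sum_congr rfl fun l _ => by ring

theorem col_bound {a e₁ e₂ p₁ p₂ q₁ q₂ y y' : ℝ} (h0 : 0 < a) (h1 : 2 * a < 1) (he₁ : 0 < e₁)
    (he₂ : 0 < e₂) {A : Matrix m₁ n ℂ} {B : Matrix m₂ n ℂ} {U : Matrix m₁ κ ℂ}
    {V : Matrix n κ ℂ} {θ : κ → ℝ} {U' : Matrix m₂ κ' ℂ} {V' : Matrix n κ' ℂ}
    {θ' : κ' → ℝ} (hA : BlkD a y A U V θ) (hB : BlkD a y' B U' V' θ')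
    (hk : ∃ M P : ℝ, 0 ≤ M ∧ 0 ≤ P ∧ M + P = ker a e₁ e₂ p₁ p₂ q₁ q₂ 1 1 ∧
      ∀ x y : ℝ, 0 < x → 0 < y → |ker a e₁ e₂ p₁ p₂ q₁ q₂ x y| ≤ M * x + P * y)
    (E₁₁ : Matrix m₁ m₁ ℂ) (E₂₂ : Matrix m₂ m₂ ℂ) (E₁₂ : Matrix m₁ m₂ ℂ) :
    colV a e₁ e₂ p₁ p₂ q₁ q₂ U V θ U' V' θ' E₁₁ E₂₂ E₁₂ ≤
      (res a e₁ e₂ p₁ p₂ + res a e₁ e₂ q₁ q₂) + ((ker a e₁ e₂ p₁ p₂ p₁ p₂ 1 1 * nf E₁₁ +
        ker a e₁ e₂ q₁ q₂ q₁ q₂ 1 1 * nf E₂₂) + 2 * (ker a e₁ e₂ p₁ p₂ q₁ q₂ 1 1 * nf E₁₂)) := by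
  obtain ⟨M, P, hM, hP, hMP, hb⟩ := hk
  have r1 := res_nonneg a e₁ e₂ p₁ p₂ h0 h1 he₁ he₂
  have r2 := res_nonneg a e₁ e₂ q₁ q₂ h0 h1 he₁ he₂
  have k1 := ker_diag_nonneg a e₁ e₂ p₁ p₂ h0 h1 he₁ he₂
  have k2 := ker_diag_nonneg a e₁ e₂ q₁ q₂ h0 h1 he₁ he₂
  have s1 : ∑ j, θ j ^ 2 * res a e₁ e₂ p₁ p₂ ≤ res a e₁ e₂ p₁ p₂ := by
    rw [← Finset.sum_mul]
    have := mul_le_mul_of_nonneg_right hA.hsum r1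
    rwa [one_mul] at this
  have s2 : ∑ j, θ' j ^ 2 * res a e₁ e₂ q₁ q₂ ≤ res a e₁ e₂ q₁ q₂ := by
    rw [← Finset.sum_mul]
    have := mul_le_mul_of_nonneg_right hB.hsum r2
    rwa [one_mul] at this
  have s3 : ∑ j, ((Uᴴ * E₁₁ * U) j j).re * ker a e₁ e₂ p₁ p₂ p₁ p₂ (θ j) (θ j) ≤
      ker a e₁ e₂ p₁ p₂ p₁ p₂ 1 1 * nf E₁₁ := by
    have e : ∑ j, ((Uᴴ * E₁₁ * U) j j).re * ker a e₁ e₂ p₁ p₂ p₁ p₂ (θ j) (θ j) =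
        ker a e₁ e₂ p₁ p₂ p₁ p₂ 1 1 * ∑ j, θ j * ((Uᴴ * E₁₁ * U) j j).re := by
      rw [Finset.mul_sum]
      refine Finset.sum_congr rfl fun j _ => ?_
      rw [ker_diag a e₁ e₂ p₁ p₂ p₁ p₂ (θ j) he₁ he₂ (hA.hθ j)]
      ring
    rw [e]
    exact mul_le_mul_of_nonneg_left (diag_bound U hA.hU θ hA.hsum E₁₁) k1
  have s4 : ∑ j, ((U'ᴴ * E₂₂ * U') j j).re * ker a e₁ e₂ q₁ q₂ q₁ q₂ (θ' j) (θ' j) ≤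
      ker a e₁ e₂ q₁ q₂ q₁ q₂ 1 1 * nf E₂₂ := by
    have e : ∑ j, ((U'ᴴ * E₂₂ * U') j j).re * ker a e₁ e₂ q₁ q₂ q₁ q₂ (θ' j) (θ' j) =
        ker a e₁ e₂ q₁ q₂ q₁ q₂ 1 1 * ∑ j, θ' j * ((U'ᴴ * E₂₂ * U') j j).re := by
      rw [Finset.mul_sum]
      refine Finset.sum_congr rfl fun j _ => ?_
      rw [ker_diag a e₁ e₂ q₁ q₂ q₁ q₂ (θ' j) he₁ he₂ (hB.hθ j)]
      ring
    rw [e]
    exact mul_le_mul_of_nonneg_left (diag_bound U' hB.hU θ' hB.hsum E₂₂) k2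
  have s5 : ∑ j, ∑ l, ((Uᴴ * E₁₂ * U') j l * (V'ᴴ * V) l j).re *
      ker a e₁ e₂ p₁ p₂ q₁ q₂ (θ j) (θ' l) ≤ ker a e₁ e₂ p₁ p₂ q₁ q₂ 1 1 * nf E₁₂ := by
    have h := cross_bound U V U' V' hA.hU hA.hV hB.hU hB.hV θ θ' hA.hθ hB.hθ hA.hsum hB.hsum
      (ker a e₁ e₂ p₁ p₂ q₁ q₂) M P hM hP hb E₁₂
    rw [hMP] at h
    refine le_trans (le_of_eq ?_) h
    exact Finset.sum_congr rfl fun j _ => Finset.sum_congr rfl fun l _ => by ring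
  unfold colV
  linarith

end column

section main

variable {N : ℕ} {m₁ m₂ : Type} {n κ κ' : Fin N → Type} [Fintype m₁] [DecidableEq m₁]
  [Fintype m₂] [DecidableEq m₂] [∀ k, Fintype (n k)] [∀ k, Fintype (κ k)]
  [∀ k, DecidableEq (κ k)] [∀ k, Fintype (κ' k)] [∀ k, DecidableEq (κ' k)]

theorem main_blk {a e₁ e₂ c s d₁ d₂ : ℝ} {X Z : Fin N → ℝ} (D : SDat a e₁ e₂ c s d₁ d₂ X Z)
    (A : ∀ k, Matrix m₁ (n k) ℂ) (B : ∀ k, Matrix m₂ (n k) ℂ)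
    (U : ∀ k, Matrix m₁ (κ k) ℂ) (V : ∀ k, Matrix (n k) (κ k) ℂ) (θ : ∀ k, κ k → ℝ)
    (U' : ∀ k, Matrix m₂ (κ' k) ℂ) (V' : ∀ k, Matrix (n k) (κ' k) ℂ) (θ' : ∀ k, κ' k → ℝ)
    (hA : ∀ k, BlkD a (c * X k - s * Z k) (A k) (U k) (V k) (θ k))
    (hB : ∀ k, BlkD a (s * X k + c * Z k) (B k) (U' k) (V' k) (θ' k))
    (W : Matrix (m₁ ⊕ m₂) (m₁ ⊕ m₂) ℂ) (hW : W ∈ unitaryGroup (m₁ ⊕ m₂) ℂ)
    (x μ : m₁ ⊕ m₂ → ℝ) (hμ : ∀ i, 0 ≤ μ i) (hT : LibSch.blk A B * (LibSch.blk A B)ᴴ = ud W x) :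
    ∑ i, x i * μ i ^ (2 * a) ≤ (1 - 2 * a) * (d₁ * e₁ ^ 2 + d₂ * e₂ ^ 2) +
      2 * a * ((d₁ * c ^ 2 * e₁ + d₂ * s ^ 2 * e₂) * nf (ud W μ).toBlocks₁₁ +
        (d₁ * s ^ 2 * e₁ + d₂ * c ^ 2 * e₂) * nf (ud W μ).toBlocks₂₂ +
        2 * (c * s * (d₁ * e₁ - d₂ * e₂)) * nf (ud W μ).toBlocks₁₂) := by
  have he₁ : 0 < e₁ := lt_of_lt_of_le D.he₂ D.he
  have hb0 : 0 < 2 * a := by linarith [D.ha]
  have hcst := cst_pos (2 * a) hb0 D.ha'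
  set E := ud W μ with hE
  -- left side
  have iL : Itg (fun r => ∑ i, x i * (r ^ (2 * a - 1) * (μ i / (r + μ i))))
      (∑ i, x i * (cst (2 * a) * μ i ^ (2 * a))) :=
    Itg.sum _ fun i _ => (itg_base (2 * a) (μ i) hb0 D.ha' (hμ i)).const_mul _
  -- right side
  have iR : Itg (fun r => ∑ k, r ^ (2 * a - 1) * colF a e₁ e₂ (c * X k) (-(s * Z k)) (s * X k)
      (c * Z k) (A k) (B k) (U k) (V k) (θ k) (U' k) (V' k) (θ' k) E.toBlocks₁₁ E.toBlocks₂₂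
      E.toBlocks₁₂ r) (∑ k, cst (2 * a) * colV a e₁ e₂ (c * X k) (-(s * Z k)) (s * X k)
      (c * Z k) (U k) (V k) (θ k) (U' k) (V' k) (θ' k) E.toBlocks₁₁ E.toBlocks₂₂
      E.toBlocks₁₂) :=
    Itg.sum _ fun k _ => col_itg D.ha D.ha' he₁ D.he₂ (hA k) (hB k) (by ring) rfl _ _ _
  have h1 := iL.mono iR (by
    intro r hr
    have h2 := resolvent_le W hW x μ hμ (LibSch.blk A B)
      (LibSch.blk (fun k => tri a e₁ e₂ (c * X k) (-(s * Z k)) (U k) (V k) (θ k) r)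
        (fun k => tri a e₁ e₂ (s * X k) (c * Z k) (U' k) (V' k) (θ' k) r)) hT r hr
    rw [fr_blk, trace_blk _ _ _ (ud_isHermitian W μ), Finset.mul_sum,
      ← Finset.sum_add_distrib] at h2
    have h3 := mul_le_mul_of_nonneg_left h2 (Real.rpow_nonneg hr.le (2 * a - 1))
    rw [Finset.mul_sum, Finset.mul_sum] at h3
    refine le_trans (le_of_eq ?_) h3
    exact Finset.sum_congr rfl fun i _ => by ring)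
  have h2 : ∑ i, x i * μ i ^ (2 * a) ≤ ∑ k, colV a e₁ e₂ (c * X k) (-(s * Z k)) (s * X k)
      (c * Z k) (U k) (V k) (θ k) (U' k) (V' k) (θ' k) E.toBlocks₁₁ E.toBlocks₂₂
      E.toBlocks₁₂ := by
    have e1 : ∑ i, x i * (cst (2 * a) * μ i ^ (2 * a)) =
        cst (2 * a) * ∑ i, x i * μ i ^ (2 * a) := by
      rw [Finset.mul_sum]
      exact Finset.sum_congr rfl fun i _ => by ring
    rw [e1, ← Finset.mul_sum] at h1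
    exact le_of_mul_le_mul_left h1 hcst
  refine h2.trans ((Finset.sum_le_sum fun k _ => col_bound D.ha D.ha' he₁ D.he₂ (hA k) (hB k)
    (kernel_col D k) _ _ _).trans (le_of_eq ?_))
  have t1 := sum_res D
  have t2 := sum_11 D
  have t3 := sum_22 D
  have t4 := sum_12 D
  rw [Finset.sum_add_distrib, Finset.sum_add_distrib, Finset.sum_add_distrib,
    Finset.sum_add_distrib, ← Finset.mul_sum, ← Finset.sum_mul, ← Finset.sum_mul,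
    ← Finset.sum_mul, t2, t3, t4, ← t1, Finset.sum_add_distrib]
  ring

end main

end Pool.Agent.LibSchA
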