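import Pool.Agent.LibSchA.A8
import Pool.Agent.LibSchA.A4

/-! **A9.**  The inequality for the exponent `q`, in terms of the scalar data. -/

open MeasureTheory Set Matrix
open scoped ComplexOrder

namespace Pool.Agent.LibSchA

open Pool.Agent.LibSchP

theorem fr_ud {m : Type} [Fintype m] [DecidableEq m] (W : Matrix m m ℂ)
    (hW : W ∈ unitaryGroup m ℂ) (μ : m → ℝ) : fr (ud W μ) = ∑ i, μ i ^ 2 := by
  unfold ud
  exact fr_usv W W (a2_uu W hW) (a2_uu W hW) μ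

theorem final_scalar {a e₁ e₂ c s d₁ d₂ τ x y z : ℝ} (h0 : 0 < a) (h1 : 2 * a < 1)
    (hcs : c ^ 2 + s ^ 2 = 1) (hd₁ : d₁ = 0 ∨ d₁ = 1) (hd₂ : d₂ = 0 ∨ d₂ = 1)
    (hτ : x ^ 2 + y ^ 2 + 2 * z ^ 2 = τ)
    (h : τ ≤ (1 - 2 * a) * (d₁ * e₁ ^ 2 + d₂ * e₂ ^ 2) +
      2 * a * ((d₁ * c ^ 2 * e₁ + d₂ * s ^ 2 * e₂) * x + (d₁ * s ^ 2 * e₁ + d₂ * c ^ 2 * e₂) * y +
        2 * (c * s * (d₁ * e₁ - d₂ * e₂)) * z)) : τ ≤ d₁ * e₁ ^ 2 + d₂ * e₂ ^ 2 := by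
  have h2 : (d₁ * c ^ 2 * e₁ + d₂ * s ^ 2 * e₂) ^ 2 + (d₁ * s ^ 2 * e₁ + d₂ * c ^ 2 * e₂) ^ 2 +
      2 * (c * s * (d₁ * e₁ - d₂ * e₂)) ^ 2 = d₁ * e₁ ^ 2 + d₂ * e₂ ^ 2 := by
    have e1 : d₁ ^ 2 = d₁ := by rcases hd₁ with h | h <;> rw [h] <;> norm_num
    have e2 : d₂ ^ 2 = d₂ := by rcases hd₂ with h | h <;> rw [h] <;> norm_num
    have e3 : (d₁ * c ^ 2 * e₁ + d₂ * s ^ 2 * e₂) ^ 2 + (d₁ * s ^ 2 * e₁ + d₂ * c ^ 2 * e₂) ^ 2 +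
      2 * (c * s * (d₁ * e₁ - d₂ * e₂)) ^ 2 =
      (d₁ ^ 2 * e₁ ^ 2 + d₂ ^ 2 * e₂ ^ 2) * (c ^ 2 + s ^ 2) ^ 2 := by ring
    rw [e3, hcs, e1, e2]
    ring
  set α := d₁ * c ^ 2 * e₁ + d₂ * s ^ 2 * e₂
  set β := d₁ * s ^ 2 * e₁ + d₂ * c ^ 2 * e₂
  set γ := c * s * (d₁ * e₁ - d₂ * e₂)
  have h3 : α * x + β * y + 2 * γ * z ≤ ((d₁ * e₁ ^ 2 + d₂ * e₂ ^ 2) + τ) / 2 := by
    nlinarith [sq_nonneg (α - x), sq_nonneg (β - y), sq_nonneg (γ - z)]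
  have h4 := mul_le_mul_of_nonneg_left h3 (by linarith : 0 ≤ 2 * a)
  nlinarith

/-- **Main inequality** for `q = 2/(1-a)`. -/
theorem main_q {N : ℕ} {m₁ m₂ : Type} {n : Fin N → Type} [Fintype m₁] [DecidableEq m₁]
    [Fintype m₂] [DecidableEq m₂] [∀ k, Fintype (n k)] [∀ k, DecidableEq (n k)]
    {a q e₁ e₂ c s d₁ d₂ : ℝ} {X Z : Fin N → ℝ} (D : SDat a e₁ e₂ c s d₁ d₂ X Z)
    (hq : q = 2 / (1 - a)) (A : ∀ k, Matrix m₁ (n k) ℂ) (B : ∀ k, Matrix m₂ (n k) ℂ)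
    (hA : ∀ k, LibSch.pw q (A k) ≤ (c * X k - s * Z k) ^ q)
    (hB : ∀ k, LibSch.pw q (B k) ≤ (s * X k + c * Z k) ^ q) :
    LibSch.pw q (LibSch.blk A B) ≤ d₁ * e₁ ^ 2 + d₂ * e₂ ^ 2 := by
  have ha1 : a < 1 := by linarith [D.ha, D.ha']
  have ha2 : 0 < 1 - a := by linarith
  have hq0 : 0 < q := by rw [hq]; positivity
  choose κ iF iD U V θ hA' using fun k => blkD_exists a q (c * X k - s * Z k) ha1 hq (D.h₁ k)
    (A k) (hA k)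
  choose κ' iF' iD' U' V' θ' hB' using fun k => blkD_exists a q (s * X k + c * Z k) ha1 hq
    (D.h₂ k) (B k) (hB k)
  set T := LibSch.blk A B with hTdef
  obtain ⟨W, hW, x, hx, hT⟩ := ud_exists_nonneg (T * Tᴴ) (posSemidef_self_mul_conjTranspose T)
  have hpw : LibSch.pw q T = ∑ i, x i ^ (q / 2) := by
    rw [← LibSch.pw_conjTranspose q hq0 T]
    exact pw_ud q Tᴴ W hW x (by rw [conjTranspose_conjTranspose]; exact hT)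
  have hμ : ∀ i, 0 ≤ x i ^ (q / 4) := fun i => Real.rpow_nonneg (hx i) _
  have h := main_blk D A B U V θ U' V' θ' hA' hB' W hW x (fun i => x i ^ (q / 4)) hμ hT
  have e1 : ∑ i, x i * (x i ^ (q / 4)) ^ (2 * a) = LibSch.pw q T := by
    rw [hpw]
    refine Finset.sum_congr rfl fun i _ => ?_
    rcases (hx i).eq_or_lt with h0 | h0
    · rw [← h0, zero_mul, Real.zero_rpow (by positivity)]
    · rw [← Real.rpow_mul (hx i)]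
      nth_rewrite 1 [← Real.rpow_one (x i)]
      rw [← Real.rpow_add h0]
      congr 1
      rw [hq]
      field_simp
      ring
  have e2 : fr (ud W fun i => x i ^ (q / 4)) = LibSch.pw q T := by
    rw [fr_ud W hW, hpw]
    refine Finset.sum_congr rfl fun i _ => ?_
    rw [← Real.rpow_natCast, ← Real.rpow_mul (hx i)]
    congr 1
    push_cast
    ring
  rw [e1] at h
  have e3 := fr_toBlocks (ud W fun i => x i ^ (q / 4)) (ud_isHermitian W _)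
  rw [e2] at e3
  refine final_scalar D.ha D.ha' D.hcs D.hd₁ D.hd₂ ?_ h
  rw [nf_sq, nf_sq, nf_sq]
  exact e3.symm

end Pool.Agent.LibSchA
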