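import Pool.Agent.LibSchA.A0

/-! **B0.**  Definitions for the scalar `2 × N` matrices. -/

open Matrix
open scoped ComplexOrder

namespace Pool.Agent.LibSchA

/-- the complex `2 × N` matrix with real rows `y₁`, `y₂` -/
def mat {N : ℕ} (y₁ y₂ : Fin N → ℝ) : Matrix (Fin 2) (Fin N) ℂ :=
  Matrix.of fun i k => ((![y₁ k, y₂ k] i : ℝ) : ℂ)

/-- rotation -/
def Rot (c s : ℝ) : Matrix (Fin 2) (Fin 2) ℂ := !![(c : ℂ), -(s : ℂ); (s : ℂ), (c : ℂ)]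

/-- the relation between the rows `y₁, y₂` and the rotated rows `X, Z`, `∑ X² = x`, `∑ Z² = z` -/
structure RDat {N : ℕ} (c s x z : ℝ) (y₁ y₂ X Z : Fin N → ℝ) : Prop where
  hc : 0 ≤ c
  hs : 0 ≤ s
  hcs : c ^ 2 + s ^ 2 = 1
  hy₁ : ∀ k, y₁ k = c * X k - s * Z k
  hy₂ : ∀ k, y₂ k = s * X k + c * Z k
  hX : ∑ k, X k ^ 2 = x
  hZ : ∑ k, Z k ^ 2 = z
  hXZ : ∑ k, X k * Z k = 0
  hz : z ≤ x
  h₁ : ∀ k, 0 ≤ y₁ k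
  h₂ : ∀ k, 0 ≤ y₂ k

end Pool.Agent.LibSchA
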