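import Pool.Agent.LibSchA.A0

/-! **B1.**  The rotation which diagonalises the Gram matrix of two nonnegative vectors. -/

open Matrix
open scoped ComplexOrder

namespace Pool.Agent.LibSchA

/-- scalar part: the rotation for the numbers `α`, `β ≥ 0`, `γ` -/
theorem B1_scal (α β γ : ℝ) (hβ : 0 ≤ β) :
    ∃ c s : ℝ, 0 ≤ c ∧ 0 ≤ s ∧ c ^ 2 + s ^ 2 = 1 ∧
      (c ^ 2 - s ^ 2) * β - c * s * (α - γ) = 0 ∧
      0 ≤ (c ^ 2 - s ^ 2) * (α - γ) + 4 * (c * s) * β := by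
  set ρ : ℝ := Real.sqrt ((α - γ) ^ 2 + 4 * β ^ 2) with hρ
  have hρ0 : 0 ≤ ρ := Real.sqrt_nonneg _
  have hρ2 : ρ ^ 2 = (α - γ) ^ 2 + 4 * β ^ 2 := Real.sq_sqrt (by positivity)
  rcases hρ0.eq_or_lt with h0 | hpos
  · have h1 : (α - γ) ^ 2 + 4 * β ^ 2 = 0 := by rw [← hρ2, ← h0]; ring
    have h2 : α - γ = 0 := by
      have : (α - γ) ^ 2 = 0 := by nlinarith [sq_nonneg (α - γ), sq_nonneg β]
      exact pow_eq_zero_iff (two_ne_zero) |>.1 this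
    have h3 : β = 0 := by
      have : β ^ 2 = 0 := by nlinarith [sq_nonneg (α - γ), sq_nonneg β]
      exact pow_eq_zero_iff (two_ne_zero) |>.1 this
    exact ⟨1, 0, zero_le_one, le_rfl, by ring, by rw [h3]; ring, by rw [h2, h3]; simp⟩
  · have hne : ρ ≠ 0 := hpos.ne'
    set d : ℝ := (α - γ) / ρ with hd
    have hd2 : d ^ 2 = 1 - 4 * (β / ρ) ^ 2 := by
      rw [hd]
      field_simp
      rw [hρ2]; ring
    have hd1 : d ^ 2 ≤ 1 := by rw [hd2]; nlinarith [sq_nonneg (β / ρ)]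
    have hda := abs_le_one_iff_mul_self_le_one.2 (by nlinarith : d * d ≤ 1)
    obtain ⟨hdl, hdu⟩ := abs_le.1 hda
    have hc2 : (Real.sqrt ((1 + d) / 2)) ^ 2 = (1 + d) / 2 := Real.sq_sqrt (by linarith)
    have hs2 : (Real.sqrt ((1 - d) / 2)) ^ 2 = (1 - d) / 2 := Real.sq_sqrt (by linarith)
    have hcs : Real.sqrt ((1 + d) / 2) * Real.sqrt ((1 - d) / 2) = β / ρ := by
      rw [← Real.sqrt_mul (by linarith)]
      have : (1 + d) / 2 * ((1 - d) / 2) = (β / ρ) ^ 2 := by nlinarith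
      rw [this, Real.sqrt_sq (div_nonneg hβ hρ0)]
    refine ⟨Real.sqrt ((1 + d) / 2), Real.sqrt ((1 - d) / 2), Real.sqrt_nonneg _,
      Real.sqrt_nonneg _, by rw [hc2, hs2]; ring, ?_, ?_⟩
    · rw [hc2, hs2, hcs, hd]
      field_simp
      ring
    · rw [mul_assoc 4, hc2, hs2, hcs, hd]
      have : ((1 + (α - γ) / ρ) / 2 - (1 - (α - γ) / ρ) / 2) * (α - γ) + 4 * (β / ρ * β)
          = ((α - γ) ^ 2 + 4 * β ^ 2) / ρ := by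
        field_simp
        ring
      rw [this]
      positivity

/-- With `α = ∑ y₁²`, `β = ∑ y₁y₂`, `γ = ∑ y₂²`, `ρ = √((α-γ)² + 4β²)`: `ρ = 0`: `c = 1`, `s = 0`;
else `c = √((1 + (α-γ)/ρ)/2)`, `s = √((1 - (α-γ)/ρ)/2)`, so `c² - s² = (α-γ)/ρ`, `cs = β/ρ`. -/
theorem gram_rot {N : ℕ} (y₁ y₂ : Fin N → ℝ) (h₁ : ∀ k, 0 ≤ y₁ k) (h₂ : ∀ k, 0 ≤ y₂ k) :
    ∃ c s : ℝ, 0 ≤ c ∧ 0 ≤ s ∧ c ^ 2 + s ^ 2 = 1 ∧
      ∑ k, (c * y₁ k + s * y₂ k) * (c * y₂ k - s * y₁ k) = 0 ∧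
      ∑ k, (c * y₂ k - s * y₁ k) ^ 2 ≤ ∑ k, (c * y₁ k + s * y₂ k) ^ 2 := by
  obtain ⟨c, s, hc, hs, h1, h2, h3⟩ := B1_scal (∑ k, y₁ k ^ 2) (∑ k, y₁ k * y₂ k)
    (∑ k, y₂ k ^ 2) (Finset.sum_nonneg fun k _ => mul_nonneg (h₁ k) (h₂ k))
  refine ⟨c, s, hc, hs, h1, ?_, ?_⟩
  · have : ∑ k, (c * y₁ k + s * y₂ k) * (c * y₂ k - s * y₁ k)
        = (c ^ 2 - s ^ 2) * ∑ k, y₁ k * y₂ k
          - c * s * (∑ k, y₁ k ^ 2 - ∑ k, y₂ k ^ 2) := by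
      rw [← Finset.sum_sub_distrib, Finset.mul_sum, Finset.mul_sum, ← Finset.sum_sub_distrib]
      exact Finset.sum_congr rfl fun k _ => by ring
    rw [this, h2]
  · rw [← sub_nonneg]
    have : ∑ k, (c * y₁ k + s * y₂ k) ^ 2 - ∑ k, (c * y₂ k - s * y₁ k) ^ 2
        = (c ^ 2 - s ^ 2) * (∑ k, y₁ k ^ 2 - ∑ k, y₂ k ^ 2)
          + 4 * (c * s) * ∑ k, y₁ k * y₂ k := by
      rw [← Finset.sum_sub_distrib, ← Finset.sum_sub_distrib, Finset.mul_sum, Finset.mul_sum,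
        ← Finset.sum_add_distrib]
      exact Finset.sum_congr rfl fun k _ => by ring
    rw [this]
    exact h3

end Pool.Agent.LibSchA
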