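import Pool.Agent.LibSchA.B0
import Pool.Agent.LibSchA.B1

/-! **B2.**  The spectral decomposition of `C Cᴴ` for a real `2 × N` matrix `C`. -/

open Matrix
open scoped ComplexOrder

namespace Pool.Agent.LibSchA

open Pool.Agent.LibSchP

variable {N : ℕ} {c s x z : ℝ} {y₁ y₂ X Z : Fin N → ℝ}

/-- `gram_rot`, `X = c y₁ + s y₂`, `Z = c y₂ - s y₁` -/
theorem rdat_exists (y₁ y₂ : Fin N → ℝ) (h₁ : ∀ k, 0 ≤ y₁ k) (h₂ : ∀ k, 0 ≤ y₂ k) :
    ∃ (c s x z : ℝ) (X Z : Fin N → ℝ), RDat c s x z y₁ y₂ X Z := by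
  obtain ⟨c, s, hc, hs, hcs, hXZ, hle⟩ := gram_rot y₁ y₂ h₁ h₂
  refine ⟨c, s, ∑ k, (c * y₁ k + s * y₂ k) ^ 2, ∑ k, (c * y₂ k - s * y₁ k) ^ 2,
    fun k => c * y₁ k + s * y₂ k, fun k => c * y₂ k - s * y₁ k, ?_⟩
  exact
    { hc := hc
      hs := hs
      hcs := hcs
      hy₁ := fun k => by linear_combination (-(y₁ k)) * hcs
      hy₂ := fun k => by linear_combination (-(y₂ k)) * hcs
      hX := rfl
      hZ := rfl
      hXZ := hXZ
      hz := hle
      h₁ := h₁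
      h₂ := h₂ }

theorem rot_mem (c s : ℝ) (h : c ^ 2 + s ^ 2 = 1) : Rot c s ∈ unitaryGroup (Fin 2) ℂ := by
  rw [mem_unitaryGroup_iff]
  have h' : (c : ℂ) ^ 2 + (s : ℂ) ^ 2 = 1 := by exact_mod_cast congrArg (fun r : ℝ => (r : ℂ)) h
  ext i j
  fin_cases i <;> fin_cases j <;>
    simp [Rot, Matrix.mul_apply, Fin.sum_univ_two, star_apply] <;>
    first
      | linear_combination h'
      | ring

/-- auxiliary: the rows of `mat` -/
theorem b2_mat_rot (D : RDat c s x z y₁ y₂ X Z) : mat y₁ y₂ = Rot c s * mat X Z := by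
  ext i k
  fin_cases i
  · simp [mat, Rot, Matrix.mul_apply, Fin.sum_univ_two, D.hy₁ k]
    ring
  · simp [mat, Rot, Matrix.mul_apply, Fin.sum_univ_two, D.hy₂ k]

theorem b2_gram (D : RDat c s x z y₁ y₂ X Z) : mat X Z * (mat X Z)ᴴ = dg ![x, z] := by
  have hX : ∑ k, (X k : ℂ) ^ 2 = (x : ℂ) := by exact_mod_cast congrArg (fun r : ℝ => (r : ℂ)) D.hX
  have hZ : ∑ k, (Z k : ℂ) ^ 2 = (z : ℂ) := by exact_mod_cast congrArg (fun r : ℝ => (r : ℂ)) D.hZ
  have hXZ : ∑ k, (X k : ℂ) * (Z k : ℂ) = 0 := by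
    exact_mod_cast congrArg (fun r : ℝ => (r : ℂ)) D.hXZ
  ext i j
  rw [dg_apply]
  fin_cases i <;> fin_cases j
  · simp only [Matrix.mul_apply, mat, conjTranspose_apply, of_apply]
    simpa [pow_two] using hX
  · simp only [Matrix.mul_apply, mat, conjTranspose_apply, of_apply]
    simpa using hXZ
  · simp only [Matrix.mul_apply, mat, conjTranspose_apply, of_apply]
    simpa [mul_comm] using hXZ
  · simp only [Matrix.mul_apply, mat, conjTranspose_apply, of_apply]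
    simpa [pow_two] using hZ

/-- `mat y₁ y₂ = Rot c s * mat X Z` and `mat X Z * (mat X Z)ᴴ = dg ![x, z]` -/
theorem mat_gram (D : RDat c s x z y₁ y₂ X Z) :
    mat y₁ y₂ * (mat y₁ y₂)ᴴ = ud (Rot c s) ![x, z] := by
  rw [b2_mat_rot D, conjTranspose_mul, ud, ← b2_gram D]
  simp only [Matrix.mul_assoc]

/-- `pw_conjTranspose`, `pw_ud` -/
theorem mat_pw (D : RDat c s x z y₁ y₂ X Z) (p : ℝ) (hp : 0 < p) :
    LibSch.pw p (mat y₁ y₂) = x ^ (p / 2) + z ^ (p / 2) := by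
  rw [← LibSch.pw_conjTranspose p hp, pw_ud p _ (Rot c s) (rot_mem c s D.hcs) ![x, z]
    (by rw [conjTranspose_conjTranspose]; exact mat_gram D), Fin.sum_univ_two]
  simp

/-- `rp_ud` -/
theorem mat_rp (D : RDat c s x z y₁ y₂ X Z) (σ : ℝ) :
    rp σ (mat y₁ y₂ * (mat y₁ y₂)ᴴ) * mat y₁ y₂ =
      mat (fun k => x ^ σ * (c * X k) - z ^ σ * (s * Z k))
        (fun k => x ^ σ * (s * X k) + z ^ σ * (c * Z k)) := by
  have hU := rot_mem c s D.hcs
  have hUU : (Rot c s)ᴴ * Rot c s = 1 := a2_uu _ hU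
  rw [mat_gram D, rp_ud σ _ hU, b2_mat_rot D, ud]
  have h : Rot c s * (dg fun k => ![x, z] k ^ σ) * (Rot c s)ᴴ * (Rot c s * mat X Z) =
      Rot c s * ((dg fun k => ![x, z] k ^ σ) * mat X Z) := by
    calc _ = Rot c s * (dg fun k => ![x, z] k ^ σ) * ((Rot c s)ᴴ * Rot c s) * mat X Z := by
          simp only [Matrix.mul_assoc]
      _ = _ := by rw [hUU, Matrix.mul_one, Matrix.mul_assoc]
  rw [h]
  ext i k
  fin_cases i
  · simp [mat, Rot, dg, Matrix.mul_apply, Fin.sum_univ_two, diagonal_apply]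
    ring
  · simp [mat, Rot, dg, Matrix.mul_apply, Fin.sum_univ_two, diagonal_apply]
    ring

end Pool.Agent.LibSchA
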