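import Pool.Agent.LibSchA.B0

/-! **B3b.**  The scalar data. -/

open Matrix
open scoped ComplexOrder

namespace Pool.Agent.LibSchA

variable {N : ℕ} {c s x z : ℝ} {y₁ y₂ X Z : Fin N → ℝ}

/-- Interpolation: `f(t) = x^t u + z^t v`, `0 < z ≤ x`, is `≥ 0` at `t₀` and `0`, hence in between:
`f(t) = z^t ((x/z)^t u + v)` and `(x/z)^t` is monotone. -/
theorem interp (x z u v t t₀ : ℝ) (hz : 0 < z) (hx : z ≤ x) (ht₀ : t₀ ≤ t) (ht : t ≤ 0)
    (h0 : 0 ≤ u + v) (h1 : 0 ≤ x ^ t₀ * u + z ^ t₀ * v) : 0 ≤ x ^ t * u + z ^ t * v := by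
  have hx0 : 0 < x := hz.trans_le hx
  have hρ : 1 ≤ x / z := (one_le_div hz).2 hx
  have key : ∀ τ : ℝ, x ^ τ * u + z ^ τ * v = z ^ τ * ((x / z) ^ τ * u + v) := by
    intro τ
    rw [Real.div_rpow hx0.le hz.le]
    have hzτ : z ^ τ ≠ 0 := (Real.rpow_pos_of_pos hz τ).ne'
    field_simp
  rw [key] at h1
  rw [key]
  have h1' : 0 ≤ (x / z) ^ t₀ * u + v := by
    have := Real.rpow_pos_of_pos hz t₀
    exact nonneg_of_mul_nonneg_right h1 this
  have hzt := Real.rpow_pos_of_pos hz t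
  refine mul_nonneg hzt.le ?_
  rcases le_total 0 u with hu | hu
  · have : (x / z) ^ t₀ ≤ (x / z) ^ t := Real.rpow_le_rpow_of_exponent_le hρ ht₀
    nlinarith
  · have : (x / z) ^ t ≤ 1 := by
      have := Real.rpow_le_rpow_of_exponent_le hρ ht
      simpa using this
    nlinarith

/-- Exponent `4/3 < p < 2`, `q = p/(p-1)`, `1 - 2/q = 2/p - 1`; the data for the vectors
`x^((p-2)/2) X`, `z^((p-2)/2) Z`, `eᵢ = x^(p/4), z^(p/4)`. The conditions `h₁`, `h₂` from `interp`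
with `t₀ = -p/4`, `t = (p-2)/2`. -/
theorem data_p (D : RDat c s x z y₁ y₂ X Z) (p : ℝ) (h1 : 4 / 3 < p) (h2 : p < 2)
    (g₁ : ∀ k, 0 ≤ x ^ (-p / 4) * (c * X k) - z ^ (-p / 4) * (s * Z k))
    (g₂ : ∀ k, 0 ≤ x ^ (-p / 4) * (s * X k) + z ^ (-p / 4) * (c * Z k)) :
    ∃ e₁ e₂ d₁ d₂ : ℝ, SDat (2 / p - 1) e₁ e₂ c s d₁ d₂ (fun k => x ^ ((p - 2) / 2) * X k)
      (fun k => z ^ ((p - 2) / 2) * Z k) ∧
      d₁ * e₁ ^ 2 + d₂ * e₂ ^ 2 = x ^ (p / 2) + z ^ (p / 2) := by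
  have hp0 : 0 < p := by linarith
  have ha : 0 < 2 / p - 1 := by
    rw [sub_pos, one_lt_div hp0]; exact h2
  have ha' : 2 * (2 / p - 1) < 1 := by
    have : 2 / p < 3 / 2 := by
      rw [div_lt_div_iff₀ hp0 (by norm_num)]; linarith
    linarith
  have hz0 : 0 ≤ z := by rw [← D.hZ]; exact Finset.sum_nonneg fun k _ => sq_nonneg _
  have hx0 : 0 ≤ x := hz0.trans D.hz
  have hp2 : p / 2 ≠ 0 := by positivity
  -- general facts for positive `w`
  have F1 : ∀ w : ℝ, 0 < w → (w ^ ((p - 2) / 2)) ^ 2 * w = (w ^ (p / 4)) ^ (2 - 2 * (2 / p - 1)) := by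
    intro w hw
    rw [← Real.rpow_natCast, ← Real.rpow_mul hw.le, ← Real.rpow_mul hw.le]
    nth_rw 2 [← Real.rpow_one w]
    rw [← Real.rpow_add hw]
    congr 1
    push_cast
    field_simp
    ring
  have F2 : ∀ w : ℝ, 0 < w → (w ^ (p / 4)) ^ (2 * (2 / p - 1) - 1) * w ^ ((p - 2) / 2)
      = w ^ (-p / 4) := by
    intro w hw
    rw [← Real.rpow_mul hw.le, ← Real.rpow_add hw]
    congr 1
    field_simp
    ring
  have F3 : ∀ w : ℝ, 0 ≤ w → (w ^ (p / 4)) ^ 2 = w ^ (p / 2) := by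
    intro w hw
    rw [← Real.rpow_natCast, ← Real.rpow_mul hw]
    congr 1
    push_cast
    ring
  have hXZ' : ∑ k, (x ^ ((p - 2) / 2) * X k) * (z ^ ((p - 2) / 2) * Z k) = 0 := by
    have : ∀ k, (x ^ ((p - 2) / 2) * X k) * (z ^ ((p - 2) / 2) * Z k)
        = (x ^ ((p - 2) / 2) * z ^ ((p - 2) / 2)) * (X k * Z k) := fun k => by ring
    simp_rw [this]
    rw [← Finset.mul_sum, D.hXZ, mul_zero]
  have hXs : ∑ k, (x ^ ((p - 2) / 2) * X k) ^ 2 = (x ^ ((p - 2) / 2)) ^ 2 * x := by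
    simp_rw [mul_pow]
    rw [← Finset.mul_sum, D.hX]
  have hZs : ∑ k, (z ^ ((p - 2) / 2) * Z k) ^ 2 = (z ^ ((p - 2) / 2)) ^ 2 * z := by
    simp_rw [mul_pow]
    rw [← Finset.mul_sum, D.hZ]
  have hX0 : x = 0 → ∀ k, X k = 0 := by
    intro hx k
    have h := D.hX
    rw [hx, Finset.sum_eq_zero_iff_of_nonneg (fun i _ => sq_nonneg _)] at h
    exact pow_eq_zero_iff (two_ne_zero) |>.1 (h k (Finset.mem_univ k))
  have hZ0 : z = 0 → ∀ k, Z k = 0 := by
    intro hx k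
    have h := D.hZ
    rw [hx, Finset.sum_eq_zero_iff_of_nonneg (fun i _ => sq_nonneg _)] at h
    exact pow_eq_zero_iff (two_ne_zero) |>.1 (h k (Finset.mem_univ k))
  rcases hx0.eq_or_lt with hx | hx
  · -- x = 0
    have hzz : z = 0 := le_antisymm (D.hz.trans hx.symm.le) hz0
    have hXk := hX0 hx.symm
    have hZk := hZ0 hzz
    refine ⟨1, 1, 0, 0, ⟨ha, ha', one_pos, le_rfl, D.hc, D.hs, D.hcs, Or.inl rfl, Or.inl rfl,
      le_rfl, ?_, ?_, hXZ', ?_, ?_, ?_, ?_⟩, ?_⟩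
    · simp [hXk]
    · simp [hZk]
    · intro k; simp [hXk, hZk]
    · intro k; simp [hXk, hZk]
    · intro k; simp [hXk, hZk]
    · intro k; simp [hXk, hZk]
    · rw [← hx, hzz, Real.zero_rpow hp2]; simp
  rcases hz0.eq_or_lt with hz | hz
  · -- z = 0 < x
    have hZk := hZ0 hz.symm
    have hxe : 0 < x ^ (p / 4) := Real.rpow_pos_of_pos hx _
    have hxr : 0 ≤ x ^ ((p - 2) / 2) := Real.rpow_nonneg hx.le _
    have hcX : ∀ k, 0 ≤ c * X k := fun k => by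
      have := D.h₁ k; rw [D.hy₁ k, hZk k] at this; simpa using this
    have hsX : ∀ k, 0 ≤ s * X k := fun k => by
      have := D.h₂ k; rw [D.hy₂ k, hZk k] at this; simpa using this
    have hee : 0 ≤ (x ^ (p / 4)) ^ (2 * (2 / p - 1) - 1) := Real.rpow_nonneg hxe.le _
    refine ⟨x ^ (p / 4), x ^ (p / 4), 1, 0, ⟨ha, ha', hxe, le_rfl, D.hc, D.hs, D.hcs,
      Or.inr rfl, Or.inl rfl, zero_le_one, ?_, ?_, hXZ', ?_, ?_, ?_, ?_⟩, ?_⟩
    · rw [hXs, one_mul, F1 x hx]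
    · simp [hZk]
    · intro k
      simp only [hZk k, mul_zero, sub_zero]
      have : c * (x ^ ((p - 2) / 2) * X k) = x ^ ((p - 2) / 2) * (c * X k) := by ring
      rw [this]; exact mul_nonneg hxr (hcX k)
    · intro k
      simp only [hZk k, mul_zero, add_zero]
      have : s * (x ^ ((p - 2) / 2) * X k) = x ^ ((p - 2) / 2) * (s * X k) := by ring
      rw [this]; exact mul_nonneg hxr (hsX k)
    · intro k
      simp only [hZk k, mul_zero, sub_zero]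
      have : c * (x ^ ((p - 2) / 2) * X k) = x ^ ((p - 2) / 2) * (c * X k) := by ring
      rw [this]; exact mul_nonneg hee (mul_nonneg hxr (hcX k))
    · intro k
      simp only [hZk k, mul_zero, add_zero]
      have : s * (x ^ ((p - 2) / 2) * X k) = x ^ ((p - 2) / 2) * (s * X k) := by ring
      rw [this]; exact mul_nonneg hee (mul_nonneg hxr (hsX k))
    · rw [← hz, Real.zero_rpow hp2, F3 x hx.le]; ring
  · -- 0 < z ≤ x
    have hxe : 0 < x ^ (p / 4) := Real.rpow_pos_of_pos hx _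
    have hze : 0 < z ^ (p / 4) := Real.rpow_pos_of_pos hz _
    have ht₀ : -p / 4 ≤ (p - 2) / 2 := by linarith
    have ht : (p - 2) / 2 ≤ 0 := by linarith
    refine ⟨x ^ (p / 4), z ^ (p / 4), 1, 1, ⟨ha, ha', hze,
      Real.rpow_le_rpow hz.le D.hz (by positivity), D.hc, D.hs, D.hcs,
      Or.inr rfl, Or.inr rfl, le_rfl, ?_, ?_, hXZ', ?_, ?_, ?_, ?_⟩, ?_⟩
    · rw [hXs, one_mul, F1 x hx]
    · rw [hZs, one_mul, F1 z hz]
    · intro k
      have := interp x z (c * X k) (-(s * Z k)) _ _ hz D.hz ht₀ ht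
        (by have := D.h₁ k; rw [D.hy₁ k] at this; linarith)
        (by have := g₁ k; linarith)
      have e : c * (x ^ ((p - 2) / 2) * X k) - s * (z ^ ((p - 2) / 2) * Z k)
        = x ^ ((p - 2) / 2) * (c * X k) + z ^ ((p - 2) / 2) * (-(s * Z k)) := by ring
      rw [e]; exact this
    · intro k
      have := interp x z (s * X k) (c * Z k) _ _ hz D.hz ht₀ ht
        (by have := D.h₂ k; rw [D.hy₂ k] at this; linarith)
        (by have := g₂ k; linarith)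
      have e : s * (x ^ ((p - 2) / 2) * X k) + c * (z ^ ((p - 2) / 2) * Z k)
        = x ^ ((p - 2) / 2) * (s * X k) + z ^ ((p - 2) / 2) * (c * Z k) := by ring
      rw [e]; exact this
    · intro k
      have e : (x ^ (p / 4)) ^ (2 * (2 / p - 1) - 1) * (c * (x ^ ((p - 2) / 2) * X k))
          - (z ^ (p / 4)) ^ (2 * (2 / p - 1) - 1) * (s * (z ^ ((p - 2) / 2) * Z k))
        = ((x ^ (p / 4)) ^ (2 * (2 / p - 1) - 1) * x ^ ((p - 2) / 2)) * (c * X k)
          - ((z ^ (p / 4)) ^ (2 * (2 / p - 1) - 1) * z ^ ((p - 2) / 2)) * (s * Z k) := by ring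
      rw [e, F2 x hx, F2 z hz]; exact g₁ k
    · intro k
      have e : (x ^ (p / 4)) ^ (2 * (2 / p - 1) - 1) * (s * (x ^ ((p - 2) / 2) * X k))
          + (z ^ (p / 4)) ^ (2 * (2 / p - 1) - 1) * (c * (z ^ ((p - 2) / 2) * Z k))
        = ((x ^ (p / 4)) ^ (2 * (2 / p - 1) - 1) * x ^ ((p - 2) / 2)) * (s * X k)
          + ((z ^ (p / 4)) ^ (2 * (2 / p - 1) - 1) * z ^ ((p - 2) / 2)) * (c * Z k) := by ring
      rw [e, F2 x hx, F2 z hz]; exact g₂ k
    · rw [F3 x hx.le, F3 z hz.le]; ring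

end Pool.Agent.LibSchA
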