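import Pool.Agent.LibSchA.B0

/-! **B3a.**  The scalar data. -/

open Matrix
open scoped ComplexOrder

namespace Pool.Agent.LibSchA

variable {N : ℕ} {c s x z : ℝ} {y₁ y₂ X Z : Fin N → ℝ}

theorem b3a_zero {W : Fin N → ℝ} (h : ∑ k, W k ^ 2 = 0) (k : Fin N) : W k = 0 := by
  have h1 := (Finset.sum_eq_zero_iff_of_nonneg (fun i _ => sq_nonneg (W i))).1 h k
    (Finset.mem_univ k)
  exact pow_eq_zero_iff (two_ne_zero) |>.1 h1

theorem b3a_pow1 {t q : ℝ} (ht : 0 < t) (hq : 2 < q) :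
    (t ^ (q / 4)) ^ (2 - 2 * (1 - 2 / q)) = t := by
  rw [← Real.rpow_mul ht.le]
  have : q / 4 * (2 - 2 * (1 - 2 / q)) = 1 := by
    have : q ≠ 0 := by linarith
    field_simp
    ring
  rw [this, Real.rpow_one]

theorem b3a_pow2 {t q : ℝ} (ht : 0 < t) (hq : 2 < q) :
    (t ^ (q / 4)) ^ (2 * (1 - 2 / q) - 1) = t ^ ((q - 4) / 4) := by
  rw [← Real.rpow_mul ht.le]
  congr 1
  have : q ≠ 0 := by linarith
  field_simp
  ring

theorem b3a_pow3 {t q : ℝ} (ht : 0 < t) : (t ^ (q / 4)) ^ 2 = t ^ (q / 2) := by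
  rw [← Real.rpow_natCast, ← Real.rpow_mul ht.le]
  congr 1
  push_cast
  ring

/-- Exponent `2 < q < 4`, `a = 1 - 2/q`, `eᵢ = x^(q/4), z^(q/4)`, `dᵢ = 1` if `x`, `z ≠ 0`;
`x = 0`: `e = 1, 1`, `d = 0, 0`, `X = Z = 0`; `z = 0 < x`: `e₁ = e₂ = x^(q/4)`, `d = 1, 0`, `Z = 0`. -/
theorem data_q (D : RDat c s x z y₁ y₂ X Z) (q : ℝ) (h2 : 2 < q) (h4 : q < 4)
    (g₁ : ∀ k, 0 ≤ x ^ ((q - 4) / 4) * (c * X k) - z ^ ((q - 4) / 4) * (s * Z k))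
    (g₂ : ∀ k, 0 ≤ x ^ ((q - 4) / 4) * (s * X k) + z ^ ((q - 4) / 4) * (c * Z k)) :
    ∃ e₁ e₂ d₁ d₂ : ℝ, SDat (1 - 2 / q) e₁ e₂ c s d₁ d₂ X Z ∧
      d₁ * e₁ ^ 2 + d₂ * e₂ ^ 2 = x ^ (q / 2) + z ^ (q / 2) := by
  have hq0 : 0 < q := by linarith
  have ha : 0 < 1 - 2 / q := by
    rw [sub_pos, div_lt_one hq0]
    exact h2
  have ha' : 2 * (1 - 2 / q) < 1 := by
    have : 1 / 2 < 2 / q := by
      rw [div_lt_div_iff₀ two_pos hq0]
      linarith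
    linarith
  have hx0 : 0 ≤ x := by
    rw [← D.hX]
    exact Finset.sum_nonneg fun i _ => sq_nonneg _
  have hz0 : 0 ≤ z := by
    rw [← D.hZ]
    exact Finset.sum_nonneg fun i _ => sq_nonneg _
  have H₁ : ∀ k, 0 ≤ c * X k - s * Z k := fun k => by
    rw [← D.hy₁ k]
    exact D.h₁ k
  have H₂ : ∀ k, 0 ≤ s * X k + c * Z k := fun k => by
    rw [← D.hy₂ k]
    exact D.h₂ k
  have hq2 : q / 2 ≠ 0 := by positivity
  rcases hx0.eq_or_lt with hx | hx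
  · have hz : z = 0 := le_antisymm (by rw [hx]; exact D.hz) hz0
    have hX0 : ∀ k, X k = 0 := b3a_zero (by rw [D.hX, hx])
    have hZ0 : ∀ k, Z k = 0 := b3a_zero (by rw [D.hZ, hz])
    refine ⟨1, 1, 0, 0, ⟨ha, ha', one_pos, le_rfl, D.hc, D.hs, D.hcs, Or.inl rfl, Or.inl rfl,
      le_rfl, ?_, ?_, D.hXZ, H₁, H₂, fun k => ?_, fun k => ?_⟩, ?_⟩
    · rw [D.hX, ← hx, zero_mul]
    · rw [D.hZ, hz, zero_mul]
    · rw [hX0, hZ0]
      simp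
    · rw [hX0, hZ0]
      simp
    · rw [← hx, hz, Real.zero_rpow hq2]
      ring
  · rcases hz0.eq_or_lt with hz | hz
    · have hZ0 : ∀ k, Z k = 0 := b3a_zero (by rw [D.hZ, hz])
      refine ⟨x ^ (q / 4), x ^ (q / 4), 1, 0, ⟨ha, ha', Real.rpow_pos_of_pos hx _, le_rfl, D.hc,
        D.hs, D.hcs, Or.inr rfl, Or.inl rfl, zero_le_one, ?_, ?_, D.hXZ, H₁, H₂, fun k => ?_,
        fun k => ?_⟩, ?_⟩
      · rw [D.hX, one_mul, b3a_pow1 hx h2]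
      · rw [D.hZ, zero_mul, ← hz]
      · have := g₁ k
        rw [hZ0] at this ⊢
        rw [b3a_pow2 hx h2]
        simpa using this
      · have := g₂ k
        rw [hZ0] at this ⊢
        rw [b3a_pow2 hx h2]
        simpa using this
      · rw [b3a_pow3 hx, ← hz, Real.zero_rpow hq2]
        ring
    · refine ⟨x ^ (q / 4), z ^ (q / 4), 1, 1, ⟨ha, ha', Real.rpow_pos_of_pos hz _, ?_, D.hc,
        D.hs, D.hcs, Or.inr rfl, Or.inr rfl, le_rfl, ?_, ?_, D.hXZ, H₁, H₂, fun k => ?_,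
        fun k => ?_⟩, ?_⟩
      · exact Real.rpow_le_rpow hz.le D.hz (by positivity)
      · rw [D.hX, one_mul, b3a_pow1 hx h2]
      · rw [D.hZ, one_mul, b3a_pow1 hz h2]
      · rw [b3a_pow2 hx h2, b3a_pow2 hz h2]
        exact g₁ k
      · rw [b3a_pow2 hx h2, b3a_pow2 hz h2]
        exact g₂ k
      · rw [b3a_pow3 hx, b3a_pow3 hz]
        ring

theorem b3a_rpow {t p : ℝ} (ht : 0 ≤ t) (hp : 0 < p) : t ^ ((p - 2) / 2) * t = t ^ (p / 2) := by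
  rcases ht.eq_or_lt with h | h
  · rw [← h, mul_zero, Real.zero_rpow (by positivity)]
  · nth_rewrite 2 [← Real.rpow_one t]
    rw [← Real.rpow_add h]
    congr 1
    ring

/-- `∑ X² = x`, `∑ Z² = z`, `∑ XZ = 0`, `x^((p-2)/2) x = x^(p/2)` (also for `x = 0`, as `p > 0`) -/
theorem pair_p (D : RDat c s x z y₁ y₂ X Z) (p : ℝ) (hp : 0 < p) :
    ∑ k, ((c * (x ^ ((p - 2) / 2) * X k) - s * (z ^ ((p - 2) / 2) * Z k)) * y₁ k +
      (s * (x ^ ((p - 2) / 2) * X k) + c * (z ^ ((p - 2) / 2) * Z k)) * y₂ k) =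
      x ^ (p / 2) + z ^ (p / 2) := by
  have hx0 : 0 ≤ x := by
    rw [← D.hX]
    exact Finset.sum_nonneg fun i _ => sq_nonneg _
  have hz0 : 0 ≤ z := by
    rw [← D.hZ]
    exact Finset.sum_nonneg fun i _ => sq_nonneg _
  have h : ∀ k, (c * (x ^ ((p - 2) / 2) * X k) - s * (z ^ ((p - 2) / 2) * Z k)) * y₁ k +
      (s * (x ^ ((p - 2) / 2) * X k) + c * (z ^ ((p - 2) / 2) * Z k)) * y₂ k =
      x ^ ((p - 2) / 2) * X k ^ 2 + z ^ ((p - 2) / 2) * Z k ^ 2 := by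
    intro k
    rw [D.hy₁, D.hy₂]
    have e := D.hcs
    generalize x ^ ((p - 2) / 2) = α
    generalize z ^ ((p - 2) / 2) = β
    linear_combination (α * X k ^ 2 + β * Z k ^ 2) * e
  rw [Finset.sum_congr rfl fun k _ => h k, Finset.sum_add_distrib, ← Finset.mul_sum,
    ← Finset.mul_sum, D.hX, D.hZ, b3a_rpow hx0 hp, b3a_rpow hz0 hp]

end Pool.Agent.LibSchA
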