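import Pool.Agent.LibSchA.A4a
import Pool.Agent.LibSchA.A6b
import Pool.Agent.LibSchA.A7a

/-! **B4b.**  Duality. -/

open Matrix
open scoped ComplexOrder

namespace Pool.Agent.LibSchA

open Pool.Agent.LibSchP

theorem B4b_norm {m κ κ' : Type} [Fintype m] (U : Matrix m κ ℂ) (V : Matrix m κ' ℂ)
    (j : κ) (l : κ') : ‖(Uᴴ * V) j l‖ = ‖(Vᴴ * U) l j‖ := by
  have h : (Uᴴ * V) j l = star ((Vᴴ * U) l j) := by
    have h1 : (Uᴴ * V) = (Vᴴ * U)ᴴ := by
      rw [conjTranspose_mul, conjTranspose_conjTranspose]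
    rw [h1, conjTranspose_apply]
  rw [h, norm_star]

/-- `svd_red` for both, `trace_usv_cross` (with `E = 1`), `g_j s_l ≤ g_j^p/p + s_l^q/q`,
`Re (a b) ≤ (|a|² + |b|²)/2`, Bessel (`row_le_one`). -/
theorem trace_young' {m n : Type} [Fintype m] [Fintype n] [DecidableEq m] [DecidableEq n]
    (p q : ℝ) (hpq : p.HolderConjugate q) (G S : Matrix m n ℂ) :
    (trace (Gᴴ * S)).re ≤ LibSch.pw p G / p + LibSch.pw q S / q := by
  obtain ⟨κ, _, _, U, V, g, hU, hV, hg, hG, hpG⟩ := svd_red G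
  obtain ⟨κ', _, _, U', V', s, hU', hV', hs, hS, hpS⟩ := svd_red S
  rw [hpG p hpq.pos, hpS q hpq.symm.pos]
  have h1 : (trace (Gᴴ * S)).re =
      ∑ j, ∑ l, g j * s l * ((Uᴴ * (1 : Matrix m m ℂ) * U') j l * (V'ᴴ * V) l j).re := by
    rw [← trace_usv_cross U V U' V' g s 1, ← hG, ← hS, Matrix.mul_one]
  rw [h1, Matrix.mul_one]
  obtain ⟨A, hA⟩ : ∃ A : κ → κ' → ℝ, ∀ j l, A j l =
      (‖(Uᴴ * U') j l‖ ^ 2 + ‖(V'ᴴ * V) l j‖ ^ 2) / 2 := ⟨_, fun _ _ => rfl⟩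
  have hA0 : ∀ j l, 0 ≤ A j l := fun j l => by rw [hA]; positivity
  have hrow : ∀ j, ∑ l, A j l ≤ 1 := by
    intro j
    have e1 := row_le_one U U' hU hU' j
    have e2 := row_le_one V V' hV hV' j
    have e3 : ∑ l, ‖(Uᴴ * U') j l‖ ^ 2 = ∑ l, ‖(U'ᴴ * U) l j‖ ^ 2 :=
      Finset.sum_congr rfl fun l _ => by rw [B4b_norm]
    simp only [hA]
    rw [← Finset.sum_div, Finset.sum_add_distrib, e3]
    linarith
  have hcol : ∀ l, ∑ j, A j l ≤ 1 := by
    intro l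
    have e1 := row_le_one U' U hU' hU l
    have e2 := row_le_one V' V hV' hV l
    have e3 : ∑ j, ‖(V'ᴴ * V) l j‖ ^ 2 = ∑ j, ‖(Vᴴ * V') j l‖ ^ 2 :=
      Finset.sum_congr rfl fun j _ => by rw [B4b_norm]
    simp only [hA]
    rw [← Finset.sum_div, Finset.sum_add_distrib, e3]
    linarith
  have hterm : ∀ j l, g j * s l * ((Uᴴ * U') j l * (V'ᴴ * V) l j).re ≤
      g j ^ p / p * A j l + s l ^ q / q * A j l := by
    intro j l
    have e1 : ((Uᴴ * U') j l * (V'ᴴ * V) l j).re ≤ A j l := by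
      refine (Complex.re_le_norm _).trans ?_
      rw [norm_mul, hA]
      nlinarith [sq_nonneg (‖(Uᴴ * U') j l‖ - ‖(V'ᴴ * V) l j‖)]
    have e2 : g j * s l ≤ g j ^ p / p + s l ^ q / q :=
      Real.young_inequality_of_nonneg (hg j).le (hs l).le hpq
    have e3 : 0 ≤ g j * s l := mul_nonneg (hg j).le (hs l).le
    calc g j * s l * ((Uᴴ * U') j l * (V'ᴴ * V) l j).re ≤ g j * s l * A j l :=
          mul_le_mul_of_nonneg_left e1 e3
      _ ≤ (g j ^ p / p + s l ^ q / q) * A j l := mul_le_mul_of_nonneg_right e2 (hA0 j l)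
      _ = _ := by ring
  have hgp : ∀ j, 0 ≤ g j ^ p / p := fun j => div_nonneg (Real.rpow_nonneg (hg j).le _) hpq.nonneg
  have hsq : ∀ l, 0 ≤ s l ^ q / q := fun l =>
    div_nonneg (Real.rpow_nonneg (hs l).le _) hpq.symm.nonneg
  calc ∑ j, ∑ l, g j * s l * ((Uᴴ * U') j l * (V'ᴴ * V) l j).re
      ≤ ∑ j, ∑ l, (g j ^ p / p * A j l + s l ^ q / q * A j l) :=
        Finset.sum_le_sum fun j _ => Finset.sum_le_sum fun l _ => hterm j l
    _ = (∑ j, g j ^ p / p * ∑ l, A j l) + ∑ l, s l ^ q / q * ∑ j, A j l := by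
        simp only [Finset.sum_add_distrib, Finset.mul_sum]
        rw [Finset.sum_comm (f := fun j l => s l ^ q / q * A j l)]
    _ ≤ (∑ j, g j ^ p / p * 1) + ∑ l, s l ^ q / q * 1 := by
        refine add_le_add (Finset.sum_le_sum fun j _ => ?_) (Finset.sum_le_sum fun l _ => ?_)
        · exact mul_le_mul_of_nonneg_left (hrow j) (hgp j)
        · exact mul_le_mul_of_nonneg_left (hcol l) (hsq l)
    _ = (∑ j, g j ^ p) / p + (∑ l, s l ^ q) / q := by
        simp only [mul_one, Finset.sum_div]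

end Pool.Agent.LibSchA
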