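import Pool.Agent.LibSchA.A4a

/-! **B4a.**  Duality. -/

open Matrix
open scoped ComplexOrder

namespace Pool.Agent.LibSchA

open Pool.Agent.LibSchP

theorem b4a_dg_ct {κ : Type} [DecidableEq κ] (t : κ → ℝ) : (dg t)ᴴ = dg t := by
  unfold dg
  rw [diagonal_conjTranspose]
  congr 1
  funext k
  simp

theorem b4a_dg_mul {κ : Type} [Fintype κ] [DecidableEq κ] (t s : κ → ℝ) :
    dg t * dg s = dg fun j => t j * s j := by
  unfold dg
  rw [diagonal_mul_diagonal]
  congr 1
  funext k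
  push_cast
  rfl

/-- `pw_congr` (`U` drops out), `pw_conjTranspose`, `pw_congr` again (`V` drops out),
`pw q (dg t) = ∑ t^q` (`pw_ud` with `U = 1`, or `PwBasic_S_diagonal`) -/
theorem pw_usv {m n κ : Type} [Fintype m] [Fintype n] [DecidableEq n] [Fintype κ]
    [DecidableEq κ] (q : ℝ) (hq : 0 < q) (U : Matrix m κ ℂ) (V : Matrix n κ ℂ)
    (hU : Uᴴ * U = 1) (hV : Vᴴ * V = 1) (t : κ → ℝ) (ht : ∀ j, 0 ≤ t j) :
    LibSch.pw q (U * dg t * Vᴴ) = ∑ j, t j ^ q := by
  have h1 : LibSch.pw q (U * dg t * Vᴴ) = LibSch.pw q (dg t * Vᴴ) := by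
    refine pw_congr q _ _ ?_
    rw [conjTranspose_mul, conjTranspose_mul, conjTranspose_mul, b4a_dg_ct,
      conjTranspose_conjTranspose]
    calc V * (dg t * Uᴴ) * (U * dg t * Vᴴ) = V * dg t * (Uᴴ * U) * (dg t * Vᴴ) := by
          simp only [Matrix.mul_assoc]
      _ = V * dg t * (dg t * Vᴴ) := by rw [hU, Matrix.mul_one]
  have h2 : LibSch.pw q (dg t * Vᴴ) = LibSch.pw q (V * dg t) := by
    have h := LibSch.pw_conjTranspose q hq (V * dg t)
    rw [conjTranspose_mul, b4a_dg_ct] at h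
    exact h
  have h3 : LibSch.pw q (V * dg t) = LibSch.pw q (dg t) := by
    refine pw_congr q _ _ ?_
    rw [conjTranspose_mul, b4a_dg_ct]
    calc dg t * Vᴴ * (V * dg t) = dg t * (Vᴴ * V) * dg t := by simp only [Matrix.mul_assoc]
      _ = dg t * dg t := by rw [hV, Matrix.mul_one]
  have h4 : LibSch.pw q (dg t) = ∑ j, t j ^ q := by
    rw [LibSch.PwBasic_pw, b4a_dg_ct, b4a_dg_mul]
    unfold dg
    rw [LibSch.PwBasic_S_diagonal]
    refine Finset.sum_congr rfl fun j _ => ?_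
    rw [Complex.ofReal_re]
    show (t j * t j) ^ (q / 2) = t j ^ q
    rw [← pow_two, ← Real.rpow_natCast (t j) 2, ← Real.rpow_mul (ht j)]
    congr 1
    push_cast
    ring
  rw [h1, h2, h3, h4]

/-- `svd_red`: `T = U t Vᴴ`, `S = U (y (t/w)^(p-1)) Vᴴ`, `w = sn p T`, `w^p = ∑ t^p`
(if `κ` is empty then `T = 0`, `S = 0`); `pw_usv`; `(p-1) q = p`. -/
theorem norming' {m n : Type} [Fintype m] [Fintype n] [DecidableEq n] (p q : ℝ)
    (hpq : p.HolderConjugate q) (T : Matrix m n ℂ) (y : ℝ) (hy : 0 ≤ y) :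
    ∃ S : Matrix m n ℂ, LibSch.pw q S ≤ y ^ q ∧ (trace (Sᴴ * T)).re = y * LibSch.sn p T := by
  obtain ⟨κ, hκ, hκ', U, V, t, hU, hV, ht, hT, hp⟩ := svd_red T
  have hp0 : 0 < p := hpq.pos
  have hq0 : 0 < q := hpq.symm.pos
  have hpp := hp p hp0
  set w : ℝ := LibSch.sn p T with hw
  have hw' : w = (∑ j, t j ^ p) ^ (1 / p) := by rw [hw, LibSch.sn, hpp]
  have hsum0 : 0 ≤ ∑ j, t j ^ p := Finset.sum_nonneg fun j _ => Real.rpow_nonneg (ht j).le p
  have hw0 : 0 ≤ w := by rw [hw']; exact Real.rpow_nonneg hsum0 _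
  have hwp : w ^ p = ∑ j, t j ^ p := by
    rw [hw', ← Real.rpow_mul hsum0, one_div, inv_mul_cancel₀ hp0.ne', Real.rpow_one]
  set s : κ → ℝ := fun j => y * (t j / w) ^ (p - 1) with hs
  have hs0 : ∀ j, 0 ≤ s j := fun j =>
    mul_nonneg hy (Real.rpow_nonneg (div_nonneg (ht j).le hw0) _)
  have htr : (trace ((U * dg s * Vᴴ)ᴴ * T)).re = ∑ j, s j * t j := by
    have h1 : (U * dg s * Vᴴ)ᴴ * T = V * dg (fun j => s j * t j) * Vᴴ := by
      rw [conjTranspose_mul, conjTranspose_mul, b4a_dg_ct, conjTranspose_conjTranspose]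
      conv_lhs => rw [hT]
      calc V * (dg s * Uᴴ) * (U * dg t * Vᴴ) = V * (dg s * (Uᴴ * U) * dg t) * Vᴴ := by
            simp only [Matrix.mul_assoc]
        _ = V * dg (fun j => s j * t j) * Vᴴ := by rw [hU, Matrix.mul_one, b4a_dg_mul]
    rw [h1, trace_mul_comm, ← Matrix.mul_assoc, hV, Matrix.one_mul]
    unfold dg
    rw [trace_diagonal, Complex.re_sum]
    exact Finset.sum_congr rfl fun j _ => Complex.ofReal_re _
  refine ⟨U * dg s * Vᴴ, ?_, ?_⟩
  · rw [pw_usv q hq0 U V hU hV s hs0]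
    rcases isEmpty_or_nonempty κ with hE | hN
    · rw [Finset.univ_eq_empty, Finset.sum_empty]
      exact Real.rpow_nonneg hy q
    · have hwpos : 0 < w := by
        have h0 : 0 < ∑ j, t j ^ p :=
          Finset.sum_pos (fun j _ => Real.rpow_pos_of_pos (ht j) p) Finset.univ_nonempty
        rw [hw']; exact Real.rpow_pos_of_pos h0 _
      have h5 : ∀ j, s j ^ q = y ^ q * (t j ^ p / w ^ p) := by
        intro j
        have hd : 0 ≤ t j / w := div_nonneg (ht j).le hw0
        rw [hs]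
        show (y * (t j / w) ^ (p - 1)) ^ q = _
        rw [Real.mul_rpow hy (Real.rpow_nonneg hd _), ← Real.rpow_mul hd, hpq.sub_one_mul_conj,
          Real.div_rpow (ht j).le hw0]
      rw [Finset.sum_congr rfl fun j _ => h5 j, ← Finset.mul_sum, ← Finset.sum_div, ← hwp,
        div_self (Real.rpow_pos_of_pos hwpos p).ne', mul_one]
  · rw [htr]
    rcases isEmpty_or_nonempty κ with hE | hN
    · have h0 : w = 0 := by
        rw [hw', Finset.univ_eq_empty, Finset.sum_empty, Real.zero_rpow (by positivity)]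
      rw [Finset.univ_eq_empty, Finset.sum_empty, h0, mul_zero]
    · have hwpos : 0 < w := by
        have h0 : 0 < ∑ j, t j ^ p :=
          Finset.sum_pos (fun j _ => Real.rpow_pos_of_pos (ht j) p) Finset.univ_nonempty
        rw [hw']; exact Real.rpow_pos_of_pos h0 _
      have h5 : ∀ j, s j * t j = y * (t j ^ p / w ^ (p - 1)) := by
        intro j
        rw [hs]
        show y * (t j / w) ^ (p - 1) * t j = _
        rw [Real.div_rpow (ht j).le hw0]
        have h6 : t j ^ p = t j ^ (p - 1) * t j := by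
          conv_rhs => rw [← Real.rpow_one (t j), ← Real.rpow_mul (ht j).le, one_mul]
          rw [← Real.rpow_add (ht j)]
          congr 1
          ring
        rw [h6]
        ring
      rw [Finset.sum_congr rfl fun j _ => h5 j, ← Finset.mul_sum, ← Finset.sum_div, ← hwp]
      have h7 : w ^ p / w ^ (p - 1) = w := by
        rw [← Real.rpow_sub hwpos]
        have : p - (p - 1) = 1 := by ring
        rw [this, Real.rpow_one]
      rw [h7]

end Pool.Agent.LibSchA
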