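import Pool.Agent.LibSchA.A9
import Pool.Agent.LibSchA.B2
import Pool.Agent.LibSchA.B3
import Pool.Agent.LibSchA.B4

/-! **C1.**  Theorem A3 for `2 < q < 4` and `4/3 < p < 2`. -/

open Matrix
open scoped ComplexOrder

namespace Pool.Agent.LibSchA

open Pool.Agent.LibSchP Pool.Agent.LibSch

section main

variable {N : ℕ} {m₁ m₂ : Type} {n : Fin N → Type} [Fintype m₁] [DecidableEq m₁]
    [Fintype m₂] [DecidableEq m₂] [∀ k, Fintype (n k)] [∀ k, DecidableEq (n k)]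

theorem comp_eq (p : ℝ) (A : ∀ k, Matrix m₁ (n k) ℂ) (B : ∀ k, Matrix m₂ (n k) ℂ) :
    comp p A B = mat (fun k => sn p (A k)) (fun k => sn p (B k)) := rfl

theorem sn_nonneg' {m n : Type} [Fintype m] [Fintype n] [DecidableEq n] (p : ℝ)
    (M : Matrix m n ℂ) : 0 ≤ sn p M := Real.rpow_nonneg (pw_nonneg p M) _

theorem sn_pow {m n : Type} [Fintype m] [Fintype n] [DecidableEq n] (p : ℝ) (hp : 0 < p)
    (M : Matrix m n ℂ) : sn p M ^ p = pw p M := by
  rw [sn, ← Real.rpow_mul (pw_nonneg p M), one_div, inv_mul_cancel₀ hp.ne', Real.rpow_one]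

theorem mat_re₀ (y₁ y₂ : Fin N → ℝ) (k : Fin N) : (mat y₁ y₂ 0 k).re = y₁ k := by
  simp [mat]

theorem mat_re₁ (y₁ y₂ : Fin N → ℝ) (k : Fin N) : (mat y₁ y₂ 1 k).re = y₂ k := by
  simp [mat]

/-- **Theorem A3, `2 < q < 4`.** -/
theorem final_q (q : ℝ) (h2 : 2 < q) (h4 : q < 4) (A : ∀ k, Matrix m₁ (n k) ℂ)
    (B : ∀ k, Matrix m₂ (n k) ℂ)
    (h : ∀ i k, 0 ≤ ((rp ((q - 4) / 4) (comp q A B * (comp q A B)ᴴ) * comp q A B) i k).re) :
    sn q (blk A B) ≤ sn q (comp q A B) := by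
  have hq0 : 0 < q := by linarith
  obtain ⟨c, s, x, z, X, Z, D⟩ := rdat_exists (fun k => sn q (A k)) (fun k => sn q (B k))
    (fun k => sn_nonneg' q (A k)) (fun k => sn_nonneg' q (B k))
  rw [comp_eq, mat_rp D] at h
  obtain ⟨e₁, e₂, d₁, d₂, S, hΦ⟩ := data_q D q h2 h4
    (fun k => by have := h 0 k; rwa [mat_re₀] at this)
    (fun k => by have := h 1 k; rwa [mat_re₁] at this)
  have key := main_q S (q := q) (by field_simp; ring) A B
    (fun k => by rw [← D.hy₁ k, sn_pow q hq0]) (fun k => by rw [← D.hy₂ k, sn_pow q hq0])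
  rw [hΦ, ← mat_pw D q hq0, ← comp_eq] at key
  exact Real.rpow_le_rpow (pw_nonneg q _) key (by positivity)

/-- **Theorem A3, `4/3 < p < 2`.** -/
theorem final_p (p : ℝ) (h1 : 4 / 3 < p) (h2 : p < 2) (A : ∀ k, Matrix m₁ (n k) ℂ)
    (B : ∀ k, Matrix m₂ (n k) ℂ)
    (h : ∀ i k, 0 ≤ ((rp (-p / 4) (comp p A B * (comp p A B)ᴴ) * comp p A B) i k).re) :
    sn p (comp p A B) ≤ sn p (blk A B) := by
  have hp0 : 0 < p := by linarith
  have hp1 : 1 < p := by linarith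
  obtain ⟨c, s, x, z, X, Z, D⟩ := rdat_exists (fun k => sn p (A k)) (fun k => sn p (B k))
    (fun k => sn_nonneg' p (A k)) (fun k => sn_nonneg' p (B k))
  rw [comp_eq, mat_rp D] at h
  obtain ⟨e₁, e₂, d₁, d₂, S, hΦ⟩ := data_p D p h1 h2
    (fun k => by have := h 0 k; rwa [mat_re₀] at this)
    (fun k => by have := h 1 k; rwa [mat_re₁] at this)
  have hpq : p.HolderConjugate (p / (p - 1)) := Real.HolderConjugate.conjExponent hp1
  set q := p / (p - 1) with hq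
  choose SA hSA hTA using fun k => norming' p q hpq (A k)
    (c * (x ^ ((p - 2) / 2) * X k) - s * (z ^ ((p - 2) / 2) * Z k)) (S.h₁ k)
  choose SB hSB hTB using fun k => norming' p q hpq (B k)
    (s * (x ^ ((p - 2) / 2) * X k) + c * (z ^ ((p - 2) / 2) * Z k)) (S.h₂ k)
  have hqa : q = 2 / (1 - (2 / p - 1)) := by
    have h9 : p - 1 ≠ 0 := by linarith
    have h10 : (1 - (2 / p - 1)) = 2 * (p - 1) / p := by field_simp; ring
    rw [hq, h10]
    field_simp
  have key := main_q S hqa SA SB hSA hSB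
  have hy := trace_young' q p hpq.symm (blk SA SB) (blk A B)
  rw [trace_blk'] at hy
  have e1 : ∑ k, ((trace ((SA k)ᴴ * A k)).re + (trace ((SB k)ᴴ * B k)).re) =
      x ^ (p / 2) + z ^ (p / 2) := by
    rw [← pair_p D p hp0]
    exact Finset.sum_congr rfl fun k _ => by rw [hTA k, hTB k]
  rw [e1] at hy
  rw [hΦ] at key
  have hq0 : 0 < q := hpq.symm.pos
  have h3 : pw q (blk SA SB) / q ≤ (x ^ (p / 2) + z ^ (p / 2)) / q := by gcongr
  have h5 := hpq.inv_add_inv_eq_one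
  have h6 : (x ^ (p / 2) + z ^ (p / 2)) / p ≤ pw p (blk A B) / p := by
    have h8 : ∀ Φ : ℝ, Φ / p = Φ - Φ / q := by
      intro Φ
      simp only [div_eq_mul_inv]
      linear_combination Φ * h5
    rw [h8]
    linarith
  have h7 : x ^ (p / 2) + z ^ (p / 2) ≤ pw p (blk A B) := (div_le_div_iff_of_pos_right hp0).1 h6
  rw [← mat_pw D p hp0, ← comp_eq] at h7
  exact Real.rpow_le_rpow (pw_nonneg p _) h7 (by positivity)

end main

end Pool.Agent.LibSchA
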