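import Pool.Agent.LibSchA.A0

/-! **C2a.**  Positive semidefinite `2 × 2` compressions. -/

open Matrix
open scoped ComplexOrder

namespace Pool.Agent.LibSchA

open Pool.Agent.LibSchP

/-- eigenvalues `l₁ ≥ l₂ ≥ 0` of `!![a, b; b, d]` and the unit eigenvector `(c, s)` for `l₁`:
with `ρ = √((a-d)² + 4b²)`, `l₁ = (a+d+ρ)/2`, `l₂ = (a+d-ρ)/2`; `ρ = 0`: `c = 1`, `s = 0`;
else `c = √((1 + (a-d)/ρ)/2)`, `s = √((1 - (a-d)/ρ)/2)`, so `c² - s² = (a-d)/ρ`, `cs = b/ρ`. -/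
theorem psd_eig (a b d : ℝ) (ha : 0 ≤ a) (hb : 0 ≤ b) (hd : 0 ≤ d) (h : b ^ 2 ≤ a * d) :
    ∃ c s l₁ l₂ : ℝ, 0 ≤ c ∧ 0 ≤ s ∧ c ^ 2 + s ^ 2 = 1 ∧ 0 ≤ l₂ ∧ l₂ ≤ l₁ ∧
      a = l₁ * c ^ 2 + l₂ * s ^ 2 ∧ b = (l₁ - l₂) * (c * s) ∧ d = l₁ * s ^ 2 + l₂ * c ^ 2 := by
  obtain ⟨ρ, hρ⟩ : ∃ ρ : ℝ, ρ = √((a - d) ^ 2 + 4 * b ^ 2) := ⟨_, rfl⟩
  have hρ0 : 0 ≤ ρ := hρ ▸ Real.sqrt_nonneg _
  have hρ2 : ρ ^ 2 = (a - d) ^ 2 + 4 * b ^ 2 := by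
    rw [hρ]; exact Real.sq_sqrt (by positivity)
  rcases hρ0.eq_or_lt with h0 | hpos
  · have h1 : (a - d) ^ 2 + 4 * b ^ 2 = 0 := by rw [← hρ2, ← h0]; ring
    have h2 : b = 0 := by nlinarith [sq_nonneg (a - d), sq_nonneg b]
    have h3 : a = d := by
      have : (a - d) ^ 2 = 0 := by rw [h2] at h1; linarith
      have := pow_eq_zero_iff (two_ne_zero) |>.1 this
      linarith
    exact ⟨1, 0, a, a, by norm_num, le_refl _, by norm_num, ha, le_refl _, by ring, by rw [h2]; ring,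
      by rw [h3]; ring⟩
  · obtain ⟨t, ht⟩ : ∃ t : ℝ, t = (a - d) / ρ := ⟨_, rfl⟩
    have htρ : t * ρ = a - d := by rw [ht]; field_simp
    have ht2 : t ^ 2 + (2 * b / ρ) ^ 2 = 1 := by
      rw [ht]; field_simp; linarith
    have ht1 : t ^ 2 ≤ 1 := by nlinarith [sq_nonneg (2 * b / ρ)]
    have htl : -1 ≤ t := by nlinarith
    have htu : t ≤ 1 := by nlinarith
    have hc2 : (√((1 + t) / 2)) ^ 2 = (1 + t) / 2 := Real.sq_sqrt (by linarith)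
    have hs2 : (√((1 - t) / 2)) ^ 2 = (1 - t) / 2 := Real.sq_sqrt (by linarith)
    have hcs : √((1 + t) / 2) * √((1 - t) / 2) = b / ρ := by
      rw [← Real.sqrt_mul (by linarith), show (1 + t) / 2 * ((1 - t) / 2) = (b / ρ) ^ 2 by
        have : (2 * b / ρ) ^ 2 = 4 * (b / ρ) ^ 2 := by ring
        linarith]
      exact Real.sqrt_sq (by positivity)
    have hle : ρ ≤ a + d := by
      apply le_of_sq_le_sq _ (by linarith)
      rw [hρ2]; nlinarith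
    refine ⟨√((1 + t) / 2), √((1 - t) / 2), (a + d + ρ) / 2, (a + d - ρ) / 2, Real.sqrt_nonneg _,
      Real.sqrt_nonneg _, ?_, by linarith, by linarith, ?_, ?_, ?_⟩
    · rw [hc2, hs2]; ring
    · rw [hc2, hs2]; linarith
    · rw [hcs]; field_simp; ring
    · rw [hc2, hs2]; linarith

end Pool.Agent.LibSchA
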