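import Pool.Agent.LibSchA.B2
import Pool.Agent.LibSchA.C2a

/-! **C2.**  Positive semidefinite `2 × 2` compressions. -/

open Matrix
open scoped ComplexOrder

namespace Pool.Agent.LibSchA

open Pool.Agent.LibSchP

theorem c2_pow (l σ : ℝ) (hl : 0 ≤ l) (hσ : -(1 / 2) < σ) :
    (l ^ 2) ^ σ * l = l ^ (2 * σ + 1) := by
  rcases hl.eq_or_lt with h | h
  · rw [← h, mul_zero, Real.zero_rpow (by linarith)]
  · rw [Real.rpow_add h, Real.rpow_one, Real.rpow_mul h.le]
    norm_cast

theorem c2_mono (l₁ l₂ σ : ℝ) (h2 : 0 ≤ l₂) (h : l₂ ≤ l₁) (hσ : -(1 / 2) < σ) :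
    (l₂ ^ 2) ^ σ * l₂ ≤ (l₁ ^ 2) ^ σ * l₁ := by
  rw [c2_pow l₂ σ h2 hσ, c2_pow l₁ σ (h2.trans h) hσ]
  exact Real.rpow_le_rpow h2 h (by linarith)

/-- `psd_eig`; `X = ![l₁ c, l₁ s]`, `Z = ![-(l₂ s), l₂ c]`, `x = l₁²`, `z = l₂²`; `mat_rp`;
`(l²)^σ l` is `l^(2σ+1)` (also for `l = 0`), increasing in `l`. -/
theorem cond_psd (a b d σ : ℝ) (ha : 0 ≤ a) (hb : 0 ≤ b) (hd : 0 ≤ d) (h : b ^ 2 ≤ a * d)
    (hσ : -(1 / 2) < σ) (i k : Fin 2) :
    0 ≤ ((rp σ (mat ![a, b] ![b, d] * (mat ![a, b] ![b, d])ᴴ) * mat ![a, b] ![b, d]) i k).re := by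
  obtain ⟨c, s, l₁, l₂, hc, hs, hcs, h2, h21, ea, eb, ed⟩ := psd_eig a b d ha hb hd h
  have D : RDat c s (l₁ ^ 2) (l₂ ^ 2) ![a, b] ![b, d] ![l₁ * c, l₁ * s] ![-(l₂ * s), l₂ * c] :=
    { hc := hc
      hs := hs
      hcs := hcs
      hy₁ := fun k => by
        fin_cases k
        · simp; linear_combination ea
        · simp; linear_combination eb
      hy₂ := fun k => by
        fin_cases k
        · simp; linear_combination eb
        · simp; linear_combination ed
      hX := by
        rw [Fin.sum_univ_two]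
        simp
        linear_combination (l₁ ^ 2) * hcs
      hZ := by
        rw [Fin.sum_univ_two]
        simp
        linear_combination (l₂ ^ 2) * hcs
      hXZ := by
        rw [Fin.sum_univ_two]
        simp
        ring
      hz := by nlinarith
      h₁ := fun k => by fin_cases k <;> simpa
      h₂ := fun k => by fin_cases k <;> simpa }
  have hm := c2_mono l₁ l₂ σ h2 h21 hσ
  have p1 : 0 ≤ (l₁ ^ 2) ^ σ * l₁ :=
    mul_nonneg (Real.rpow_nonneg (sq_nonneg _) _) (h2.trans h21)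
  have p2 : 0 ≤ (l₂ ^ 2) ^ σ * l₂ := mul_nonneg (Real.rpow_nonneg (sq_nonneg _) _) h2
  rw [mat_rp D]
  have hcs' : 0 ≤ c * s := mul_nonneg hc hs
  have q := mul_nonneg hcs' (sub_nonneg.2 hm)
  fin_cases i <;> fin_cases k
  · simp only [mat, of_apply]
    simp
    nlinarith [mul_nonneg p1 (sq_nonneg c), mul_nonneg p2 (sq_nonneg s)]
  · simp only [mat, of_apply]
    simp
    nlinarith
  · simp only [mat, of_apply]
    simp
    nlinarith
  · simp only [mat, of_apply]
    simp
    nlinarith [mul_nonneg p1 (sq_nonneg s), mul_nonneg p2 (sq_nonneg c)]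

/-- eigenvalues `a + b`, `|a - b|`: `c = s = 1/√2`, `RDat` with `x = (a+b)²`, `z = (a-b)²`,
`mat_pw` -/
theorem pw_sym (a b p : ℝ) (ha : 0 ≤ a) (hb : 0 ≤ b) (hp : 0 < p) :
    LibSch.pw p (mat ![a, b] ![b, a]) = (a + b) ^ p + |a - b| ^ p := by
  set t : ℝ := √(1 / 2) with ht
  have htt : t ^ 2 = 1 / 2 := Real.sq_sqrt (by norm_num)
  have ht0 : 0 ≤ t := Real.sqrt_nonneg _
  have D : RDat t t ((a + b) ^ 2) ((a - b) ^ 2) ![a, b] ![b, a]
      ![(a + b) * t, (a + b) * t] ![-((a - b) * t), (a - b) * t] :=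
    { hc := ht0
      hs := ht0
      hcs := by linarith
      hy₁ := fun k => by
        fin_cases k
        · simp; linear_combination (-2 * a) * htt
        · simp; linear_combination (-2 * b) * htt
      hy₂ := fun k => by
        fin_cases k
        · simp; linear_combination (-2 * b) * htt
        · simp; linear_combination (-2 * a) * htt
      hX := by
        rw [Fin.sum_univ_two]
        simp
        linear_combination (2 * (a + b) ^ 2) * htt
      hZ := by
        rw [Fin.sum_univ_two]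
        simp
        linear_combination (2 * (a - b) ^ 2) * htt
      hXZ := by
        rw [Fin.sum_univ_two]
        simp
      hz := by nlinarith [mul_nonneg ha hb]
      h₁ := fun k => by fin_cases k <;> simpa
      h₂ := fun k => by fin_cases k <;> simpa }
  rw [mat_pw D p hp]
  congr 1
  · rw [← Real.rpow_natCast (a + b) 2, ← Real.rpow_mul (by positivity)]
    congr 1
    push_cast
    ring
  · rw [← sq_abs (a - b), ← Real.rpow_natCast _ 2, ← Real.rpow_mul (abs_nonneg _)]
    congr 1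
    push_cast
    ring

end Pool.Agent.LibSchA
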