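import Pool.Agent.LibSchA.A0
import Pool.Agent.LibSch.PwBasic

/-! **C3a.**  Two columns: interchanging the columns, and the symmetric pattern. -/

open Matrix
open scoped ComplexOrder

namespace Pool.Agent.LibSchA

open Pool.Agent.LibSchP Pool.Agent.LibSch

/-- auxiliary: `n ⊕ n ≃ Σ _ : Fin 2, n` -/
def c3a_e (n : Type) : n ⊕ n ≃ (Σ _ : Fin 2, n) where
  toFun := Sum.elim (fun x => ⟨0, x⟩) (fun x => ⟨1, x⟩)
  invFun := fun c => if c.1 = 0 then Sum.inl c.2 else Sum.inr c.2
  left_inv := by
    rintro (x | x) <;> simp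
  right_inv := by
    rintro ⟨k, x⟩
    fin_cases k <;> simp

/-- the `2 × 2` block matrix with square or rectangular blocks as a `blk`, and `fromBlocks` -/
theorem blk_two {m₁ m₂ n : Type} [Fintype m₁] [Fintype m₂] [Fintype n] [DecidableEq n] (p : ℝ)
    (A : Fin 2 → Matrix m₁ n ℂ) (C : Fin 2 → Matrix m₂ n ℂ) :
    pw p (blk (n := fun _ => n) A C) = pw p (fromBlocks (A 0) (A 1) (C 0) (C 1)) := by
  have h : fromBlocks (A 0) (A 1) (C 0) (C 1) =
      (blk (n := fun _ => n) A C).submatrix (Equiv.refl _) (c3a_e n) := by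
    ext i j
    rcases i with i | i <;> rcases j with j | j <;> rfl
  rw [h, pw_submatrix]

/-- auxiliary: the interchange of the two columns -/
def c3a_sw (n : Fin 2 → Type) : (Σ k, n (1 - k)) ≃ (Σ k, n k) :=
  Equiv.sigmaCongrLeft (β := n) (Equiv.subLeft (1 : Fin 2))

/-- interchanging the two columns (`pw_submatrix`; `Sigma` over `Fin 2`) -/
theorem sn_swap {m₁ m₂ : Type} {n : Fin 2 → Type} [Fintype m₁] [Fintype m₂]
    [∀ k, Fintype (n k)] [∀ k, DecidableEq (n k)] (p : ℝ) (A : ∀ k, Matrix m₁ (n k) ℂ)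
    (B : ∀ k, Matrix m₂ (n k) ℂ) :
    sn p (blk (n := fun k => n (1 - k)) (fun k => A (1 - k)) (fun k => B (1 - k))) =
        sn p (blk A B) ∧
      sn p (comp p (n := fun k => n (1 - k)) (fun k => A (1 - k)) (fun k => B (1 - k))) =
        sn p (comp p A B) := by
  constructor
  · have h : blk (n := fun k => n (1 - k)) (fun k => A (1 - k)) (fun k => B (1 - k)) =
        (blk A B).submatrix (Equiv.refl _) (c3a_sw n) := by
      ext i j
      rcases i with i | i <;> rcases j with ⟨k, j⟩ <;> rfl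
    unfold sn
    rw [h, pw_submatrix]
  · have h : comp p (n := fun k => n (1 - k)) (fun k => A (1 - k)) (fun k => B (1 - k)) =
        (comp p A B).submatrix (Equiv.refl _) (Equiv.subLeft (1 : Fin 2)) := by
      ext i j
      fin_cases i <;> rfl
    unfold sn
    rw [h, pw_submatrix]

end Pool.Agent.LibSchA
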