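import Pool.Agent.LibSchA.A0
import Pool.Agent.LibSch.PwBasic

/-! **C3b.**  Two columns: interchanging the columns, and the symmetric pattern. -/

open Matrix
open scoped ComplexOrder

namespace Pool.Agent.LibSchA

open Pool.Agent.LibSchP Pool.Agent.LibSch

theorem C3b_diag {m n : Type} [Fintype m] [Fintype n] [DecidableEq m] [DecidableEq n] (p : ℝ)
    (X Y : Matrix m n ℂ) : pw p (fromBlocks X 0 0 Y) = pw p X + pw p Y := by
  rw [PwBasic_pw, PwBasic_pw, PwBasic_pw]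
  have h : (fromBlocks X 0 0 Y)ᴴ * fromBlocks X 0 0 Y = fromBlocks (Xᴴ * X) 0 0 (Yᴴ * Y) := by
    rw [fromBlocks_conjTranspose, fromBlocks_multiply]
    simp
  unfold PwBasic_S
  rw [h, charpoly_fromBlocks_zero₁₂, Polynomial.roots_mul
    (mul_ne_zero (charpoly_monic _).ne_zero (charpoly_monic _).ne_zero), Multiset.map_add,
    Multiset.sum_add]

/-- the unitary `(1/√2) [1, 1; 1, -1]` -/
noncomputable def C3b_U (m : Type) [Fintype m] [DecidableEq m] : Matrix (m ⊕ m) (m ⊕ m) ℂ :=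
  (((Real.sqrt 2)⁻¹ : ℝ) : ℂ) • fromBlocks 1 1 1 (-1)

theorem C3b_sq : (((Real.sqrt 2)⁻¹ : ℝ) : ℂ) * (((Real.sqrt 2)⁻¹ : ℝ) : ℂ) = 1 / 2 := by
  rw [← Complex.ofReal_mul, ← mul_inv, Real.mul_self_sqrt (by norm_num)]
  push_cast
  norm_num

theorem C3b_U_mem (m : Type) [Fintype m] [DecidableEq m] :
    C3b_U m ∈ unitaryGroup (m ⊕ m) ℂ := by
  rw [mem_unitaryGroup_iff]
  unfold C3b_U
  rw [star_eq_conjTranspose, conjTranspose_smul, fromBlocks_conjTranspose, smul_mul_smul_comm,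
    fromBlocks_multiply]
  have hs : (((Real.sqrt 2)⁻¹ : ℝ) : ℂ) * star (((Real.sqrt 2)⁻¹ : ℝ) : ℂ) = 1 / 2 := by
    rw [← C3b_sq]
    congr 1
    exact Complex.conj_ofReal _
  rw [hs, fromBlocks_smul, ← fromBlocks_one]
  congr 1
  · simp
    rw [← add_smul]
    norm_num
  · simp
  · simp
  · simp
    rw [← add_smul]
    norm_num

/-- conjugation by the unitary `(1/√2) [1, 1; 1, -1]` (`pw_unitary`) and
`pw p (fromBlocks X 0 0 Y) = pw p X + pw p Y` (e.g. from `pw_blockDiagonal'` or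
`PwBasic_pw` and `charpoly_fromBlocks_zero₁₂`) -/
theorem pw_symm {m n : Type} [Fintype m] [Fintype n] [DecidableEq m] [DecidableEq n] (p : ℝ)
    (A B : Matrix m n ℂ) : pw p (fromBlocks A B B A) = pw p (A + B) + pw p (A - B) := by
  rw [← C3b_diag, ← pw_unitary p (fromBlocks A B B A) ⟨C3b_U m, C3b_U_mem m⟩
    ⟨C3b_U n, C3b_U_mem n⟩]
  congr 1
  show C3b_U m * fromBlocks A B B A * C3b_U n = _
  unfold C3b_U
  rw [Matrix.smul_mul, Matrix.smul_mul, Matrix.mul_smul, smul_smul, C3b_sq, fromBlocks_multiply,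
    fromBlocks_multiply, fromBlocks_smul]
  congr 1
  · ext i j
    simp
    ring
  · ext i j
    simp
    ring
  · ext i j
    simp
  · ext i j
    simp
    ring

end Pool.Agent.LibSchA
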