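import Pool.Agent.LibSchA.C2
import Pool.Agent.LibSchA.C3

/-! **C4.**  Corollaries for two columns, Hanner's inequality. -/

open Matrix
open scoped ComplexOrder

namespace Pool.Agent.LibSchA

open Pool.Agent.LibSchP Pool.Agent.LibSch

section two

variable {m₁ m₂ : Type} {n : Fin 2 → Type} [Fintype m₁] [DecidableEq m₁] [Fintype m₂]
  [DecidableEq m₂] [∀ k, Fintype (n k)] [∀ k, DecidableEq (n k)]

theorem mat_two (y₁ y₂ : Fin 2 → ℝ) : mat y₁ y₂ = mat ![y₁ 0, y₁ 1] ![y₂ 0, y₂ 1] := by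
  congr 1 <;> (funext k; fin_cases k <;> rfl)

theorem two_psd (p : ℝ) (h1 : 4 / 3 < p) (h4 : p < 4) (A : ∀ k, Matrix m₁ (n k) ℂ)
    (B : ∀ k, Matrix m₂ (n k) ℂ) (he : sn p (A 1) = sn p (B 0))
    (h : sn p (A 1) ^ 2 ≤ sn p (A 0) * sn p (B 1)) :
    (p < 2 → sn p (comp p A B) ≤ sn p (blk A B)) ∧
      (2 < p → sn p (blk A B) ≤ sn p (comp p A B)) := by
  have hc : comp p A B = mat ![sn p (A 0), sn p (A 1)] ![sn p (A 1), sn p (B 1)] := by
    rw [comp_eq, mat_two, ← he]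
  constructor
  · intro h2
    refine final_p p h1 h2 A B fun i k => ?_
    rw [hc]
    exact cond_psd _ _ _ (-p / 4) (sn_nonneg' _ _) (sn_nonneg' _ _) (sn_nonneg' _ _) h
      (by linarith) i k
  · intro h2
    refine final_q p h2 h4 A B fun i k => ?_
    rw [hc]
    exact cond_psd _ _ _ ((p - 4) / 4) (sn_nonneg' _ _) (sn_nonneg' _ _) (sn_nonneg' _ _) h
      (by linarith) i k

/-- `N = 2`: the norms on one of the two diagonals are equal and their product is at most the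
product of the two other norms. -/
theorem two_eq (p : ℝ) (h1 : 4 / 3 < p) (h4 : p < 4) (A : ∀ k, Matrix m₁ (n k) ℂ)
    (B : ∀ k, Matrix m₂ (n k) ℂ)
    (h : (sn p (A 1) = sn p (B 0) ∧ sn p (A 1) * sn p (B 0) ≤ sn p (A 0) * sn p (B 1)) ∨
      (sn p (A 0) = sn p (B 1) ∧ sn p (A 0) * sn p (B 1) ≤ sn p (A 1) * sn p (B 0))) :
    (p < 2 → sn p (comp p A B) ≤ sn p (blk A B)) ∧
      (2 < p → sn p (blk A B) ≤ sn p (comp p A B)) := by
  rcases h with ⟨he, hl⟩ | ⟨he, hl⟩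
  · exact two_psd p h1 h4 A B he (by rw [sq]; nth_rewrite 2 [he]; exact hl)
  · have h2 := two_psd (n := fun k => n (1 - k)) p h1 h4 (fun k => A (1 - k))
      (fun k => B (1 - k)) he (by
        show sn p (A 0) ^ 2 ≤ sn p (A 1) * sn p (B 0)
        rw [sq]; nth_rewrite 2 [he]; exact hl)
    rwa [(sn_swap p A B).1, (sn_swap p A B).2] at h2

end two

/-- **Hanner's inequality in the Schatten classes**, `4/3 < p < 2` and `2 < p < 4`. -/
theorem hanner {m n : Type} [Fintype m] [DecidableEq m] [Fintype n] [DecidableEq n] (p : ℝ)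
    (h1 : 4 / 3 < p) (h4 : p < 4) (A B : Matrix m n ℂ) :
    (p < 2 → (sn p A + sn p B) ^ p + |sn p A - sn p B| ^ p ≤
      sn p (A + B) ^ p + sn p (A - B) ^ p) ∧
    (2 < p → sn p (A + B) ^ p + sn p (A - B) ^ p ≤
      (sn p A + sn p B) ^ p + |sn p A - sn p B| ^ p) := by
  have hp0 : 0 < p := by linarith
  have e1 : sn p (blk (n := fun _ : Fin 2 => n) ![A, B] ![B, A]) ^ p =
      sn p (A + B) ^ p + sn p (A - B) ^ p := by
    rw [sn_pow p hp0, sn_pow p hp0, sn_pow p hp0, blk_two p ![A, B] ![B, A]]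
    exact pw_symm p A B
  have e2 : sn p (comp p (n := fun _ : Fin 2 => n) ![A, B] ![B, A]) ^ p =
      (sn p A + sn p B) ^ p + |sn p A - sn p B| ^ p := by
    rw [sn_pow p hp0, comp_eq, mat_two]
    exact pw_sym _ _ p (sn_nonneg' _ _) (sn_nonneg' _ _) hp0
  have h := two_eq (n := fun _ : Fin 2 => n) p h1 h4 ![A, B] ![B, A] (by
    rcases le_total (sn p A * sn p A) (sn p B * sn p B) with h5 | h5
    · exact Or.inr ⟨rfl, h5⟩
    · exact Or.inl ⟨rfl, h5⟩)
  rw [← e1, ← e2]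
  exact ⟨fun h2 => Real.rpow_le_rpow (sn_nonneg' _ _) (h.1 h2) hp0.le,
    fun h2 => Real.rpow_le_rpow (sn_nonneg' _ _) (h.2 h2) hp0.le⟩

end Pool.Agent.LibSchA
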